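import Pool.Agent.H36.S6.Act
import Pool.Agent.H40.S6.Ev
import Pool.Agent.H97.S6.H4R

/-!
# Activity in blocks, on large sub-events

The activity numbers describe the entropy of the digits of the coordinate `i₀` of the velocity, given
the exact point, at all integer levels and on all large sub-events; near a place where the activity
numbers have the slope `α`, the entropy of the block of `X` digits is `α X`.
-/

set_option autoImplicit false

namespace Pool.S6C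

open Finset Real
open Pool.Agent.H49.Ent Pool.Agent.H32.Dense Pool.STK Pool.KA Pool.KSAT Pool.K2S Pool.PB Pool.KS6
  Pool.Sel51

/-- A block of digits, given the exact point and the previous digits. -/
theorem CHD_block {m J : ℕ} (F : Fam m J) {p : F.Ω → ℝ} (hp : ∀ ω, 0 ≤ p ω) (q X : ℕ)
    (i : Fin m) :
    CH p (fun ω => F.D (q + X) ω i) (fun ω => (F.D q ω i, Fam.pt F ω)) =
      CH p (fun ω => F.D (q + X) ω i) (Fam.pt F) - CH p (fun ω => F.D q ω i) (Fam.pt F) := by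
  have h1 := CH_chain hp (fun ω => F.D (q + X) ω i) (fun ω => F.D q ω i) (Fam.pt F)
  have h2 : CH p (fun ω => (F.D (q + X) ω i, F.D q ω i)) (Fam.pt F) =
      CH p (fun ω => F.D (q + X) ω i) (Fam.pt F) := by
    refine CH_congr hp (fun ω ω' _ _ hh => ?_) (fun ω ω' _ _ hh => ?_) (fun _ _ _ _ h => h)
      (fun _ _ _ _ h => h)
    · exact (Prod.ext_iff.mp (Prod.ext_iff.mp hh).1).1
    · have e : F.D (q + X) ω i = F.D (q + X) ω' i := (Prod.ext_iff.mp hh).1
      refine Prod.ext e ?_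
      show F.D q ω i = F.D q ω' i
      rw [D_div F q X, D_div F q X, e]
  linarith only [h1, h2]

/-- **The activity numbers at all integer levels.** -/
theorem act_int {S : PCl 3} {i₀ : Fin 3} {act : ℚ → ℝ}
    (hpos : ∀ (τ : ℝ) (J : ℕ) (F : Fam 3 J) (A : F.Ω → Prop), S.St τ J F A → 0 < Pe F.p A)
    (hA : ActN S i₀ act)
    (hmono : ∀ q q' : ℚ, 0 ≤ q → q ≤ q' → q' ≤ 1 → act q ≤ act q')
    (hlip : ∀ q q' : ℚ, 0 ≤ q → q ≤ q' → q' ≤ 1 → act q' - act q ≤ q' - q)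
    {h : ℝ} (hh : 0 < h) :
    Clp S (fun J F A => ∀ a : ℕ, a ≤ J →
      |CH (Pool.Agent.H49.Ent.cond F.p A True) (fun ω => F.D a ω i₀) (Fam.pt F) -
        act ((a : ℚ) / J) * Real.log 2 * J| ≤ h * J) := by
  have hl2 : 0 < Real.log 2 := Real.log_pos (by norm_num)
  obtain ⟨N, hN⟩ := exists_nat_gt (2 * Real.log 2 / h)
  have hN0 : (0 : ℝ) < N := lt_trans (by positivity) hN
  have hNn : 0 < N := by exact_mod_cast hN0
  have hNh : Real.log 2 / N ≤ h / 2 := by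
    rw [div_lt_iff₀ hh] at hN
    rw [div_le_iff₀ hN0]
    nlinarith only [hN]
  have hlaw : Clp S (fun _ F A => IsLaw (Pool.Agent.H49.Ent.cond F.p A True)) :=
    Clp.of one_pos 0 fun J _ F A hA => isLaw_cond F.isLaw (hpos 1 J F A hA)
  have hgrid := Clp.all (S := S) (N + 1) (Φ := fun i J F A =>
      |CH (Pool.Agent.H49.Ent.cond F.p A True) (fun ω => F.D ⌊(((i : ℚ) / N : ℚ) : ℝ) * J⌋₊ ω i₀)
        (Fam.pt F) - act ((i : ℚ) / N) * Real.log 2 * J| ≤ h / 2 * J) fun i hi => by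
    refine hA ((i : ℚ) / N) (by positivity) ?_ (h / 2) (by linarith only [hh])
    rw [div_le_one (by exact_mod_cast hNn)]
    exact_mod_cast (by omega : i ≤ N)
  refine Clp.mono (J₂ := 1) (hlaw.and hgrid) ?_
  rintro J hJ F A ⟨hl, hg⟩ a ha
  have hJ0 : (0 : ℝ) < J := by exact_mod_cast hJ
  have hJq : (0 : ℚ) < J := by exact_mod_cast hJ
  have hNq : (0 : ℚ) < N := by exact_mod_cast hNn
  obtain ⟨i, hi⟩ : ∃ i, i = a * N / J := ⟨_, rfl⟩
  have hi1 : i * J ≤ a * N := by rw [hi]; exact Nat.div_mul_le_self _ _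
  have hi2 : a * N < (i + 1) * J := by
    rw [hi]
    exact (Nat.div_lt_iff_lt_mul (by omega)).1 (Nat.lt_succ_self _)
  have hiN : i ≤ N := by
    by_contra hcon
    push Not at hcon
    have h1 : (N + 1) * J ≤ i * J := Nat.mul_le_mul_right _ hcon
    have h2 : a * N ≤ J * N := Nat.mul_le_mul_right _ ha
    nlinarith only [hJ, hi1, h1, h2]
  -- the numbers
  have r1 : (i : ℚ) / N ≤ (a : ℚ) / J := by
    rw [div_le_div_iff₀ hNq hJq]
    exact_mod_cast hi1
  have ra1 : (a : ℚ) / J ≤ 1 := by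
    rw [div_le_one hJq]
    exact_mod_cast ha
  have n1 := hmono ((i : ℚ) / N) ((a : ℚ) / J) (by positivity) r1 ra1
  have f1 : ⌊(((i : ℚ) / N : ℚ) : ℝ) * J⌋₊ ≤ a := by
    refine Nat.floor_le_of_le ?_
    push_cast
    rw [div_mul_eq_mul_div, div_le_iff₀ hN0]
    exact_mod_cast hi1
  have m1 := CHD_mono F hl.nonneg f1 i₀
  have g1 := hg i (by omega)
  have hk : Real.log 2 / N * J ≤ h / 2 * J := mul_le_mul_of_nonneg_right hNh hJ0.le
  rw [abs_le] at g1 ⊢
  rcases Nat.lt_or_ge i N with hlt | hge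
  · -- the next point of the grid
    have r2 : (a : ℚ) / J ≤ ((i + 1 : ℕ) : ℚ) / N := by
      rw [div_le_div_iff₀ hJq hNq]
      exact_mod_cast hi2.le
    have r3 : ((i + 1 : ℕ) : ℚ) / N ≤ 1 := by
      rw [div_le_one hNq]
      exact_mod_cast (by omega : i + 1 ≤ N)
    have r4 : (i : ℚ) / N ≤ ((i + 1 : ℕ) : ℚ) / N := r1.trans r2
    have n2 := hmono ((a : ℚ) / J) (((i + 1 : ℕ) : ℚ) / N) (by positivity) r2 r3
    have n3 := hlip ((i : ℚ) / N) (((i + 1 : ℕ) : ℚ) / N) (by positivity) r4 r3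
    have f2 : a ≤ ⌊((((i + 1 : ℕ) : ℚ) / N : ℚ) : ℝ) * J⌋₊ := by
      refine Nat.le_floor ?_
      push_cast
      rw [div_mul_eq_mul_div, le_div_iff₀ hN0]
      exact_mod_cast hi2.le
    have m2 := CHD_mono F hl.nonneg f2 i₀
    have g2 := hg (i + 1) (by omega)
    rw [abs_le] at g2
    have e1 : ((((i + 1 : ℕ) : ℚ) / N : ℚ) : ℝ) - (((i : ℚ) / N : ℚ) : ℝ) = 1 / N := by
      push_cast
      ring
    have n4 : act (((i + 1 : ℕ) : ℚ) / N) ≤ act ((i : ℚ) / N) + 1 / N := by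
      have : (((((i + 1 : ℕ) : ℚ) / N : ℚ) - ((i : ℚ) / N : ℚ) : ℚ) : ℝ) = 1 / N := by
        push_cast
        push_cast at e1
        exact e1
      push_cast at n3 this ⊢
      linarith only [n3, this]
    have hlJ : 0 ≤ Real.log 2 * J := by positivity
    have s1 : act ((a : ℚ) / J) * (Real.log 2 * J) ≤
        (act ((i : ℚ) / N) + 1 / N) * (Real.log 2 * J) :=
      mul_le_mul_of_nonneg_right (n2.trans n4) hlJ
    have s2 : act (((i + 1 : ℕ) : ℚ) / N) * (Real.log 2 * J) ≤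
        (act ((a : ℚ) / J) + 1 / N) * (Real.log 2 * J) :=
      mul_le_mul_of_nonneg_right (by linarith only [n1, n3, e1]) hlJ
    have e2 : 1 / (N : ℝ) * (Real.log 2 * J) = Real.log 2 / N * J := by ring
    constructor
    · nlinarith only [m1, g1, hk, s1, e2, g1.1]
    · nlinarith only [hk, m2, g2, s2, e2, g2.2]
  · have hi3 : i = N := by omega
    have ha2 : a = J := by
      rw [hi3] at hi1
      have : J ≤ a := by
        by_contra hcon
        push Not at hcon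
        have : a * N < J * N := Nat.mul_lt_mul_of_pos_right hcon hNn
        nlinarith only [hi1, this]
      omega
    have e1 : (i : ℚ) / N = (a : ℚ) / J := by
      rw [hi3, ha2, div_self hNq.ne', div_self hJq.ne']
    have e2 : ⌊(((i : ℚ) / N : ℚ) : ℝ) * J⌋₊ = a := by
      rw [e1, ha2, div_self hJq.ne']
      simp
    rw [e2, e1] at g1
    have : h / 2 * J ≤ h * J := by nlinarith only [g1]
    constructor <;> linarith only [g1, g1.1, g1.2]

/-- **Activity of the blocks** near a place where the activity numbers have the slope `α`, on all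
large sub-events. -/
theorem act_blk {S : PCl 3} {i₀ : Fin 3} {act : ℚ → ℝ}
    (hpos : ∀ (τ : ℝ) (J : ℕ) (F : Fam 3 J) (A : F.Ω → Prop), S.St τ J F A → 0 < Pe F.p A)
    (hA : ActN S i₀ act)
    (hmono : ∀ q q' : ℚ, 0 ≤ q → q ≤ q' → q' ≤ 1 → act q ≤ act q')
    (hlip : ∀ q q' : ℚ, 0 ≤ q → q ≤ q' → q' ≤ 1 → act q' - act q ≤ q' - q)
    {q₀ a₀ α : ℝ} (hs : Slp act q₀ a₀ α) {ε : ℝ} (hε : 0 < ε) {ϖ : ℝ} (hϖ : 0 < ϖ) :
    ∃ δ : ℝ, 0 < δ ∧ ∀ ℓ : ℝ, 0 < ℓ → ℓ ≤ δ → Clp S (fun J F A => ∀ B : F.Ω → Prop, Sub B A →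
      ϖ * Pe F.p A ≤ Pe F.p B → ∀ q X : ℕ, q + X ≤ J → |(q : ℝ) - q₀ * J| ≤ ℓ * J →
      |((q + X : ℕ) : ℝ) - q₀ * J| ≤ ℓ * J →
      |CH (Pool.Agent.H49.Ent.cond F.p B True) (fun ω => F.D (q + X) ω i₀)
        (fun ω => (F.D q ω i₀, Fam.pt F ω)) - α * X * Real.log 2| ≤ ε * ℓ * J) := by
  have hl2 : 0 < Real.log 2 := Real.log_pos (by norm_num)
  have hl2b : Real.log 2 < 0.6931471808 := Real.log_two_lt_d9
  obtain ⟨δ, hδ, hsl⟩ := hs (ε / 2) (by linarith only [hε])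
  refine ⟨δ / 2, by linarith only [hδ], fun ℓ hℓ hℓδ => ?_⟩
  have h1 := (act_int hpos hA hmono hlip (h := ε * ℓ / 8) (by positivity)).ev hϖ
  have hlaw : Clp S (fun _ F A => ∀ B : F.Ω → Prop, Sub B A → ϖ * Pe F.p A ≤ Pe F.p B →
      IsLaw (Pool.Agent.H49.Ent.cond F.p B True)) :=
    Clp.of one_pos 0 fun J _ F A hA B _ hP => isLaw_cond F.isLaw
      (lt_of_lt_of_le (mul_pos hϖ (hpos 1 J F A hA)) hP)
  refine Clp.mono (J₂ := 1) (hlaw.and h1) ?_
  rintro J hJ F A ⟨hl, hg⟩ B hB hP q X hq1 hq2 hq3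
  have hlB := hl B hB hP
  have hJ0 : (0 : ℝ) < J := by exact_mod_cast hJ
  have hJq : (0 : ℚ) < J := by exact_mod_cast hJ
  have g1 := hg B hB hP q (by omega)
  have g2 := hg B hB hP (q + X) hq1
  rw [CHD_block F hlB.nonneg q X i₀]
  have key : ∀ n : ℕ, |(n : ℝ) - q₀ * J| ≤ ℓ * J →
      |(act ((n : ℚ) / J) - a₀ - α * ((n : ℝ) / J - q₀)) * J| ≤ ε / 2 * (ℓ * J) := by
    intro n hn
    have e1 : (((n : ℚ) / J : ℚ) : ℝ) = (n : ℝ) / J := by push_cast; rfl
    have e2 : |(n : ℝ) / J - q₀| ≤ ℓ := by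
      have : (n : ℝ) / J - q₀ = ((n : ℝ) - q₀ * J) / J := by field_simp
      rw [this, abs_div, abs_of_pos hJ0, div_le_iff₀ hJ0]
      exact hn
    have h2 := hsl ((n : ℚ) / J) (by
      rw [e1]
      exact e2.trans_lt (by linarith only [hℓ, hℓδ]))
    rw [e1] at h2
    rw [abs_mul, abs_of_pos hJ0]
    calc _ ≤ ε / 2 * |(n : ℝ) / J - q₀| * J := mul_le_mul_of_nonneg_right h2 hJ0.le
      _ ≤ ε / 2 * ℓ * J := by
          refine mul_le_mul_of_nonneg_right ?_ hJ0.le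
          exact mul_le_mul_of_nonneg_left e2 (by positivity)
      _ = _ := by ring
  have k1 := key q hq2
  have k2 := key (q + X) hq3
  have e1 : (act (((q + X : ℕ) : ℚ) / J) - act ((q : ℚ) / J)) * J - α * X =
      (act (((q + X : ℕ) : ℚ) / J) - a₀ - α * (((q + X : ℕ) : ℝ) / J - q₀)) * J -
        (act ((q : ℚ) / J) - a₀ - α * ((q : ℝ) / J - q₀)) * J := by
    push_cast
    field_simp
    ring
  have h3 : |(act (((q + X : ℕ) : ℚ) / J) - act ((q : ℚ) / J)) * J - α * X| ≤ ε * (ℓ * J) := by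
    rw [e1]
    refine (abs_sub _ _).trans ?_
    linarith only [k1, k2]
  rw [abs_le] at g1 g2 h3 ⊢
  have hℓJ : 0 < ε * (ℓ * J) := by positivity
  constructor
  · nlinarith only [g1, g2, hℓJ, hl2, h3, hl2b, g1.1, g1.2, g2.1, g2.2, h3.1, h3.2]
  · nlinarith only [g1, g2, hℓJ, hl2, h3, hl2b, g1.1, g1.2, g2.1, g2.2, h3.1, h3.2]

end Pool.S6C
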