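import Pool.Agent.H2.UST.Stm
import Pool.Agent.H36.S6.ActE

/-!
# The velocities are active in all contexts (`ACT2Stmt`)
-/

set_option autoImplicit false

namespace Pool.S6C

open Finset Real
open Pool.Agent.H49.Ent Pool.Agent.H32.Dense Pool.STK Pool.KA Pool.KSAT Pool.K2S Pool.PB Pool.KS6

/-- The activity numbers grow at most with slope one. -/
theorem actN_lip {S : PCl 3} {i₀ : Fin 3} {act : ℚ → ℝ} (hS : S.Ne)
    (hpos : ∀ (τ : ℝ) (J : ℕ) (F : Fam 3 J) (A : F.Ω → Prop), S.St τ J F A → 0 < Pe F.p A)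
    (hA : ActN S i₀ act) (q q' : ℚ) (hq0 : 0 ≤ q) (hqq : q ≤ q') (hq' : q' ≤ 1) :
    act q' - act q ≤ q' - q := by
  have hl2 : 0 < Real.log 2 := Real.log_pos (by norm_num)
  have hlaw : Clp S (fun _ F A => IsLaw (Pool.Agent.H49.Ent.cond F.p A True)) :=
    Clp.of one_pos 0 fun J _ F A hA => isLaw_cond F.isLaw (hpos 1 J F A hA)
  have hqr : (q : ℝ) ≤ q' := by exact_mod_cast hqq
  have hq0r : (0 : ℝ) ≤ q := by exact_mod_cast hq0
  have key : act q' * Real.log 2 ≤ (act q + (q' - q)) * Real.log 2 := by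
    refine num_lim hS fun e he => ⟨Real.log 2, ?_⟩
    refine Clp.mono (J₂ := 0) (hlaw.and ((hA q hq0 (hqq.trans hq') (e / 2) (by linarith)).and
      (hA q' (hq0.trans hqq) hq' (e / 2) (by linarith)))) ?_
    rintro J - F A ⟨hl, a1, a2⟩
    have hJ0 : (0 : ℝ) ≤ J := Nat.cast_nonneg J
    obtain ⟨n, hn⟩ := Nat.exists_eq_add_of_le (floor_row hqr J)
    have h5 := CHD_slope F hl ⌊(q : ℝ) * J⌋₊ n i₀
    rw [← hn] at h5
    have f1 : (⌊(q' : ℝ) * J⌋₊ : ℝ) ≤ q' * J := Nat.floor_le (mul_nonneg (hq0r.trans hqr) hJ0)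
    have f2 : (q : ℝ) * J < ⌊(q : ℝ) * J⌋₊ + 1 := Nat.lt_floor_add_one _
    have f3 : (⌊(q' : ℝ) * J⌋₊ : ℝ) = ⌊(q : ℝ) * J⌋₊ + n := by exact_mod_cast hn
    have f4 : (n : ℝ) ≤ (q' - q) * J + 1 := by linarith
    have f5 : (n : ℝ) * Real.log 2 ≤ ((q' - q) * J + 1) * Real.log 2 :=
      mul_le_mul_of_nonneg_right f4 hl2.le
    rw [abs_le] at a1 a2
    nlinarith [a1.2, a2.1]
  have := le_of_mul_le_mul_right key hl2
  linarith

/-- The activity between any two integer levels, given the exact point, for one law. -/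
theorem act_pq {J : ℕ} {F : Fam 3 J} {A : F.Ω → Prop} {i₀ : Fin 3} {act : ℚ → ℝ} {h : ℝ}
    (hl : IsLaw (Pool.Agent.H49.Ent.cond F.p A True))
    (hg : ∀ a : ℕ, a ≤ J →
      |CH (Pool.Agent.H49.Ent.cond F.p A True) (fun ω => F.D a ω i₀) (Fam.pt F) -
        act ((a : ℚ) / J) * Real.log 2 * J| ≤ h * J) {q X : ℕ} (hq : q + X ≤ J) :
    (act (((q + X : ℕ) : ℚ) / J) - act ((q : ℚ) / J)) * Real.log 2 * J - 2 * h * J ≤
      CH (Pool.Agent.H49.Ent.cond F.p A True) (fun ω => F.D (q + X) ω i₀)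
        (fun ω => (F.D q ω i₀, Fam.pt F ω)) := by
  rw [CHD_block F hl.nonneg q X i₀]
  have g1 := hg q (by omega)
  have g2 := hg (q + X) hq
  rw [abs_le] at g1 g2
  nlinarith [g1.2, g2.1]

/-- The digits of the base velocity in a context. -/
theorem dg_md {J : ℕ} (F : Fam 3 J) (σ : Fin 3 → Fin 3) (a s t : F.Ω → ℝ) (c : Fin 3 → ℕ)
    (X : ℕ) (ω : F.Ω) :
    Uni.dg X (fun ω => F.md c (fun ω => tfr σ (a ω) (s ω) (t ω)) ω 0) ω =
      F.D (c 0 + X) ω (σ 0) - 2 ^ X * F.D (c 0) ω (σ 0) := by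
  change ⌊(2 : ℝ) ^ X * Int.fract ((2 : ℝ) ^ c 0 * mco (tfr σ (a ω) (s ω) (t ω)) (F.d ω) 0)⌋ =
    ⌊(2 : ℝ) ^ (c 0 + X) * F.d ω (σ 0)⌋ - 2 ^ X * ⌊(2 : ℝ) ^ c 0 * F.d ω (σ 0)⌋
  rw [Box.mco_tfr0]
  have e1 : (2 : ℝ) ^ X * Int.fract ((2 : ℝ) ^ c 0 * F.d ω (σ 0)) =
      (2 : ℝ) ^ (c 0 + X) * F.d ω (σ 0) -
        ((2 ^ X * ⌊(2 : ℝ) ^ c 0 * F.d ω (σ 0)⌋ : ℤ) : ℝ) := by
    unfold Int.fract
    push_cast
    rw [pow_add]
    ring
  rw [e1, Int.floor_sub_intCast]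

/-- The digits of the base velocity, given a label which is visible. -/
theorem CH_md_ge {J : ℕ} (F : Fam 3 J) {p : F.Ω → ℝ} (hp : IsLaw p) (σ : Fin 3 → Fin 3)
    (a s t : F.Ω → ℝ) (c : Fin 3 → ℕ) (X : ℕ) {T : Type} (b : F.Ω → T) {K : ℝ}
    (hb : CH p b (ptq F (σ 0) (c 0)) ≤ K) :
    CH p (fun ω => F.D (c 0 + X) ω (σ 0)) (fun ω => (F.D (c 0) ω (σ 0), Fam.pt F ω)) - K ≤
      CH p (Uni.dg X (fun ω => F.md c (fun ω => tfr σ (a ω) (s ω) (t ω)) ω 0)) b := by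
  have h0 := hp.nonneg
  have e1 : CH p (fun ω => F.D (c 0 + X) ω (σ 0)) (fun ω => (F.D (c 0) ω (σ 0), Fam.pt F ω)) =
      CH p (fun ω => F.D (c 0 + X) ω (σ 0)) (ptq F (σ 0) (c 0)) := by
    refine CH_congr h0 (fun ω ω' _ _ hh => (Prod.ext_iff.mp hh).1)
      (fun ω ω' _ _ hh => (Prod.ext_iff.mp hh).1) (fun ω ω' _ _ hh => ?_)
      (fun ω ω' _ _ hh => ?_)
    · exact Prod.ext (Prod.ext_iff.mp hh).2 (Prod.ext_iff.mp hh).1
    · exact Prod.ext (Prod.ext_iff.mp hh).2 (Prod.ext_iff.mp hh).1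
  rw [e1]
  have h1 := CH_le_add h0 (fun ω => F.D (c 0 + X) ω (σ 0)) b (ptq F (σ 0) (c 0))
  have h2 : CH p (fun ω => F.D (c 0 + X) ω (σ 0)) (fun ω => (b ω, ptq F (σ 0) (c 0) ω)) ≤
      CH p (Uni.dg X (fun ω => F.md c (fun ω => tfr σ (a ω) (s ω) (t ω)) ω 0))
        (fun ω => (b ω, ptq F (σ 0) (c 0) ω)) := by
    refine CH_mono_left h0 fun ω ω' _ _ hh => ?_
    have g1 : Uni.dg X (fun ω => F.md c (fun ω => tfr σ (a ω) (s ω) (t ω)) ω 0) ω =
        Uni.dg X (fun ω => F.md c (fun ω => tfr σ (a ω) (s ω) (t ω)) ω 0) ω' :=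
      (Prod.ext_iff.mp hh).1
    have g2 : F.D (c 0) ω (σ 0) = F.D (c 0) ω' (σ 0) :=
      (Prod.ext_iff.mp (Prod.ext_iff.mp (Prod.ext_iff.mp hh).2).2).2
    rw [dg_md, dg_md, g2] at g1
    show F.D (c 0 + X) ω (σ 0) = F.D (c 0 + X) ω' (σ 0)
    linarith
  have h3 : CH p (Uni.dg X (fun ω => F.md c (fun ω => tfr σ (a ω) (s ω) (t ω)) ω 0))
        (fun ω => (b ω, ptq F (σ 0) (c 0) ω)) ≤
      CH p (Uni.dg X (fun ω => F.md c (fun ω => tfr σ (a ω) (s ω) (t ω)) ω 0)) b :=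
    CH_mono_cond h0 fun ω ω' _ _ hh => (Prod.ext_iff.mp hh).1
  linarith

end Pool.S6C

namespace Pool.UST

open Finset Real
open Pool.Agent.H49.Ent Pool.Agent.H32.Dense Pool.STK Pool.KA Pool.KSAT Pool.K2S Pool.PB
  Pool.S6U Pool.S6C

/-- **(ACT2)** -/
theorem act2_thm : ACT2Stmt := by
  intro S a₁ R i₀ act hst hA hmono q₁ q₂ ca η hq1 hq12 hq2 hca hη hG B C
  have hl2 : 0 < Real.log 2 := Real.log_pos (by norm_num)
  have hpos : ∀ (τ : ℝ) (J : ℕ) (F : Fam 3 J) (A : F.Ω → Prop), S.St τ J F A → 0 < Pe F.p A :=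
    fun τ J F A hA => lt_of_lt_of_le (Real.exp_pos _) (hst τ J F A hA).2.2.2
  by_cases hS : S.Ne
  swap
  · -- the class is empty
    unfold PCl.Ne at hS
    push Not at hS
    obtain ⟨τ, hτ, J₀, hS⟩ := hS
    exact Clp.of hτ J₀ fun J hJ F A hA => absurd hA (hS J hJ F A)
  have hlip := fun q q' h0 h1 h2 => actN_lip hS hpos hA q q' h0 h1 h2
  have h1 := act_int hpos hA hmono hlip (h := η * Real.log 2 / 8) (by positivity)
  obtain ⟨J₁, hJ₁⟩ := exists_nat_gt ((Real.log 13 + visC (B + 3) (C + 3)) /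
    (η * Real.log 2 / 8))
  have hp8 : 0 < η * Real.log 2 / 8 := by positivity
  have hlaw : Clp S (fun _ F A => 0 < Pe F.p A) :=
    Clp.of one_pos 0 fun J _ F A hA => hpos 1 J F A hA
  refine Clp.mono (J₂ := max J₁ 1) (hlaw.and h1) ?_
  rintro J hJ F A ⟨hPA, hg⟩ σ wl wa wb vp kap Hu HN al nu k b a s t hF hσ w q X' hw1 hw2 hqa hqb
    hR
  have hl := isLaw_cond F.isLaw hPA
  have hJ1 : J₁ ≤ J := (le_max_left _ _).trans hJ
  have hJ2 : 1 ≤ J := (le_max_right _ _).trans hJ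
  have hJ0 : (0 : ℝ) < J := by exact_mod_cast hJ2
  have hJq : (0 : ℚ) < J := by exact_mod_cast hJ2
  have hK : Real.log 13 + visC (B + 3) (C + 3) ≤ η * Real.log 2 / 8 * J := by
    have h2 : (Real.log 13 + visC (B + 3) (C + 3)) / (η * Real.log 2 / 8) < J :=
      hJ₁.trans_le (by exact_mod_cast hJ1)
    rw [div_lt_iff₀ hp8] at h2
    linarith
  -- the levels
  have hvm : vp w ≤ vp wb := hF.mono w wb hw1 hw2 le_rfl
  have r1 : vp wb + q ≤ Hu := by
    have := hR.u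
    rw [add_zero] at this
    exact_mod_cast this
  have r2 : kap + q ≤ HN := by
    have := hR.n
    rw [add_zero] at this
    exact_mod_cast this
  have r3 : wb + vp wb + q ≤ J := by
    have := hR.uJ
    rw [add_zero] at this
    exact_mod_cast this
  have r4 : wb + kap + q ≤ J := by
    have := hR.nJ
    rw [add_zero] at this
    exact_mod_cast this
  have hvok := hF.vok (w := w) (q := q) hw1 hw2 (by omega) (by omega) (by omega) (by omega)
  have hvis := hvok.ctx_vis A (fun _ h => h) hPA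
  have ec : vpr w (w + q) (w + vp w + q) (w + q + kap) = cv (vp w) kap q := by
    funext i
    fin_cases i
    · change w + q - w = q
      omega
    · change w + vp w + q - w = vp w + q
      omega
    · change w + q + kap - w = kap + q
      omega
  have hvis' : CH (Pool.Agent.H49.Ent.cond F.p A True)
      (F.blb w (cv (vp w) kap q) (frm σ (a w) s t)) (ptq F (σ 0) q) ≤
      Real.log 13 + visC (B + 3) (C + 3) := by
    have e2 : F.ctx σ w (w + q) (w + vp w + q) (w + q + kap) (a w) s t =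
        F.blb w (cv (vp w) kap q) (frm σ (a w) s t) := by
      unfold Fam.ctx
      rw [ec]
      rfl
    rw [← e2]
    exact hvis
  have hX : (q : ℝ) + X' ≤ J := by
    have : q₂ * J ≤ 1 * J := mul_le_mul_of_nonneg_right hq2 hJ0.le
    linarith
  have hXn : q + X' ≤ J := by exact_mod_cast hX
  have k1 := act_pq hl hg hXn
  have k2 := CH_md_ge F hl σ (a w) s t (cv (vp w) kap q) X'
    (F.blb w (cv (vp w) kap q) (frm σ (a w) s t)) hvis'
  have e0 : cv (vp w) kap q 0 = q := rfl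
  rw [e0, hσ] at k2
  have k3 := hG ((q : ℚ) / J) (((q + X' : ℕ) : ℚ) / J) (by
      push_cast
      rw [le_div_iff₀ hJ0]
      exact hqa) (by
      refine div_le_div_of_nonneg_right ?_ hJq.le
      push_cast
      linarith [Nat.cast_nonneg (α := ℚ) X']) (by
      push_cast
      rw [div_le_iff₀ hJ0]
      exact hqb)
  have e1 : ((((q + X' : ℕ) : ℚ) / J : ℚ) : ℝ) - (((q : ℚ) / J : ℚ) : ℝ) = X' / J := by
    push_cast
    ring
  rw [e1] at k3
  have hlJ : 0 < Real.log 2 * J := by positivity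
  have k4 := mul_le_mul_of_nonneg_right k3 hlJ.le
  have e3 : (ca * (X' / J) - η / 16) * (Real.log 2 * J) =
      (ca * X' - η / 16 * J) * Real.log 2 := by
    field_simp
  rw [e3] at k4
  have e4 : (act (((q + X' : ℕ) : ℚ) / J) - act ((q : ℚ) / J)) * (Real.log 2 * J) =
      (act (((q + X' : ℕ) : ℚ) / J) - act ((q : ℚ) / J)) * Real.log 2 * J := by ring
  rw [e4] at k4
  have hpj : 0 < η * Real.log 2 * J := by positivity
  have k5 : (ca * X' - η * J) * Real.log 2 ≤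
      CH (Pool.Agent.H49.Ent.cond F.p A True) (fun ω => F.D (q + X') ω i₀)
        (fun ω => (F.D q ω i₀, Fam.pt F ω)) - (Real.log 13 + visC (B + 3) (C + 3)) := by
    nlinarith
  refine k5.trans (k2.trans (le_of_eq ?_))
  rfl

end Pool.UST
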