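import Pool.Agent.H51.S6.Loc
import Pool.Agent.H80.S6C.Rate
import Pool.Agent.H5.K3.Act

/-!
# Activity numbers (`ACTStmt`)

The entropy of `q J` digits of the velocity, given the exact point, has a rate in a subclass
(`ext_ent`). It is monotone with slope at most one. It is at least linear near `0`, because the
families are maximal (`Pool.K3.act_thm`) and the other coordinates of the direction are affine
functions of the coordinate `i₀`.
-/

set_option autoImplicit false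

namespace Pool.S6C

open Finset Real
open Pool.Agent.H49.Ent Pool.Agent.H32.Dense Pool.STK Pool.KA Pool.KSAT Pool.K2S Pool.PB Pool.KS6

theorem cnt_pair_le {Ω β γ : Type} [Fintype Ω] (p : Ω → ℝ) (X : Ω → β) (Y : Ω → γ)
    {A : Ω → Prop} (I : Finset β) (h : ∀ ω, 0 < p ω → A ω → X ω ∈ I) :
    cnt p (fun ω => (X ω, Y ω)) A ≤ I.card * cnt p Y A := by
  classical
  have h1 := cnt_le_card p (fun ω => (X ω, Y ω)) (A := A)
    (I ×ˢ ((univ.filter fun ω => 0 < p ω ∧ A ω).image Y)) (fun ω h0 hA => by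
      rw [mem_product]
      refine ⟨h ω h0 hA, mem_image_of_mem Y ?_⟩
      rw [mem_filter]
      exact ⟨mem_univ ω, h0, hA⟩)
  rw [card_product] at h1
  refine h1.trans (Nat.mul_le_mul_left _ (le_of_eq ?_))
  unfold cnt
  congr

/-- The values of a coordinate of the rounded direction. -/
theorem D_mem {m J : ℕ} (F : Fam m J) {q : ℕ} (hq : q ≤ J) (ω : F.Ω) (i : Fin m) :
    F.D q ω i ∈ Finset.Icc (-(2 : ℤ) ^ J) ((2 : ℤ) ^ J) := by
  rw [Finset.mem_Icc]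
  have hd := abs_le.1 (F.dir ω i)
  have hp : (0 : ℝ) < 2 ^ q := by positivity
  have hpq : (2 : ℝ) ^ q ≤ 2 ^ J := pow_le_pow_right₀ (by norm_num) hq
  change -2 ^ J ≤ ⌊(2 : ℝ) ^ q * F.d ω i⌋ ∧ ⌊(2 : ℝ) ^ q * F.d ω i⌋ ≤ 2 ^ J
  constructor
  · rw [Int.le_floor]
    push_cast
    nlinarith only [hpq, hd, hp, hd.1]
  · have : ((⌊(2 : ℝ) ^ q * F.d ω i⌋ : ℤ) : ℝ) ≤ ((2 ^ J : ℤ) : ℝ) := by
      refine (Int.floor_le _).trans ?_
      push_cast
      nlinarith only [hpq, hd, hp, hd.2]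
    exact_mod_cast this

theorem card_D {J : ℕ} (hJ : 2 ≤ J) :
    ((Finset.Icc (-(2 : ℤ) ^ J) ((2 : ℤ) ^ J)).card : ℝ) ≤ Real.exp (2 * Real.log 2 * J) := by
  rw [Int.card_Icc]
  have e1 : (2 : ℤ) ^ J + 1 - -2 ^ J = ((2 * 2 ^ J + 1 : ℕ) : ℤ) := by
    push_cast
    ring
  rw [e1, Int.toNat_natCast]
  push_cast
  have e2 : Real.exp (2 * Real.log 2 * J) = 2 ^ J * 2 ^ J := by
    have : 2 * Real.log 2 * J = ((J + J : ℕ) : ℝ) * Real.log 2 := by
      push_cast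
      ring
    rw [this, Real.exp_nat_mul, Real.exp_log (by norm_num), pow_add]
  rw [e2]
  have h3 : (4 : ℝ) ≤ 2 ^ J := by
    calc (4 : ℝ) = 2 ^ 2 := by norm_num
      _ ≤ 2 ^ J := pow_le_pow_right₀ (by norm_num) hJ
  nlinarith only [h3]

/-- `q` digits of a coordinate are a function of `q + n` digits. -/
theorem D_div {m J : ℕ} (F : Fam m J) (q n : ℕ) (ω : F.Ω) (i : Fin m) :
    F.D q ω i = F.D (q + n) ω i / (2 ^ n : ℤ) := by
  change ⌊(2 : ℝ) ^ q * F.d ω i⌋ = ⌊(2 : ℝ) ^ (q + n) * F.d ω i⌋ / (2 ^ n : ℤ)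
  have e : (2 : ℝ) ^ q * F.d ω i = (2 : ℝ) ^ (q + n) * F.d ω i / ((2 ^ n : ℕ) : ℝ) := by
    push_cast
    rw [eq_div_iff (by positivity), pow_add]
    ring
  rw [e, Int.floor_div_natCast]
  push_cast
  rfl

theorem CHD_mono {m J : ℕ} (F : Fam m J) {p : F.Ω → ℝ} (hp : ∀ ω, 0 ≤ p ω) {q q' : ℕ}
    (h : q ≤ q') (i : Fin m) :
    CH p (fun ω => F.D q ω i) (Fam.pt F) ≤ CH p (fun ω => F.D q' ω i) (Fam.pt F) := by
  obtain ⟨n, rfl⟩ := Nat.exists_eq_add_of_le h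
  refine CH_mono_left hp fun ω ω' _ _ hh => ?_
  have h1 : F.D (q + n) ω i = F.D (q + n) ω' i := (Prod.ext_iff.mp hh).1
  change F.D q ω i = F.D q ω' i
  rw [D_div F q n, D_div F q n, h1]

theorem CHD_slope {m J : ℕ} (F : Fam m J) {p : F.Ω → ℝ} (hp : IsLaw p) (q n : ℕ) (i : Fin m) :
    CH p (fun ω => F.D (q + n) ω i) (Fam.pt F) ≤
      CH p (fun ω => F.D q ω i) (Fam.pt F) + n * Real.log 2 := by
  have h0 := CH_le_add hp.nonneg (fun ω => F.D (q + n) ω i) (fun ω => F.D q ω i) (Fam.pt F)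
  have h1 := CH_le_card hp.nonneg hp.sum_one (fun ω => F.D (q + n) ω i)
    (fun ω => (F.D q ω i, Fam.pt F ω))
    (fun w => Finset.Ico (w.1 * 2 ^ n) (w.1 * 2 ^ n + 2 ^ n))
    (fun ω _ => by
      rw [Finset.mem_Ico]
      change F.D q ω i * 2 ^ n ≤ F.D (q + n) ω i ∧ F.D (q + n) ω i < F.D q ω i * 2 ^ n + 2 ^ n
      rw [D_div F q n]
      have h2 := Int.mul_ediv_add_emod (F.D (q + n) ω i) (2 ^ n)
      have h3 := Int.emod_nonneg (F.D (q + n) ω i) (b := 2 ^ n) (by positivity)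
      have h4 := Int.emod_lt_of_pos (F.D (q + n) ω i) (b := 2 ^ n) (by positivity)
      have h5 := mul_comm (2 ^ n) (F.D (q + n) ω i / 2 ^ n : ℤ)
      constructor <;> linarith)
  have h2 : ∀ a : ℤ, (Finset.Ico (a * 2 ^ n) (a * 2 ^ n + 2 ^ n)).card = 2 ^ n := by
    intro a
    rw [Int.card_Ico]
    have : a * 2 ^ n + 2 ^ n - a * 2 ^ n = ((2 ^ n : ℕ) : ℤ) := by push_cast; ring
    rw [this, Int.toNat_natCast]
  simp only [h2] at h1
  rw [Ex_const hp.sum_one] at h1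
  push_cast at h1
  rw [Real.log_pow] at h1
  linarith

theorem CHD_zero {m J : ℕ} (F : Fam m J) {p : F.Ω → ℝ} (hp : IsLaw p) (i : Fin m) :
    CH p (fun ω => F.D 0 ω i) (Fam.pt F) ≤ Real.log 3 := by
  have h1 := CH_le_card hp.nonneg hp.sum_one (fun ω => F.D 0 ω i) (Fam.pt F)
    (fun _ => Finset.Icc (-1) 1)
    (fun ω _ => by
      rw [Finset.mem_Icc]
      have hd := abs_le.1 (F.dir ω i)
      change -1 ≤ ⌊(2 : ℝ) ^ 0 * F.d ω i⌋ ∧ ⌊(2 : ℝ) ^ 0 * F.d ω i⌋ ≤ 1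
      rw [pow_zero, one_mul]
      constructor
      · rw [Int.le_floor]
        push_cast
        exact hd.1
      · have : ((⌊F.d ω i⌋ : ℤ) : ℝ) ≤ ((1 : ℤ) : ℝ) := by
          refine (Int.floor_le _).trans ?_
          push_cast
          exact hd.2
        exact_mod_cast this)
  rw [Ex_const hp.sum_one] at h1
  have h2 : ((Finset.Icc (-1 : ℤ) 1).card : ℝ) = 3 := by
    rw [Int.card_Icc]
    have : (1 : ℤ) + 1 - -1 = ((3 : ℕ) : ℤ) := by norm_num
    rw [this, Int.toNat_natCast]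
    norm_num
  rw [h2] at h1
  exact h1

/-- If the fans are straight to precision `h`, then `q ≤ h` digits of all coordinates have
essentially the entropy of `q` digits of the coordinate `i₀`. -/
theorem CHD_vec {J : ℕ} (F : Fam 3 J) {A : F.Ω → Prop}
    (hl : IsLaw (Pool.Agent.H49.Ent.cond F.p A True)) {i₀ : Fin 3} {h : ℕ} (hL : Lb F i₀ h A)
    {q : ℕ} (hq : q ≤ h) :
    CH (Pool.Agent.H49.Ent.cond F.p A True) (F.D q) (Fam.pt F) ≤
      CH (Pool.Agent.H49.Ent.cond F.p A True) (fun ω => F.D q ω i₀) (Fam.pt F) +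
        3 * Real.log 9 := by
  obtain ⟨e, n, hen⟩ := hL
  have h0 := CH_le_add hl.nonneg (F.D q) (fun ω => F.D q ω i₀) (Fam.pt F)
  have h1 := CH_le_vec hl.nonneg hl.sum_one (F.D q) (fun ω => (F.D q ω i₀, Fam.pt F ω))
    (fun _ => 4) (by
      intro ω ω' hω hω' hW k
      have hA : A ω := by
        have := ((cond_pos_iff F.isLaw.nonneg A True ω).1 hω).2
        simpa using this
      have hA' : A ω' := by
        have := ((cond_pos_iff F.isLaw.nonneg A True ω').1 hω').2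
        simpa using this
      obtain ⟨hD, hP⟩ := Prod.ext_iff.mp hW
      have hD' : F.D q ω i₀ = F.D q ω' i₀ := hD
      have hP' : Fam.pt F ω = Fam.pt F ω' := hP
      have hp : (0 : ℝ) < 2 ^ q := by positivity
      -- the coordinate `i₀`
      have c1 : |(2 : ℝ) ^ q * F.d ω i₀ - 2 ^ q * F.d ω' i₀| ≤ 1 := by
        have g1 : ⌊(2 : ℝ) ^ q * F.d ω i₀⌋ = ⌊(2 : ℝ) ^ q * F.d ω' i₀⌋ := hD'
        exact (Int.abs_sub_lt_one_of_floor_eq_floor g1).le
      have l1 := hen.line ω hA k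
      have l2 := hen.line ω' hA' k
      have b1 := hen.bound ω hA k
      rw [← hP'] at l2
      have hr : (2 : ℝ) ^ q * (1 / 2 ^ h) ≤ 1 := by
        rw [mul_one_div, div_le_one (by positivity)]
        exact pow_le_pow_right₀ (by norm_num) hq
      have c2 : |(2 : ℝ) ^ q * F.d ω k - 2 ^ q * F.d ω' k| ≤ 3 := by
        have e1 : (2 : ℝ) ^ q * F.d ω k - 2 ^ q * F.d ω' k =
            2 ^ q * (F.d ω k - e (Fam.pt F ω) k * F.d ω i₀ - n (Fam.pt F ω) k) -
            2 ^ q * (F.d ω' k - e (Fam.pt F ω) k * F.d ω' i₀ - n (Fam.pt F ω) k) +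
            e (Fam.pt F ω) k * (2 ^ q * F.d ω i₀ - 2 ^ q * F.d ω' i₀) := by ring
        have m1 : |(2 : ℝ) ^ q * (F.d ω k - e (Fam.pt F ω) k * F.d ω i₀ -
            n (Fam.pt F ω) k)| ≤ 1 := by
          rw [abs_mul, abs_of_pos hp]
          exact (mul_le_mul_of_nonneg_left l1 hp.le).trans hr
        have m2 : |(2 : ℝ) ^ q * (F.d ω' k - e (Fam.pt F ω) k * F.d ω' i₀ -
            n (Fam.pt F ω) k)| ≤ 1 := by
          rw [abs_mul, abs_of_pos hp]
          exact (mul_le_mul_of_nonneg_left l2 hp.le).trans hr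
        have m3 : |e (Fam.pt F ω) k * (2 ^ q * F.d ω i₀ - 2 ^ q * F.d ω' i₀)| ≤ 1 := by
          rw [abs_mul]
          exact mul_le_one₀ b1 (abs_nonneg _) c1
        rw [e1]
        rw [abs_le] at m1 m2 m3 ⊢
        constructor <;> linarith only [m1, m2, m3, m1.1, m1.2, m2.1, m2.2, m3.1, m3.2]
      change |((⌊(2 : ℝ) ^ q * F.d ω k⌋ - ⌊(2 : ℝ) ^ q * F.d ω' k⌋ : ℤ) : ℝ)| ≤ 4
      push_cast
      have f1 := Int.floor_le ((2 : ℝ) ^ q * F.d ω k)
      have f2 := Int.lt_floor_add_one ((2 : ℝ) ^ q * F.d ω k)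
      have f3 := Int.floor_le ((2 : ℝ) ^ q * F.d ω' k)
      have f4 := Int.lt_floor_add_one ((2 : ℝ) ^ q * F.d ω' k)
      rw [abs_le] at c2 ⊢
      constructor <;> linarith [c2.1, c2.2])
  rw [Ex_const hl.sum_one] at h1
  have h2 : (2 : ℝ) * 4 + 1 = 9 := by norm_num
  rw [h2] at h1
  push_cast at h1
  linarith only [h0, h1]

/-- Comparison of numbers of a class. -/
theorem num_lim {S : PCl 3} (hS : S.Ne) {x y : ℝ}
    (h : ∀ e : ℝ, 0 < e → ∃ C : ℝ, Clp S (fun J _ _ => x * J ≤ y * J + e * J + C)) : x ≤ y := by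
  by_contra hcon
  push Not at hcon
  obtain ⟨e, he⟩ : ∃ e, e = (x - y) / 3 := ⟨_, rfl⟩
  have he0 : 0 < e := by rw [he]; linarith only [hcon]
  obtain ⟨C, hC⟩ := h e he0
  obtain ⟨J₀, hJ₀⟩ := exists_nat_gt (C / e)
  refine clp_false hS hC (J₀ + 1) ?_
  intro J hJ _ _ h1
  have hJr : C / e < J := hJ₀.trans_le (by exact_mod_cast (by omega : J₀ ≤ J))
  rw [div_lt_iff₀ he0] at hJr
  have hJ0 : (0 : ℝ) < J := by exact_mod_cast (by omega : 0 < J)
  have e3 : x = y + 3 * e := by rw [he]; ring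
  rw [e3] at h1
  nlinarith only [h1, hJr, he0, hJ0, mul_pos he0 hJ0]

/-- **(ACT)** -/
theorem act_stmt : ACTStmt := by
  classical
  intro S a R h₁ i₀ c s₂ r D σ hC
  have ha : 1 ≤ a := hC.a1.le
  have ha0 : 0 < a := by linarith only [ha, hC.a1]
  have hl2 : 0 < Real.log 2 := Real.log_pos (by norm_num)
  have hpos : ∀ (τ : ℝ) (J : ℕ) (F : Fam 3 J) (A : F.Ω → Prop), S.St τ J F A → 0 < Pe F.p A :=
    fun τ J F A hA => lt_of_lt_of_le (Real.exp_pos _) (hC.st τ J F A hA).2.2.2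
  obtain ⟨f, hf⟩ := exists_surjective_nat (Option ℚ)
  obtain ⟨Y, hY⟩ : ∃ Y : Option ℚ → ∀ (J : ℕ) (F : Fam 3 J), F.Ω →
      ℤ × ((Fin 3 → ℤ) × (ℕ × F.ζ)),
      Y = fun o (J : ℕ) F ω => Option.elim o ((0 : ℤ), Fam.pt F ω)
        fun q : ℚ => (F.D ⌊min (q : ℝ) 1 * (J : ℝ)⌋₊ ω i₀, Fam.pt F ω) := ⟨_, rfl⟩
  obtain ⟨S', h1, h2, h3⟩ := ext_ent hC.ne hpos (fun _ J F => ℤ × ((Fin 3 → ℤ) × (ℕ × F.ζ)))
    (fun n J F => Y (f n) J F) (fun _ => 12 * Real.log 2 + 3) (by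
      intro n
      refine Clp.of one_pos 2 fun J hJ F A hA => ?_
      have hb := hC.st 1 J F A hA
      have k1 := cnt_pt_le ha hC.R0.le zero_le_one hb
      have hJ1 : (1 : ℝ) ≤ J := by exact_mod_cast (by omega : 1 ≤ J)
      have k2 : Real.exp (2 * Real.log 2 * J) *
          Real.exp (3 * ((J + 2) * Real.log 2) + J * Real.log 2 + 3 * (1 * J)) ≤
          Real.exp ((12 * Real.log 2 + 3) * J) := by
        rw [← Real.exp_add]
        refine Real.exp_le_exp.2 ?_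
        nlinarith only [hl2, hJ1]
      refine le_trans ?_ k2
      have k3 : cnt F.p (Y (f n) J F) A ≤ (Finset.Icc (-(2 : ℤ) ^ J) ((2 : ℤ) ^ J)).card *
          cnt F.p (Fam.pt F) A := by
        rcases hfn : f n with _ | q
        · rw [hY]
          refine cnt_pair_le F.p (fun _ => (0 : ℤ)) (Fam.pt F) _ fun ω _ _ => ?_
          rw [Finset.mem_Icc]
          constructor
          · simp
          · positivity
        · have hfl : ⌊min (q : ℝ) 1 * J⌋₊ ≤ J := by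
            have h5 : ⌊min (q : ℝ) 1 * J⌋₊ ≤ ⌊(1 : ℝ) * J⌋₊ := floor_row (min_le_right _ _) J
            simpa using h5
          rw [hY]
          exact cnt_pair_le F.p (fun ω => F.D ⌊min (q : ℝ) 1 * J⌋₊ ω i₀) (Fam.pt F) _
            fun ω _ _ => D_mem F hfl ω i₀
      have k4 : (cnt F.p (Y (f n) J F) A : ℝ) ≤
          ((Finset.Icc (-(2 : ℤ) ^ J) ((2 : ℤ) ^ J)).card : ℝ) * cnt F.p (Fam.pt F) A := by
        exact_mod_cast k3
      refine k4.trans (mul_le_mul (card_D hJ) k1 (Nat.cast_nonneg _) (Real.exp_pos _).le))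
  have h4 : ∀ o : Option ℚ, ∃ η : ℝ, ∀ h : ℝ, 0 < h → Clp S' (fun J F A =>
      |H (Pool.Agent.H49.Ent.cond F.p A True) (Y o J F) - η * J| ≤ h * J) := by
    intro o
    obtain ⟨n, rfl⟩ := hf o
    exact h3 n
  choose η hη using h4
  have hsub : SubC S' S := ⟨h1, h2⟩
  have hlaw : Clp S' (fun _ F A => IsLaw (Pool.Agent.H49.Ent.cond F.p A True)) :=
    Clp.of one_pos 0 fun J _ F A hA => isLaw_cond F.isLaw (hpos 1 J F A (h2 1 J F A hA))
  -- the numbers
  obtain ⟨g, hg⟩ : ∃ g : ℚ → ℝ, g = fun q => η (some q) - η none := ⟨_, rfl⟩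
  have hgn : ∀ q : ℚ, q ≤ 1 → ∀ h : ℝ, 0 < h → Clp S' (fun J F A =>
      |CH (Pool.Agent.H49.Ent.cond F.p A True) (fun ω => F.D ⌊(q : ℝ) * J⌋₊ ω i₀) (Fam.pt F) -
        g q * J| ≤ h * J) := by
    intro q hq h hh
    refine Clp.mono (J₂ := 0) (hlaw.and ((hη (some q) (h / 2) (by linarith only [hh])).and
      (hη none (h / 2) (by linarith)))) ?_
    rintro J - F A ⟨hl, a1, a2⟩
    have hq1 : (q : ℝ) ≤ 1 := by exact_mod_cast hq
    have e1 : H (Pool.Agent.H49.Ent.cond F.p A True) (Y (some q) J F) =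
        H (Pool.Agent.H49.Ent.cond F.p A True)
          (fun ω => (F.D ⌊(q : ℝ) * J⌋₊ ω i₀, Fam.pt F ω)) := by
      rw [hY]
      simp only [Option.elim, min_eq_left hq1]
    have e2 : H (Pool.Agent.H49.Ent.cond F.p A True) (Y none J F) =
        H (Pool.Agent.H49.Ent.cond F.p A True) (Fam.pt F) := by
      rw [hY]
      refine H_congr hl.nonneg (fun ω ω' _ _ hh => ?_) (fun ω ω' _ _ hh => ?_)
      · exact Prod.ext rfl hh
      · exact (Prod.ext_iff.mp hh).2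
    rw [e1] at a1
    rw [e2] at a2
    rw [hg]
    unfold CH
    rw [abs_le] at a1 a2 ⊢
    constructor <;> nlinarith only [a1, a2, a1.1, a1.2, a2.1, a2.2]
  -- numbers are nonnegative at zero and at most zero
  have hg0 : g 0 = 0 := by
    refine le_antisymm (num_lim h1 fun e he => ⟨Real.log 3, ?_⟩) (num_lim h1 fun e he => ⟨0, ?_⟩)
    · refine Clp.mono (J₂ := 0) (hlaw.and (hgn 0 (by norm_num) e he)) ?_
      rintro J - F A ⟨hl, a1⟩
      have e0 : ⌊((0 : ℚ) : ℝ) * (J : ℝ)⌋₊ = 0 := by simp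
      rw [e0] at a1
      have h5 := CHD_zero F hl i₀
      rw [abs_le] at a1
      linarith only [a1, h5, a1.1]
    · refine Clp.mono (J₂ := 0) (hlaw.and (hgn 0 (by norm_num) e he)) ?_
      rintro J - F A ⟨hl, a1⟩
      have h5 := CH_nonneg hl.nonneg (fun ω => F.D ⌊((0 : ℚ) : ℝ) * J⌋₊ ω i₀) (Fam.pt F)
      rw [abs_le] at a1
      linarith [a1.2]
  have hmono : ∀ q q' : ℚ, q ≤ q' → q' ≤ 1 → g q ≤ g q' := by
    intro q q' hqq hq'
    refine num_lim h1 fun e he => ⟨0, ?_⟩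
    refine Clp.mono (J₂ := 0) (hlaw.and ((hgn q (hqq.trans hq') (e / 2) (by linarith)).and
      (hgn q' hq' (e / 2) (by linarith)))) ?_
    rintro J - F A ⟨hl, a1, a2⟩
    have h5 := CHD_mono F hl.nonneg (floor_row (show (q : ℝ) ≤ q' by exact_mod_cast hqq) J) i₀
    rw [abs_le] at a1 a2
    linarith only [a1, a2, h5, a1.1, a2.2]
  have hslope : ∀ q q' : ℚ, 0 ≤ q → q ≤ q' → q' ≤ 1 → g q' ≤ g q + (q' - q) * Real.log 2 := by
    intro q q' hq0 hqq hq'
    refine num_lim h1 fun e he => ⟨Real.log 2, ?_⟩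
    refine Clp.mono (J₂ := 0) (hlaw.and ((hgn q (hqq.trans hq') (e / 2) (by linarith)).and
      (hgn q' hq' (e / 2) (by linarith)))) ?_
    rintro J - F A ⟨hl, a1, a2⟩
    have hqr : (q : ℝ) ≤ q' := by exact_mod_cast hqq
    have hq0r : (0 : ℝ) ≤ q := by exact_mod_cast hq0
    have hJ0 : (0 : ℝ) ≤ J := Nat.cast_nonneg J
    obtain ⟨n, hn⟩ := Nat.exists_eq_add_of_le (floor_row hqr J)
    have h5 := CHD_slope F hl ⌊(q : ℝ) * J⌋₊ n i₀
    rw [← hn] at h5
    have f1 : (⌊(q' : ℝ) * J⌋₊ : ℝ) ≤ q' * J := Nat.floor_le (mul_nonneg (hq0r.trans hqr) hJ0)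
    have f2 : (q : ℝ) * J < ⌊(q : ℝ) * J⌋₊ + 1 := Nat.lt_floor_add_one _
    have f3 : (⌊(q' : ℝ) * J⌋₊ : ℝ) = ⌊(q : ℝ) * J⌋₊ + n := by exact_mod_cast hn
    have f4 : (n : ℝ) ≤ (q' - q) * J + 1 := by linarith only [f1, f2, f3]
    have f5 : (n : ℝ) * Real.log 2 ≤ ((q' - q) * J + 1) * Real.log 2 :=
      mul_le_mul_of_nonneg_right f4 hl2.le
    rw [abs_le] at a1 a2
    nlinarith only [a1, a2, h5, f5, a1.2, a2.1]
  -- the linear lower bound
  have hκ : ∀ q : ℚ, 0 ≤ q → (q : ℝ) ≤ 1 / 2 → (q : ℝ) ≤ h₁ → R / a * q ≤ g q := by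
    intro q hq0 hqh hq1
    have hq1' : q ≤ 1 := by
      have : (q : ℝ) ≤ 1 := by linarith
      exact_mod_cast this
    have hq0r : (0 : ℝ) ≤ q := by exact_mod_cast hq0
    refine num_lim h1 fun e he => ⟨R / a + 3 * Real.log 9, ?_⟩
    obtain ⟨τa, hτa, Ja, hact⟩ := Pool.K3.act_thm 3 a R ha hC.ub (η := e / 2) (by linarith)
      (x₀ := 1 / 2) (by norm_num)
    obtain ⟨τ, hτ⟩ : ∃ τ, τ = τa / (7 * (1 + a)) := ⟨_, rfl⟩
    have hτ0 : 0 < τ := by
      rw [hτ]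
      positivity
    have hc1 : Clp S' (fun J F A => R / a * (⌊(q : ℝ) * J⌋₊ : ℝ) - e / 2 * J ≤
        CH (Pool.Agent.H49.Ent.cond F.p A True) (F.D ⌊(q : ℝ) * J⌋₊) (Fam.pt F) ∧
        Lb F i₀ ⌊h₁ * J⌋₊ A) := by
      refine Clp.of hτ0 Ja fun J hJ F A hA => ⟨?_, hC.lb τ J F A (h2 τ J F A hA)⟩
      have hst := hC.st τ J F A (h2 τ J F A hA)
      obtain ⟨hlw, -, hMx, -⟩ := hst.res ha hτ0.le
      have hJ0 : (0 : ℝ) ≤ J := Nat.cast_nonneg J
      have e1 : (1 + a) * (6 * τ) ≤ τa := by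
        rw [hτ]
        have : (1 + a) * (6 * (τa / (7 * (1 + a)))) = 6 / 7 * τa := by
          field_simp
        rw [this]
        linarith only [hτa]
      have hMx' : (F.res A True hlw).Mx a R τa := by
        refine ⟨?_, ?_⟩
        · have := hMx.1
          unfold Fam.Tm at this ⊢
          have h3 : (1 + a) * (6 * τ) * J ≤ τa * J := mul_le_mul_of_nonneg_right e1 hJ0
          linarith only [hlw, this, h3]
        · have := hMx.2
          have h3 : (1 + a) * (6 * τ) * J ≤ τa * J := mul_le_mul_of_nonneg_right e1 hJ0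
          nlinarith only [hlw, this, h3]
      have f1 : (⌊(q : ℝ) * J⌋₊ : ℝ) ≤ q * J := Nat.floor_le (mul_nonneg hq0r hJ0)
      have hqx : (⌊(q : ℝ) * J⌋₊ : ℝ) ≤ (1 - 1 / 2) * J := by
        have : (q : ℝ) * J ≤ 1 / 2 * J := mul_le_mul_of_nonneg_right hqh hJ0
        linarith only [f1, this]
      have hqJ : ⌊(q : ℝ) * J⌋₊ ≤ J := by
        have : (⌊(q : ℝ) * J⌋₊ : ℝ) ≤ J := by linarith only [hqx]
        exact_mod_cast this
      exact hact J hJ (F.res A True hlw) hMx' _ hqJ hqx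
    refine Clp.mono (J₂ := 0) (hlaw.and ((hgn q hq1' (e / 2) (by linarith)).and hc1)) ?_
    rintro J - F A ⟨hl, a1, a2, a3⟩
    have h5 := CHD_vec F hl a3 (floor_row hq1 J)
    have f2 : (q : ℝ) * J < ⌊(q : ℝ) * J⌋₊ + 1 := Nat.lt_floor_add_one _
    have hRa : 0 ≤ R / a := (div_pos hC.R0 ha0).le
    have f3 : R / a * (q * J) ≤ R / a * (⌊(q : ℝ) * J⌋₊ + 1) :=
      mul_le_mul_of_nonneg_left f2.le hRa
    rw [abs_le] at a1
    nlinarith only [a1, a2, h5, f3, a1.2]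
  -- conclusion
  obtain ⟨q₀, hq1, hq2⟩ := exists_rat_btwn (show (0 : ℝ) < min (1 / 2) h₁ from
    lt_min (by norm_num) hC.h₁0)
  have hq2a : (q₀ : ℝ) < 1 / 2 := hq2.trans_le (min_le_left _ _)
  have hq2b : (q₀ : ℝ) < h₁ := hq2.trans_le (min_le_right _ _)
  refine ⟨S', fun q => g q / Real.log 2, R / a / Real.log 2, hsub, ?_, ?_, ?_, ?_, ?_, q₀, ?_, ?_,
    ?_⟩
  · intro q h0 hq h hh
    refine Clp.mono (J₂ := 0) (hgn q hq h hh) ?_
    intro J _ F A hA
    have : g q / Real.log 2 * Real.log 2 = g q := by field_simp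
    rw [this]
    exact hA
  · simp only [hg0, zero_div]
  · intro q q' _ hqq hq'
    exact div_le_div_of_nonneg_right (hmono q q' hqq hq') hl2.le
  · intro q q' h0 hqq hq'
    rw [← sub_div, div_le_iff₀ hl2]
    have := hslope q q' h0 hqq hq'
    linarith only [this]
  · exact div_pos (div_pos hC.R0 ha0) hl2
  · exact_mod_cast hq1
  · have : (q₀ : ℝ) ≤ 1 := by linarith only [hq1, hq2a]
    exact_mod_cast this
  · intro q h0 hq
    have hqr : (q : ℝ) ≤ q₀ := by exact_mod_cast hq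
    have := hκ q h0 (by linarith only [hq2a, hqr]) (by linarith)
    have e1 : R / a / Real.log 2 * q = R / a * q / Real.log 2 := by ring
    rw [e1]
    exact div_le_div_of_nonneg_right this hl2.le

end Pool.S6C
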