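import Pool.Agent.H5.S6.Stm
import Pool.Agent.H64.KS6.WfeA
import Pool.Agent.H36.S6.Act

/-!
# The rows of the coordinate of the fans are full given any visible and conserved label

`EPFStmt` of helper5: from the rows of the base position in the contexts of a class (`ws_cls`) and
the activity of the fans near `0` (`Pool.K3.act_thm`).
-/

set_option autoImplicit false

namespace Pool.S6C

open Finset Real
open Pool.Agent.H49.Ent Pool.Agent.H32.Dense Pool.STK Pool.KA Pool.KA.Win Pool.KA.TRC Pool.KSAT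
  Pool.K2S Pool.K2S.Rows Pool.K2S.FF Pool.PB Pool.KS6 Pool.S6K.Wfe

/-- If the velocity is frozen, the digits have bounded entropy given the exact point. -/
theorem frz_CH {J : ℕ} {F : Fam 3 J} {A : F.Ω → Prop} {i₀ : Fin 3} {x : ℕ}
    (hl : IsLaw (Pool.Agent.H49.Ent.cond F.p A True)) (h : FrzG F i₀ 0 (0 + x) A) :
    CH (Pool.Agent.H49.Ent.cond F.p A True) (fun ω => F.D x ω i₀) (Fam.pt F) ≤
      Real.log 3 + Real.log 7 := by
  obtain ⟨ζ, hζ⟩ := h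
  have h0 := CH_le_add hl.nonneg (fun ω => F.D x ω i₀) (fun ω => F.D 0 ω i₀) (Fam.pt F)
  have h1 := CHD_zero F hl i₀
  have h2 := CH_le_vec (d := 1) hl.nonneg hl.sum_one (fun ω _ => F.D x ω i₀)
    (fun ω => (F.D 0 ω i₀, Fam.pt F ω)) (fun _ => 3) (by
      intro ω ω' hω hω' hW _
      have hA : A ω := by
        have := ((cond_pos_iff F.isLaw.nonneg A True ω).1 hω).2
        simpa using this
      have hA' : A ω' := by
        have := ((cond_pos_iff F.isLaw.nonneg A True ω').1 hω').2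
        simpa using this
      obtain ⟨hD, hP⟩ := Prod.ext_iff.mp hW
      have hpq : ptq F i₀ 0 ω = ptq F i₀ 0 ω' := Prod.ext hP hD
      have a1 := hζ ω hA
      have a2 := hζ ω' hA'
      rw [← hpq] at a2
      rw [zero_add] at a1 a2
      have hp : (0 : ℝ) < 2 ^ x := by positivity
      have c1 : |(2 : ℝ) ^ x * F.d ω i₀ - 2 ^ x * F.d ω' i₀| ≤ 2 := by
        have e1 : (2 : ℝ) ^ x * F.d ω i₀ - 2 ^ x * F.d ω' i₀ =
            2 ^ x * (F.d ω i₀ - ζ (ptq F i₀ 0 ω)) - 2 ^ x * (F.d ω' i₀ - ζ (ptq F i₀ 0 ω)) := by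
          ring
        have e2 : (2 : ℝ) ^ x * (1 / 2 ^ x) = 1 := by field_simp
        have b1 : |(2 : ℝ) ^ x * (F.d ω i₀ - ζ (ptq F i₀ 0 ω))| ≤ 1 := by
          rw [abs_mul, abs_of_pos hp, ← e2]
          exact mul_le_mul_of_nonneg_left a1 hp.le
        have b2 : |(2 : ℝ) ^ x * (F.d ω' i₀ - ζ (ptq F i₀ 0 ω))| ≤ 1 := by
          rw [abs_mul, abs_of_pos hp, ← e2]
          exact mul_le_mul_of_nonneg_left a2 hp.le
        rw [e1]
        refine (abs_sub _ _).trans ?_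
        linarith
      change |((⌊(2 : ℝ) ^ x * F.d ω i₀⌋ - ⌊(2 : ℝ) ^ x * F.d ω' i₀⌋ : ℤ) : ℝ)| ≤ 3
      push_cast
      have f1 := Int.floor_le ((2 : ℝ) ^ x * F.d ω i₀)
      have f2 := Int.lt_floor_add_one ((2 : ℝ) ^ x * F.d ω i₀)
      have f3 := Int.floor_le ((2 : ℝ) ^ x * F.d ω' i₀)
      have f4 := Int.lt_floor_add_one ((2 : ℝ) ^ x * F.d ω' i₀)
      rw [abs_le] at c1 ⊢
      constructor <;> linarith [c1.1, c1.2])
  have h3 : CH (Pool.Agent.H49.Ent.cond F.p A True) (fun ω => F.D x ω i₀)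
      (fun ω => (F.D 0 ω i₀, Fam.pt F ω)) ≤
      CH (Pool.Agent.H49.Ent.cond F.p A True) (fun ω (_ : Fin 1) => F.D x ω i₀)
        (fun ω => (F.D 0 ω i₀, Fam.pt F ω)) :=
    CH_mono_left hl.nonneg fun ω ω' _ _ hh => congrFun (Prod.ext_iff.mp hh).1 0
  rw [Ex_const hl.sum_one] at h2
  have e3 : (2 : ℝ) * 3 + 1 = 7 := by norm_num
  rw [e3] at h2
  push_cast at h2
  linarith

/-- **The fans are not frozen.** -/
theorem not_frz {S : PCl 3} {a R h₁ : ℝ} {i₀ : Fin 3} {c s₂ : ℝ} {r : ℝ → ℝ} {D : Set ℝ}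
    {σ : ℝ → Row} (hC : Cs S a R h₁ i₀ c s₂ r D σ) {x : ℝ} (hx : 0 < x) (hx1 : x ≤ 1 / 2)
    (hxh : x ≤ h₁) : ∃ τ > 0, ∃ J₁ : ℕ, ∀ J ≥ J₁, ∀ (F : Fam 3 J) (A : F.Ω → Prop),
      S.St τ J F A → ¬ FrzG F i₀ 0 (0 + ⌊x * J⌋₊) A := by
  have ha : 1 ≤ a := hC.a1.le
  have ha0 : 0 < a := by linarith
  have hRa : 0 < R / a := div_pos hC.R0 ha0
  obtain ⟨τa, hτa, Ja, hact⟩ := Pool.K3.act_thm 3 a R ha hC.ub (η := R / a * x / 4)
    (by positivity) (x₀ := 1 / 2) (by norm_num)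
  obtain ⟨τ, hτ⟩ : ∃ τ, τ = τa / (7 * (1 + a)) := ⟨_, rfl⟩
  have hτ0 : 0 < τ := by
    rw [hτ]
    positivity
  obtain ⟨J₂, hJ₂⟩ := exists_nat_gt ((R / a + Real.log 3 + Real.log 7 + 3 * Real.log 9) /
    (R / a * x / 4))
  refine ⟨τ, hτ0, max Ja J₂, fun J hJ F A hA hfz => ?_⟩
  have hst := hC.st τ J F A hA
  obtain ⟨hl, -, hMx, -⟩ := hst.res ha hτ0.le
  have hJ0 : (0 : ℝ) ≤ J := Nat.cast_nonneg J
  have hJr : (R / a + Real.log 3 + Real.log 7 + 3 * Real.log 9) / (R / a * x / 4) < J :=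
    hJ₂.trans_le (by exact_mod_cast (le_max_right _ _).trans hJ)
  rw [div_lt_iff₀ (by positivity)] at hJr
  have e1 : (1 + a) * (6 * τ) ≤ τa := by
    rw [hτ]
    have : (1 + a) * (6 * (τa / (7 * (1 + a)))) = 6 / 7 * τa := by
      field_simp
    rw [this]
    linarith
  have hMx' : (F.res A True hl).Mx a R τa := by
    refine ⟨?_, ?_⟩
    · have := hMx.1
      unfold Fam.Tm at this ⊢
      have h3 : (1 + a) * (6 * τ) * J ≤ τa * J := mul_le_mul_of_nonneg_right e1 hJ0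
      linarith
    · have := hMx.2
      have h3 : (1 + a) * (6 * τ) * J ≤ τa * J := mul_le_mul_of_nonneg_right e1 hJ0
      nlinarith
  have f1 : (⌊x * (J : ℝ)⌋₊ : ℝ) ≤ x * J := Nat.floor_le (mul_nonneg hx.le hJ0)
  have f2 : x * (J : ℝ) < ⌊x * (J : ℝ)⌋₊ + 1 := Nat.lt_floor_add_one _
  have hqx : (⌊x * (J : ℝ)⌋₊ : ℝ) ≤ (1 - 1 / 2) * J := by
    have : x * (J : ℝ) ≤ 1 / 2 * J := mul_le_mul_of_nonneg_right hx1 hJ0
    linarith
  have hqJ : ⌊x * (J : ℝ)⌋₊ ≤ J := by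
    have : (⌊x * (J : ℝ)⌋₊ : ℝ) ≤ J := by linarith
    exact_mod_cast this
  have k1 : R / a * (⌊x * (J : ℝ)⌋₊ : ℝ) - R / a * x / 4 * J ≤
      CH (Pool.Agent.H49.Ent.cond F.p A True) (F.D ⌊x * (J : ℝ)⌋₊) (Fam.pt F) :=
    hact J ((le_max_left _ _).trans hJ) (F.res A True hl) hMx' _ hqJ hqx
  have k2 := CHD_vec F hl (hC.lb τ J F A hA) (floor_row hxh J)
  have k3 := frz_CH hl hfz
  have f3 : R / a * (x * J) ≤ R / a * (⌊x * (J : ℝ)⌋₊ + 1) :=
    mul_le_mul_of_nonneg_left f2.le hRa.le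
  nlinarith [mul_nonneg (mul_nonneg hRa.le hx.le) hJ0]

/-- **(EPF)** -/
theorem epf_thm : EPFStmt := by
  intro S a R h₁ i₀ c s₂ r D σ hC p hp0 hp1 v hv0 hvp h hh
  have hl2 : 0 < Real.log 2 := Real.log_pos (by norm_num)
  obtain ⟨γ, hγ, hws⟩ := ws_cls (m := 3) (η := h * Real.log 2 / 2) (by positivity)
  obtain ⟨x, hx⟩ : ∃ x, x = min γ (min (1 / 2) h₁) := ⟨_, rfl⟩
  have hx0 : 0 < x := by rw [hx]; exact lt_min hγ (lt_min (by norm_num) hC.h₁0)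
  have hxγ : x ≤ γ := by rw [hx]; exact min_le_left _ _
  have hx1 : x ≤ 1 / 2 := by rw [hx]; exact (min_le_right _ _).trans (min_le_left _ _)
  have hxh : x ≤ h₁ := by rw [hx]; exact (min_le_right _ _).trans (min_le_right _ _)
  obtain ⟨τ₀, hτ₀, J₀, hnf⟩ := not_frz hC hx0 hx1 hxh
  refine Clp.one ⟨1, fun J F _ => FrzG F i₀ 0 (0 + ⌊x * J⌋₊),
    fun J F _ => FrzG.hered F i₀ _ _⟩ fun κ hκ => ?_
  obtain ⟨τ₁, hτ₁, J₁, k1⟩ := hws 0 κ hκ
  obtain ⟨J₂, hJ₂⟩ := exists_nat_gt (2 / h)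
  refine ⟨min τ₀ τ₁, lt_min hτ₀ hτ₁, max J₀ (max J₁ J₂), fun J hJ F A hS hSb Y z hz1 hz2 => ?_⟩
  obtain ⟨φ, hφ⟩ := hz1
  obtain ⟨ψ, hψ⟩ := hz2
  have j0 : J ≥ J₀ := (le_max_left _ _).trans hJ
  have j1 : J ≥ J₁ := (le_max_left _ _).trans ((le_max_right _ _).trans hJ)
  have j2 : J ≥ J₂ := (le_max_right _ _).trans ((le_max_right _ _).trans hJ)
  have hJr : 2 / h < J := hJ₂.trans_le (by exact_mod_cast j2)
  rw [div_lt_iff₀ hh] at hJr
  have hJ0 : (0 : ℝ) ≤ J := Nat.cast_nonneg J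
  have hst := hC.st τ₁ J F A (S.mono (min_le_right _ _) hS)
  have hPA : 0 < Pe F.p A := lt_of_lt_of_le (Real.exp_pos _) hst.2.2.2
  have hl := isLaw_cond F.isLaw hPA
  have hfz := hnf J j0 F A (S.mono (min_le_left _ _) hS)
  obtain ⟨w, hw⟩ : ∃ w, w = ⌊(v : ℝ) * J⌋₊ := ⟨_, rfl⟩
  obtain ⟨P, hP⟩ : ∃ P, P = ⌊p * (J : ℝ)⌋₊ := ⟨_, rfl⟩
  have hv0r : (0 : ℝ) ≤ v := by exact_mod_cast hv0
  have hwP : w ≤ P := by rw [hw, hP]; exact floor_row hvp J
  have hPJ : P ≤ J := by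
    rw [hP]
    refine Nat.floor_le_of_le ?_
    nlinarith
  obtain ⟨s, hs⟩ := Nat.exists_eq_add_of_le hwP
  rw [← hw] at hψ
  have key := k1 J j1 F A hst.1 hst.2.1.1 hst.2.2.1 hst.2.2.2 i₀ w 0 s ⌊x * (J : ℝ)⌋₊ Y
    (fun ω => ψ (slam F w ω)) (by omega)
    ((Nat.floor_le (by positivity)).trans (mul_le_mul_of_nonneg_right hxγ hJ0)) (hSb 0) hfz
    (by
      intro ω ω' _ _ hh
      have b1 := Prod.ext_iff.mp hh
      have b2 := Prod.ext_iff.mp b1.2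
      have b3 : slam F w ω = slam F w ω' := Prod.ext b1.1 (Prod.ext b2.2 b2.1)
      show ψ (slam F w ω) = ψ (slam F w ω')
      rw [b3])
    (by
      intro B hB hB0
      have hlB := isLaw_cond F.isLaw hB0
      refine le_of_eq (CH_eq_zero hlB.nonneg ?_)
      intro ω ω' hω hω' hh
      have hA : A ω := by
        have := ((cond_pos_iff F.isLaw.nonneg B True ω).1 hω).2
        exact hB ω (by simpa using this)
      have hA' : A ω' := by
        have := ((cond_pos_iff F.isLaw.nonneg B True ω').1 hω').2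
        exact hB ω' (by simpa using this)
      have hpt : Fam.pt F ω = Fam.pt F ω' := (Prod.ext_iff.mp hh).1
      show ψ (slam F w ω) = ψ (slam F w ω')
      rw [← hψ ω hA, ← hψ ω' hA', hφ ω hA, hφ ω' hA', hpt])
  have e0 : 0 + w + s = P := by omega
  rw [e0] at key
  have m1 : CH (Pool.Agent.H49.Ent.cond F.p A True) (fun ω => ⌊(2 : ℝ) ^ P * F.x ω i₀⌋)
        (fun ω => (F.T ω, ((⌊(2 : ℝ) ^ (0 + w) * F.x1 w ω i₀⌋, ⌊(2 : ℝ) ^ 0 * F.d ω i₀⌋),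
          (ψ (slam F w ω), F.Z ω)))) ≤
      CH (Pool.Agent.H49.Ent.cond F.p A True) (fun ω => ⌊(2 : ℝ) ^ P * F.x ω i₀⌋)
        (fun ω => (z ω, F.W ω)) := by
    refine CH_mono_cond hl.nonneg fun ω ω' hω hω' hh => ?_
    have hA : A ω := by
      have := ((cond_pos_iff F.isLaw.nonneg A True ω).1 hω).2
      simpa using this
    have hA' : A ω' := by
      have := ((cond_pos_iff F.isLaw.nonneg A True ω').1 hω').2
      simpa using this
    have b1 := Prod.ext_iff.mp hh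
    have b2 := Prod.ext_iff.mp b1.2
    have b3 := Prod.ext_iff.mp b2.2
    have b4 : ψ (slam F w ω) = ψ (slam F w ω') := b3.1
    refine Prod.ext ?_ (Prod.ext b1.1 b3.2)
    show z ω = z ω'
    rw [hψ ω hA, hψ ω' hA', b4]
  have m2 : CH (Pool.Agent.H49.Ent.cond F.p A True) (fun ω => ⌊(2 : ℝ) ^ P * F.x ω i₀⌋)
        (fun ω => (z ω, F.W ω)) ≤
      CH (Pool.Agent.H49.Ent.cond F.p A True) (F.X P) (fun ω => (z ω, F.W ω)) := by
    refine CH_mono_left hl.nonneg fun ω ω' _ _ hh => ?_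
    have b1 : F.X P ω = F.X P ω' := (Prod.ext_iff.mp hh).1
    exact congrFun b1 i₀
  rw [← hP]
  refine le_trans ?_ (key.trans (m1.trans m2))
  have f1 : p * (J : ℝ) < P + 1 := by rw [hP]; exact Nat.lt_floor_add_one _
  have f2 : (w : ℝ) ≤ v * J := by rw [hw]; exact Nat.floor_le (mul_nonneg hv0r hJ0)
  have f3 : (P : ℝ) = w + s := by rw [hs]; push_cast; ring
  have f4 : (p - v) * J - 1 ≤ s := by linarith
  have f5 := mul_le_mul_of_nonneg_right f4 hl2.le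
  nlinarith

end Pool.S6C
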