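import Pool.Agent.H36.S6.FrP
import Pool.Agent.H36.S6.Act2
import Pool.Agent.H2.UST.Ev

/-!
# Activity in contexts whose normal frame is not visible

`ACTPStmt` is `ACT2Stmt` for the frames `UFrP`; the information of the normal frame on the digits
of the base velocity, given the exact point, is a hypothesis. `mi_pig`: it is small for one of many
consecutive ranges of digits.
-/

set_option autoImplicit false

namespace Pool.UST

open Finset Real
open Pool.Agent.H49.Ent Pool.Agent.H32.Dense Pool.STK Pool.KA Pool.KSAT Pool.K2S Pool.PB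
  Pool.S6U Pool.S6C

section mi

variable {J : ℕ} {F : Fam 3 J} {p : F.Ω → ℝ} {T : Type}

/-- Coarser digits. -/
theorem D_coarse (i : Fin 3) {q q' : ℕ} (h : q ≤ q') {ω ω' : F.Ω}
    (e : F.D q' ω i = F.D q' ω' i) : F.D q ω i = F.D q ω' i := by
  have h1 : ⌊(2 : ℝ) ^ q' * F.d ω i⌋ = ⌊(2 : ℝ) ^ q' * F.d ω' i⌋ := e
  show ⌊(2 : ℝ) ^ q * F.d ω i⌋ = ⌊(2 : ℝ) ^ q * F.d ω' i⌋
  obtain ⟨n, rfl⟩ := Nat.exists_eq_add_of_le h
  have key : ∀ z : ℝ, ⌊(2 : ℝ) ^ q * z⌋ = ⌊(2 : ℝ) ^ (q + n) * z⌋ / (2 : ℤ) ^ n := by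
    intro z
    have h2 : (2 : ℝ) ^ q * z = (2 : ℝ) ^ (q + n) * z / ((2 ^ n : ℕ) : ℝ) := by
      push_cast
      rw [pow_add]
      field_simp
    rw [h2, Int.floor_div_natCast]
    push_cast
    rfl
  rw [key, key, h1]

/-- The information of a label on the digits of the velocity from `q` to `q'`. -/
theorem mi_D (hp : ∀ ω, 0 ≤ p ω) (i : Fin 3) (Y : F.Ω → T) {q q' : ℕ} (h : q ≤ q') :
    Pool.KVA.MI p (fun ω => F.D q' ω i) Y (Pool.K2S.ptq F i q) =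
      CH p Y (Pool.K2S.ptq F i q) - CH p Y (Pool.K2S.ptq F i q') := by
  rw [MI_eq_dl hp, dl_symm hp]
  unfold dl
  have e : CH p Y (fun ω => (F.D q' ω i, Pool.K2S.ptq F i q ω)) =
      CH p Y (Pool.K2S.ptq F i q') := by
    refine CH_congr hp (fun ω ω' _ _ hh => (Prod.ext_iff.mp hh).1)
      (fun ω ω' _ _ hh => (Prod.ext_iff.mp hh).1) (fun ω ω' _ _ hh => ?_)
      (fun ω ω' _ _ hh => ?_)
    · have h1 := Prod.ext_iff.mp hh
      have h2 : Fam.pt F ω = Fam.pt F ω' := (Prod.ext_iff.mp h1.2).1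
      have h3 : F.D q' ω i = F.D q' ω' i := h1.1
      exact Prod.ext h2 h3
    · have h1 := Prod.ext_iff.mp hh
      have h2 : Fam.pt F ω = Fam.pt F ω' := h1.1
      have h3 : F.D q' ω i = F.D q' ω' i := h1.2
      exact Prod.ext h3 (Prod.ext h2 (D_coarse i h h3))
  rw [e]

/-- The entropy of a label given the exact point and digits of the velocity decreases. -/
theorem mi_anti (hp : ∀ ω, 0 ≤ p ω) (i : Fin 3) (Y : F.Ω → T) {q q' : ℕ} (h : q ≤ q') :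
    CH p Y (Pool.K2S.ptq F i q') ≤ CH p Y (Pool.K2S.ptq F i q) := by
  refine CH_mono_cond hp fun ω ω' _ _ hh => ?_
  have h1 := Prod.ext_iff.mp hh
  have h2 : Fam.pt F ω = Fam.pt F ω' := h1.1
  have h3 : F.D q' ω i = F.D q' ω' i := h1.2
  exact Prod.ext h2 (D_coarse i h h3)

/-- Shorter ranges. -/
theorem mi_sub (hp : ∀ ω, 0 ≤ p ω) (i : Fin 3) (Y : F.Ω → T) {qa q q' qc : ℕ} (h1 : qa ≤ q)
    (h2 : q ≤ q') (h3 : q' ≤ qc) :
    Pool.KVA.MI p (fun ω => F.D q' ω i) Y (Pool.K2S.ptq F i q) ≤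
      Pool.KVA.MI p (fun ω => F.D qc ω i) Y (Pool.K2S.ptq F i qa) := by
  rw [mi_D hp i Y h2, mi_D hp i Y (h1.trans (h2.trans h3))]
  have a1 := mi_anti hp i Y h1
  have a2 := mi_anti hp i Y h3
  linarith

/-- The sum over consecutive ranges. -/
theorem mi_sum (hp : ∀ ω, 0 ≤ p ω) (i : Fin 3) (Y : F.Ω → T) (u : ℕ → ℕ) (hu : Monotone u)
    (M : ℕ) : ∑ j ∈ range M, Pool.KVA.MI p (fun ω => F.D (u (j + 1)) ω i) Y
      (Pool.K2S.ptq F i (u j)) ≤ CH p Y (Pool.K2S.ptq F i (u 0)) := by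
  have h1 : ∑ j ∈ range M, Pool.KVA.MI p (fun ω => F.D (u (j + 1)) ω i) Y
      (Pool.K2S.ptq F i (u j)) =
      CH p Y (Pool.K2S.ptq F i (u 0)) - CH p Y (Pool.K2S.ptq F i (u M)) := by
    induction M with
    | zero => simp
    | succ M ih =>
      rw [Finset.sum_range_succ, ih, mi_D hp i Y (hu (Nat.le_succ M))]
      ring
  rw [h1]
  have h2 := CH_nonneg hp Y (Pool.K2S.ptq F i (u M))
  linarith

/-- **Pigeonhole**: on one of `M` consecutive ranges of digits the information is small. -/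
theorem mi_pig (hp : ∀ ω, 0 ≤ p ω) (i : Fin 3) (Y : F.Ω → T) (u : ℕ → ℕ) (hu : Monotone u)
    {M : ℕ} (hM : 0 < M) : ∃ j < M, M * Pool.KVA.MI p (fun ω => F.D (u (j + 1)) ω i) Y
      (Pool.K2S.ptq F i (u j)) ≤ CH p Y (Fam.pt F) := by
  have h1 := mi_sum hp i Y u hu M
  have h2 : CH p Y (Pool.K2S.ptq F i (u 0)) ≤ CH p Y (Fam.pt F) :=
    CH_mono_cond hp fun ω ω' _ _ hh => (Prod.ext_iff.mp hh).1
  by_contra hcon
  push Not at hcon
  have hM' : (0 : ℝ) < M := by exact_mod_cast hM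
  have h3 : ∑ _j ∈ range M, CH p Y (Fam.pt F) / M < ∑ j ∈ range M,
      Pool.KVA.MI p (fun ω => F.D (u (j + 1)) ω i) Y (Pool.K2S.ptq F i (u j)) := by
    refine Finset.sum_lt_sum_of_nonempty ⟨0, Finset.mem_range.2 hM⟩ fun j hj => ?_
    rw [div_lt_iff₀ hM']
    have := hcon j (Finset.mem_range.1 hj)
    linarith
  rw [Finset.sum_const, Finset.card_range, nsmul_eq_mul, mul_div_cancel₀ _ hM'.ne'] at h3
  linarith

/-- The information on an event. -/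
theorem mi_ev (hp : IsLaw p) (i : Fin 3) (Y : F.Ω → T) (E : F.Ω → Prop) (q q' : ℕ) :
    Pe p E * Pool.KVA.MI (Pool.Agent.H49.Ent.cond p E True) (fun ω => F.D q' ω i) Y
      (Pool.K2S.ptq F i q) ≤
      Pool.KVA.MI p (fun ω => F.D q' ω i) Y (Pool.K2S.ptq F i q) + Real.log 2 := by
  rw [MI_eq_dl hp.nonneg, MI_eq_dl (cond_nonneg hp.nonneg E True)]
  exact dl_event hp E _ _ _

/-- The digits of the base velocity in a context `b`, if `b` is visible given a label `Y`. -/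
theorem CH_md_geP (hp : IsLaw p) (σ : Fin 3 → Fin 3) (a s t : F.Ω → ℝ) (c : Fin 3 → ℕ) (X : ℕ)
    {T' : Type} (b : F.Ω → T') (Y : F.Ω → T) {K : ℝ}
    (hb : CH p b (fun ω => (Y ω, Pool.K2S.ptq F (σ 0) (c 0) ω)) ≤ K) :
    CH p (fun ω => F.D (c 0 + X) ω (σ 0)) (fun ω => (F.D (c 0) ω (σ 0), Fam.pt F ω)) -
      Pool.KVA.MI p (fun ω => F.D (c 0 + X) ω (σ 0)) Y (Pool.K2S.ptq F (σ 0) (c 0)) - K ≤
      CH p (Uni.dg X (fun ω => F.md c (fun ω => tfr σ (a ω) (s ω) (t ω)) ω 0)) b := by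
  have h0 := hp.nonneg
  have e1 : CH p (fun ω => F.D (c 0 + X) ω (σ 0)) (fun ω => (F.D (c 0) ω (σ 0), Fam.pt F ω)) =
      CH p (fun ω => F.D (c 0 + X) ω (σ 0)) (Pool.K2S.ptq F (σ 0) (c 0)) := by
    refine CH_congr h0 (fun ω ω' _ _ hh => (Prod.ext_iff.mp hh).1)
      (fun ω ω' _ _ hh => (Prod.ext_iff.mp hh).1) (fun ω ω' _ _ hh => ?_)
      (fun ω ω' _ _ hh => ?_)
    · exact Prod.ext (Prod.ext_iff.mp hh).2 (Prod.ext_iff.mp hh).1
    · exact Prod.ext (Prod.ext_iff.mp hh).2 (Prod.ext_iff.mp hh).1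
  rw [e1, MI_eq_dl h0]
  unfold dl
  obtain ⟨W, hW⟩ : ∃ W, W = fun ω => (Y ω, Pool.K2S.ptq F (σ 0) (c 0) ω) := ⟨_, rfl⟩
  rw [← hW] at hb ⊢
  have h1 := CH_le_add h0 (fun ω => F.D (c 0 + X) ω (σ 0)) b W
  have h2 : CH p (fun ω => F.D (c 0 + X) ω (σ 0)) (fun ω => (b ω, W ω)) ≤
      CH p (Uni.dg X (fun ω => F.md c (fun ω => tfr σ (a ω) (s ω) (t ω)) ω 0))
        (fun ω => (b ω, W ω)) := by
    refine CH_mono_left h0 fun ω ω' _ _ hh => ?_
    have g1 : Uni.dg X (fun ω => F.md c (fun ω => tfr σ (a ω) (s ω) (t ω)) ω 0) ω =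
        Uni.dg X (fun ω => F.md c (fun ω => tfr σ (a ω) (s ω) (t ω)) ω 0) ω' :=
      (Prod.ext_iff.mp hh).1
    have g0 : W ω = W ω' := (Prod.ext_iff.mp (Prod.ext_iff.mp hh).2).2
    rw [hW] at g0
    have g2 : F.D (c 0) ω (σ 0) = F.D (c 0) ω' (σ 0) :=
      (Prod.ext_iff.mp (Prod.ext_iff.mp g0).2).2
    rw [dg_md, dg_md, g2] at g1
    show F.D (c 0 + X) ω (σ 0) = F.D (c 0 + X) ω' (σ 0)
    linarith
  have h3 : CH p (Uni.dg X (fun ω => F.md c (fun ω => tfr σ (a ω) (s ω) (t ω)) ω 0))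
        (fun ω => (b ω, W ω)) ≤
      CH p (Uni.dg X (fun ω => F.md c (fun ω => tfr σ (a ω) (s ω) (t ω)) ω 0)) b :=
    CH_mono_cond h0 fun ω ω' _ _ hh => (Prod.ext_iff.mp hh).1
  linarith

end mi

/-- **(ACT+)** The velocities are active in the contexts of the frames `UFrP`. -/
def ACTPStmt : Prop :=
  ∀ (S : PCl 3) (a₁ R : ℝ) (i₀ : Fin 3) (act : ℚ → ℝ),
    (∀ (τ : ℝ) (J : ℕ) (F : Fam 3 J) (A : F.Ω → Prop), S.St τ J F A → Fam.Stt F a₁ R τ A) →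
    ActN S i₀ act → (∀ q q' : ℚ, 0 ≤ q → q ≤ q' → q' ≤ 1 → act q ≤ act q') →
    ∀ (q₁ q₂ ca η : ℝ), 0 ≤ q₁ → q₁ < q₂ → q₂ ≤ 1 → 0 < ca → 0 < η →
    ActG act q₁ q₂ ca (η / 16) → ∀ B C : ℝ,
    Clp S (fun J F A => ∀ (σ : Fin 3 → Fin 3) (wl wa wb : ℕ) (vp : ℕ → ℕ) (kap Hu HN : ℕ)
      (al nu : (Fin 3 → ℤ) × (ℕ × F.ζ) → ℝ) (k b : F.Ω → ℝ) (a : ℕ → F.Ω → ℝ) (s t : F.Ω → ℝ),
      UFrP F A σ wl wa wb vp kap Hu HN al nu k b a s t B C → σ 0 = i₀ →
      ∀ w q X' : ℕ, wa ≤ w → w ≤ wb → q₁ * J ≤ q → (q : ℝ) + X' ≤ q₂ * J →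
      Room (J := J) wb vp kap Hu HN q 0 → ∀ (qa qc : ℕ) (m : ℝ), qa ≤ q → q + X' ≤ qc →
      Pool.KVA.MI (Pool.Agent.H49.Ent.cond F.p A True) (fun ω => F.D qc ω (σ 0))
        (fun ω => (s ω, t ω)) (Pool.K2S.ptq F (σ 0) qa) ≤ m →
      (ca * X' - η * J) * Real.log 2 - m ≤ CH (Pool.Agent.H49.Ent.cond F.p A True)
        (Uni.dg X' (fun ω => F.md (cv (vp w) kap q) (frm σ (a w) s t) ω 0))
        (F.blb w (cv (vp w) kap q) (frm σ (a w) s t)))

/-- **(ACT+)** -/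
theorem actp_thm : ACTPStmt := by
  intro S a₁ R i₀ act hst hA hmono q₁ q₂ ca η hq1 hq12 hq2 hca hη hG B C
  have hl2 : 0 < Real.log 2 := Real.log_pos (by norm_num)
  have hpos : ∀ (τ : ℝ) (J : ℕ) (F : Fam 3 J) (A : F.Ω → Prop), S.St τ J F A → 0 < Pe F.p A :=
    fun τ J F A hA => lt_of_lt_of_le (Real.exp_pos _) (hst τ J F A hA).2.2.2
  by_cases hS : S.Ne
  swap
  · unfold PCl.Ne at hS
    push Not at hS
    obtain ⟨τ, hτ, J₀, hS⟩ := hS
    exact Clp.of hτ J₀ fun J hJ F A hA => absurd hA (hS J hJ F A)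
  have hlip := fun q q' h0 h1 h2 => actN_lip hS hpos hA q q' h0 h1 h2
  have h1 := act_int hpos hA hmono hlip (h := η * Real.log 2 / 8) (by positivity)
  obtain ⟨J₁, hJ₁⟩ := exists_nat_gt ((Real.log 13 + visC (B + 3) (C + 3)) /
    (η * Real.log 2 / 8))
  have hp8 : 0 < η * Real.log 2 / 8 := by positivity
  have hlaw : Clp S (fun _ F A => 0 < Pe F.p A) :=
    Clp.of one_pos 0 fun J _ F A hA => hpos 1 J F A hA
  refine Clp.mono (J₂ := max J₁ 1) (hlaw.and h1) ?_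
  rintro J hJ F A ⟨hPA, hg⟩ σ wl wa wb vp kap Hu HN al nu k b a s t hF hσ w q X' hw1 hw2 hqa hqb
    hR qa qc m hqaq hqc hm
  have hl := isLaw_cond F.isLaw hPA
  have hJ1 : J₁ ≤ J := (le_max_left _ _).trans hJ
  have hJ2 : 1 ≤ J := (le_max_right _ _).trans hJ
  have hJ0 : (0 : ℝ) < J := by exact_mod_cast hJ2
  have hJq : (0 : ℚ) < J := by exact_mod_cast hJ2
  have hK : Real.log 13 + visC (B + 3) (C + 3) ≤ η * Real.log 2 / 8 * J := by
    have h2 : (Real.log 13 + visC (B + 3) (C + 3)) / (η * Real.log 2 / 8) < J :=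
      hJ₁.trans_le (by exact_mod_cast hJ1)
    rw [div_lt_iff₀ hp8] at h2
    linarith
  have hpA : ∀ ω, 0 < Pool.Agent.H49.Ent.cond F.p A True ω → A ω := fun ω hω =>
    of_eq_true ((cond_pos_iff F.isLaw.nonneg A True ω).1 hω).2
  -- the levels
  have hvm : vp w ≤ vp wb := hF.mono w wb hw1 hw2 le_rfl
  have r1 : vp wb + q ≤ Hu := by
    have := hR.u
    rw [add_zero] at this
    exact_mod_cast this
  have r2 : kap + q ≤ HN := by
    have := hR.n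
    rw [add_zero] at this
    exact_mod_cast this
  have r3 : wb + vp wb + q ≤ J := by
    have := hR.uJ
    rw [add_zero] at this
    exact_mod_cast this
  have r4 : wb + kap + q ≤ J := by
    have := hR.nJ
    rw [add_zero] at this
    exact_mod_cast this
  have hvis := hF.ctx_vis (w := w) (q := q) hw1 hw2 (by omega) (by omega) (by omega) (by omega)
    hl hpA
  have hX : (q : ℝ) + X' ≤ J := by
    have : q₂ * J ≤ 1 * J := mul_le_mul_of_nonneg_right hq2 hJ0.le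
    linarith
  have hXn : q + X' ≤ J := by exact_mod_cast hX
  have k1 := act_pq hl hg hXn
  have e0 : cv (vp w) kap q 0 = q := rfl
  have k2 := CH_md_geP hl σ (a w) s t (cv (vp w) kap q) X'
    (F.blb w (cv (vp w) kap q) (frm σ (a w) s t)) (fun ω => (s ω, t ω)) hvis
  rw [e0] at k2
  have k0 := mi_sub hl.nonneg (σ 0) (fun ω => (s ω, t ω)) hqaq (Nat.le_add_right q X') hqc
  rw [hσ] at k2 k0 hm
  have k3 := hG ((q : ℚ) / J) (((q + X' : ℕ) : ℚ) / J) (by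
      push_cast
      rw [le_div_iff₀ hJ0]
      exact hqa) (by
      refine div_le_div_of_nonneg_right ?_ hJq.le
      push_cast
      linarith [Nat.cast_nonneg (α := ℚ) X']) (by
      push_cast
      rw [div_le_iff₀ hJ0]
      exact hqb)
  have e1 : ((((q + X' : ℕ) : ℚ) / J : ℚ) : ℝ) - (((q : ℚ) / J : ℚ) : ℝ) = X' / J := by
    push_cast
    ring
  rw [e1] at k3
  have hlJ : 0 < Real.log 2 * J := by positivity
  have k4 := mul_le_mul_of_nonneg_right k3 hlJ.le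
  have e3 : (ca * (X' / J) - η / 16) * (Real.log 2 * J) =
      (ca * X' - η / 16 * J) * Real.log 2 := by
    field_simp
  rw [e3] at k4
  have e4 : (act (((q + X' : ℕ) : ℚ) / J) - act ((q : ℚ) / J)) * (Real.log 2 * J) =
      (act (((q + X' : ℕ) : ℚ) / J) - act ((q : ℚ) / J)) * Real.log 2 * J := by ring
  rw [e4] at k4
  have hpj : 0 < η * Real.log 2 * J := by positivity
  have k5 : (ca * X' - η * J) * Real.log 2 ≤
      CH (Pool.Agent.H49.Ent.cond F.p A True) (fun ω => F.D (q + X') ω i₀)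
        (fun ω => (F.D q ω i₀, Fam.pt F ω)) - (Real.log 13 + visC (B + 3) (C + 3)) := by
    nlinarith
  have k6 : (ca * X' - η * J) * Real.log 2 - m ≤
      CH (Pool.Agent.H49.Ent.cond F.p A True) (fun ω => F.D (q + X') ω i₀)
        (fun ω => (F.D q ω i₀, Fam.pt F ω)) -
      Pool.KVA.MI (Pool.Agent.H49.Ent.cond F.p A True) (fun ω => F.D (q + X') ω i₀)
        (fun ω => (s ω, t ω)) (Pool.K2S.ptq F i₀ q) -
        (Real.log 13 + visC (B + 3) (C + 3)) := by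
    linarith
  refine k6.trans (k2.trans (le_of_eq ?_))
  rfl

end Pool.UST
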