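import Pool.Agent.H36.S6.ActP
import Pool.Agent.H72.S6B.Def

/-!
# Frames with a visible plane of directions are a special case

`UFr.toI`: a frame `UFr` is a frame `UFi`; `fri_vis`: the information of a visible plane of
directions is zero.
-/

set_option autoImplicit false

namespace Pool.S6B

open Finset Real
open Pool.Agent.H49.Ent Pool.Agent.H32.Dense Pool.STK Pool.KA Pool.KA.Win Pool.KA.TRC
  Pool.KSAT Pool.K2S Pool.K2S.Rows Pool.K2S.FF Pool.PB Pool.S6K.Wfe Pool.UST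

variable {J : ℕ} {F : Fam 3 J} {A : F.Ω → Prop} {σ : Fin 3 → Fin 3} {wl wa wb : ℕ}
    {vp : ℕ → ℕ} {kap Hu HN : ℕ} {al nu k b : (Fin 3 → ℤ) × (ℕ × F.ζ) → ℝ} {a : ℕ → F.Ω → ℝ}
    {s t : F.Ω → ℝ} {B C : ℝ}

/-- A visible plane of directions has no information. -/
theorem fri_vis {p : F.Ω → ℝ} (hp : ∀ ω, 0 ≤ p ω)
    (hd : Det p (Fam.pt F) (fun ω => (s ω, t ω))) (q q' : ℕ) : fri F p σ s t q q' ≤ 0 := by
  unfold fri
  rw [MI_eq_dl hp, dl_symm hp]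
  unfold dl
  have h1 : CH p (fun ω => (s ω, t ω)) (Pool.K2S.ptq F (σ 0) q) = 0 :=
    CH_eq_zero hp fun ω ω' hω hω' e => hd ω ω' hω hω' (Prod.ext_iff.mp e).1
  have h2 := CH_nonneg hp (fun ω => (s ω, t ω))
    (fun ω => (F.D q' ω (σ 0), Pool.K2S.ptq F (σ 0) q ω))
  linarith

/-- Frames with a visible plane of directions. -/
theorem _root_.Pool.UST.UFr.toI (h : UFr F A σ wl wa wb vp kap Hu HN al nu k b a s t B C) :
    ∃ kN nN : (Fin 3 → ℤ) × (ℕ × F.ζ) → ℝ,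
      UFi F A σ wl wa wb vp kap Hu HN al nu kN nN a s t B C ∧
      ∀ p : F.Ω → ℝ, (∀ ω, 0 ≤ p ω) → (∀ ω, 0 < p ω → A ω) → ∀ q q' : ℕ,
        fri F p σ s t q q' ≤ 0 := by
  obtain ⟨φ, hφ⟩ := h.pts
  have hs : ∀ ω, A ω → (φ (Fam.pt F ω)).1 = s ω ∧ (φ (Fam.pt F ω)).2 = t ω := fun ω hω => by
    rw [← hφ ω hω]
    exact ⟨rfl, rfl⟩
  refine ⟨fun z => k z + (φ z).1 * al z + (φ z).2, fun z => b z + (φ z).1 * nu z, ?_, ?_⟩
  · refine ⟨h.bij, h.B1, h.C1, h.lw, h.wJ, h.mono, h.on1, fun ω hω => ?_, h.bal, h.bd, h.near,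
      h.int, fun ω hω => ?_, h.slm, h.slp⟩
    · obtain ⟨e1, e2⟩ := hs ω hω
      have h1 := h.on2 ω hω
      simp only [e1, e2]
      have e : F.d ω (σ 2) - (k (Fam.pt F ω) + s ω * al (Fam.pt F ω) + t ω) * F.d ω (σ 0) -
          (b (Fam.pt F ω) + s ω * nu (Fam.pt F ω)) -
          s ω * (F.d ω (σ 1) - al (Fam.pt F ω) * F.d ω (σ 0) - nu (Fam.pt F ω)) =
          F.d ω (σ 2) - s ω * F.d ω (σ 1) - t ω * F.d ω (σ 0) - b (Fam.pt F ω) -
            k (Fam.pt F ω) * F.d ω (σ 0) := by ring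
      rw [e]
      exact h1
    · obtain ⟨e1, e2⟩ := hs ω hω
      have h1 := h.kle ω hω
      simp only [e1, e2]
      have e : k (Fam.pt F ω) + s ω * al (Fam.pt F ω) + t ω - s ω * al (Fam.pt F ω) - t ω =
          k (Fam.pt F ω) := by ring
      rw [e]
      exact h1
  · intro p hp hpA q q'
    refine fri_vis hp (fun ω ω' hω hω' e => ?_) q q'
    show (s ω, t ω) = (s ω', t ω')
    rw [hφ ω (hpA ω hω), hφ ω' (hpA ω' hω'), e]

end Pool.S6B
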