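import Pool.Agent.H2.UST.Stm

/-!
# Frames of which `s`, `t` are functions of the window, but not visible

`UFrP` is `UFr` without the visibility of `(s, t)`: the straightness in the direction of the normal
is expressed by functions of the exact point and of `(s, t)`.
-/

set_option autoImplicit false

namespace Pool.UST

open Finset Real
open Pool.Agent.H49.Ent Pool.Agent.H32.Dense Pool.STK Pool.KA Pool.KSAT Pool.K2S Pool.PB
  Pool.S6U Pool.S6C

variable {J : ℕ}

/-- **The frames**, `(s, t)` is a function of the lowest window `wl`, not visible. -/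
structure UFrP (F : Fam 3 J) (A : F.Ω → Prop) (σ : Fin 3 → Fin 3) (wl wa wb : ℕ) (vp : ℕ → ℕ)
    (kap Hu HN : ℕ) (al nu : (Fin 3 → ℤ) × (ℕ × F.ζ) → ℝ) (k b : F.Ω → ℝ) (a : ℕ → F.Ω → ℝ)
    (s t : F.Ω → ℝ) (B C : ℝ) : Prop where
  bij : Function.Bijective σ
  B1 : 1 ≤ B
  C1 : 1 ≤ C
  lw : wl ≤ wa
  wJ : wb ≤ J
  mono : ∀ w w', wa ≤ w → w ≤ w' → w' ≤ wb → vp w ≤ vp w'
  on1 : ∀ ω, A ω → |F.d ω (σ 1) - al (Fam.pt F ω) * F.d ω (σ 0) - nu (Fam.pt F ω)| ≤ B / 2 ^ Hu
  on2 : ∀ ω, A ω → |F.d ω (σ 2) - s ω * F.d ω (σ 1) - t ω * F.d ω (σ 0) - b ω -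
    k ω * F.d ω (σ 0)| ≤ B / 2 ^ HN
  /-- `k` and `b` are functions of the exact point and of `(s, t)` -/
  kb : ∀ ω ω', A ω → A ω' → Fam.pt F ω = Fam.pt F ω' → s ω = s ω' → t ω = t ω' →
    k ω = k ω' ∧ b ω = b ω'
  bal : ∀ ω, A ω → |al (Fam.pt F ω)| ≤ B
  bd : ∀ ω, A ω → |s ω| ≤ B ∧ |t ω| ≤ B
  near : ∀ w, wa ≤ w → w ≤ wb → ∀ ω, A ω → |al (Fam.pt F ω) - a w ω| ≤ 3 / 2 ^ vp w
  int : ∀ w, wa ≤ w → w ≤ wb → ∀ ω, ∃ n : ℤ, a w ω = n / 2 ^ vp w
  kle : ∀ ω, A ω → |k ω| ≤ C / 2 ^ kap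
  slm : ∀ w, wa ≤ w → w ≤ wb → Det F.p (slam F w) (a w)
  slp : Det F.p (slam F wl) (fun ω => (s ω, t ω))

section UFrP

variable {F : Fam 3 J} {A : F.Ω → Prop} {σ : Fin 3 → Fin 3} {wl wa wb : ℕ}
    {vp : ℕ → ℕ} {kap Hu HN : ℕ} {al nu : (Fin 3 → ℤ) × (ℕ × F.ζ) → ℝ} {k b : F.Ω → ℝ}
    {a : ℕ → F.Ω → ℝ} {s t : F.Ω → ℝ} {B C : ℝ}

theorem UFrP.sub (h : UFrP F A σ wl wa wb vp kap Hu HN al nu k b a s t B C)
    {A' : F.Ω → Prop} (hA : Sub A' A) :
    UFrP F A' σ wl wa wb vp kap Hu HN al nu k b a s t B C :=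
  ⟨h.bij, h.B1, h.C1, h.lw, h.wJ, h.mono, fun ω hω => h.on1 ω (hA ω hω),
    fun ω hω => h.on2 ω (hA ω hω), fun ω ω' hω hω' => h.kb ω ω' (hA ω hω) (hA ω' hω'),
    fun ω hω => h.bal ω (hA ω hω), fun ω hω => h.bd ω (hA ω hω),
    fun w h1 h2 ω hω => h.near w h1 h2 ω (hA ω hω), h.int, fun ω hω => h.kle ω (hA ω hω),
    h.slm, h.slp⟩

/-- Fewer windows. -/
theorem UFrP.win (h : UFrP F A σ wl wa wb vp kap Hu HN al nu k b a s t B C) {wa' wb' : ℕ}
    (h1 : wa ≤ wa') (h2 : wb' ≤ wb) :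
    UFrP F A σ wl wa' wb' vp kap Hu HN al nu k b a s t B C :=
  ⟨h.bij, h.B1, h.C1, h.lw.trans h1, h2.trans h.wJ,
    fun w w' g1 g2 g3 => h.mono w w' (h1.trans g1) g2 (g3.trans h2), h.on1, h.on2, h.kb, h.bal,
    h.bd, fun w g1 g2 => h.near w (h1.trans g1) (g2.trans h2),
    fun w g1 g2 => h.int w (h1.trans g1) (g2.trans h2), h.kle,
    fun w g1 g2 => h.slm w (h1.trans g1) (g2.trans h2), h.slp⟩

/-- Lower levels. -/
theorem UFrP.lvl (h : UFrP F A σ wl wa wb vp kap Hu HN al nu k b a s t B C) {kap' Hu' HN' : ℕ}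
    (h1 : kap' ≤ kap) (h2 : Hu' ≤ Hu) (h3 : HN' ≤ HN) :
    UFrP F A σ wl wa wb vp kap' Hu' HN' al nu k b a s t B C := by
  have hB := h.B1
  have hC := h.C1
  have key : ∀ {x y : ℕ} {c : ℝ}, 0 ≤ c → x ≤ y → c / (2 : ℝ) ^ y ≤ c / 2 ^ x := by
    intro x y c hc hxy
    exact div_le_div_of_nonneg_left hc (by positivity) (pow_le_pow_right₀ (by norm_num) hxy)
  exact ⟨h.bij, h.B1, h.C1, h.lw, h.wJ, h.mono,
    fun ω hω => (h.on1 ω hω).trans (key (by linarith) h2),
    fun ω hω => (h.on2 ω hω).trans (key (by linarith) h3), h.kb, h.bal, h.bd, h.near, h.int,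
    fun ω hω => (h.kle ω hω).trans (key (by linarith) h1), h.slm, h.slp⟩

/-- The frame `(a w, s, t)` is a function of the window. -/
theorem UFrP.det (h : UFrP F A σ wl wa wb vp kap Hu HN al nu k b a s t B C) {w : ℕ}
    (h1 : wa ≤ w) (h2 : w ≤ wb) : Det F.p (slam F w) (fun ω => (a w ω, s ω, t ω)) := by
  intro ω ω' hω hω' e
  have e1 := h.slm w h1 h2 ω ω' hω hω' e
  have hlw := h.lw
  have hwJ := h.wJ
  have e2 : slam F wl ω = slam F wl ω' := by
    rw [slam_coarse F (w := wl) (w' := w) (by omega) (by omega) ω,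
      slam_coarse F (w := wl) (w' := w) (by omega) (by omega) ω', e]
  have e3 := h.slp ω ω' hω hω' e2
  have e4 := Prod.ext_iff.mp e3
  exact Prod.ext e1 (Prod.ext e4.1 e4.2)

/-- `UFr` is a special case. -/
theorem UFr.toP {k b : (Fin 3 → ℤ) × (ℕ × F.ζ) → ℝ}
    (h : UFr F A σ wl wa wb vp kap Hu HN al nu k b a s t B C) :
    UFrP F A σ wl wa wb vp kap Hu HN al nu (fun ω => k (Fam.pt F ω)) (fun ω => b (Fam.pt F ω)) a
      s t B C :=
  ⟨h.bij, h.B1, h.C1, h.lw, h.wJ, h.mono, h.on1, h.on2,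
    fun ω ω' _ _ e _ _ => by simp only [e, and_self], h.bal, h.bd, h.near, h.int, h.kle, h.slm,
    h.slp⟩

/-- **The contexts are visible from the exact points, the digits of the base velocity and
`(s, t)`.** -/
theorem UFrP.ctx_vis (h : UFrP F A σ wl wa wb vp kap Hu HN al nu k b a s t B C) {w q : ℕ}
    (h1 : wa ≤ w) (h2 : w ≤ wb) (hu : vp w + q ≤ Hu) (hN : kap + q ≤ HN)
    (h3 : w + vp w + q ≤ J) (h4 : w + kap + q ≤ J) {p : F.Ω → ℝ} (hp : IsLaw p)
    (hpos : ∀ ω, 0 < p ω → A ω) :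
    CH p (F.blb w (cv (vp w) kap q) (frm σ (a w) s t))
      (fun ω => ((s ω, t ω), Pool.K2S.ptq F (σ 0) q ω)) ≤
      Real.log 13 + visC (B + 3) (C + 3) := by
  have h0 := hp.nonneg
  have hB := h.B1
  have hC := h.C1
  -- the direction
  choose n hn using h.int w h1 h2
  obtain ⟨W, hW⟩ : ∃ W, W = fun ω => ((s ω, t ω), Pool.K2S.ptq F (σ 0) q ω) := ⟨_, rfl⟩
  have c1 := CH_near_int hp n W (fun u => 2 ^ vp w * al u.2.1) (c := 3) (by
    intro ω hω
    have e1 := h.near w h1 h2 ω (hpos ω hω)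
    have e2 : (n ω : ℝ) - 2 ^ vp w * al (W ω).2.1 =
        2 ^ vp w * (a w ω - al (Fam.pt F ω)) := by
      have e3 : (n ω : ℝ) = 2 ^ vp w * a w ω := by
        rw [hn ω]
        field_simp
      rw [e3, hW]
      show _ - 2 ^ vp w * al (Fam.pt F ω) = _
      ring
    rw [e2, abs_mul, abs_of_pos (by positivity : (0 : ℝ) < 2 ^ vp w), abs_sub_comm]
    calc (2 : ℝ) ^ vp w * |al (Fam.pt F ω) - a w ω| ≤ 2 ^ vp w * (3 / 2 ^ vp w) :=
          mul_le_mul_of_nonneg_left e1 (by positivity)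
      _ = 3 := by field_simp)
  have c2 : CH p (a w) W ≤ CH p n W := by
    refine CH_mono_left h0 ?_
    intro ω ω' _ _ e
    have e2 : n ω = n ω' := (Prod.ext_iff.mp e).1
    show a w ω = a w ω'
    rw [hn ω, hn ω', e2]
  have e13 : Real.log (2 * (2 * 3) + 1) = Real.log 13 := by norm_num
  rw [e13] at c1
  have c3 : (3 : ℝ) / 2 ^ vp w ≤ 3 := div_le_self (by norm_num) (one_le_pow₀ (by norm_num))
  -- the boxes
  have hlv : ∀ {x y z : ℕ} {c : ℝ}, 0 ≤ c → y = x + z →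
      c / (2 : ℝ) ^ z ≤ (c + 1) * 2 ^ x / 2 ^ y := by
    intro x y z c hc hy
    rw [hy, pow_add]
    have e : (c + 1) * (2 : ℝ) ^ x / (2 ^ x * 2 ^ z) = (c + 1) / 2 ^ z := by field_simp
    rw [e]
    exact div_le_div_of_nonneg_right (by linarith) (by positivity)
  have key := Box.CH_ctx_of_pt (F := F) (p := p) (σ := σ) (a := a w) (s := s) (t := t) hp
    (w := w) (r := w + q) (U := w + vp w + q) (P := w + q + kap) (by omega) (by omega)
    (by omega) (by omega) (by omega) (by omega) (by omega) (α := fun ω => al (Fam.pt F ω))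
    (s₀ := s) (t₀ := fun ω => t ω + k ω) (B := 2 * (B + 3) + (C + 3) + 1) (D := (C + 3) + 1)
    (by linarith) (by linarith)
    (by
      intro ω hω
      obtain ⟨b1, b2⟩ := h.bd ω (hpos ω hω)
      refine ⟨?_, ?_, ?_⟩
      · have := h.bal ω (hpos ω hω)
        linarith
      · linarith
      · have d1 := h.kle ω (hpos ω hω)
        have d2 : C / (2 : ℝ) ^ kap ≤ C := div_le_self (by linarith) (one_le_pow₀ (by norm_num))
        have d3 := abs_add_le (t ω) (k ω)
        linarith)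
    (by
      intro ω hω
      refine ⟨?_, ?_, ?_⟩
      · rw [abs_sub_comm]
        refine (h.near w h1 h2 ω (hpos ω hω)).trans ?_
        refine le_trans ?_ (hlv (z := vp w) (by linarith : (0 : ℝ) ≤ C + 3) (by omega))
        exact div_le_div_of_nonneg_right (by linarith) (by positivity)
      · rw [sub_self, abs_zero]
        positivity
      · have e : t ω - (t ω + k ω) + (s ω - s ω) * al (Fam.pt F ω) = -k ω := by ring
        rw [e, abs_neg]
        refine (h.kle ω (hpos ω hω)).trans ?_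
        refine le_trans ?_ (hlv (z := kap) (by linarith : (0 : ℝ) ≤ C + 3) (by omega))
        exact div_le_div_of_nonneg_right (by linarith) (by positivity))
    (fun ω => (a w ω, W ω))
    (by
      intro ω ω' hω hω' e
      have e1 := Prod.ext_iff.mp e
      have ew : W ω = W ω' := e1.2
      rw [hW] at ew
      have e2 := Prod.ext_iff.mp ew
      have e3 := Prod.ext_iff.mp e2.1
      have e4 := Prod.ext_iff.mp e2.2
      have ea : a w ω = a w ω' := e1.1
      have es : s ω = s ω' := e3.1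
      have et : t ω = t ω' := e3.2
      have ept : Fam.pt F ω = Fam.pt F ω' := e4.1
      have ed : ⌊(2 : ℝ) ^ q * F.d ω (σ 0)⌋ = ⌊(2 : ℝ) ^ q * F.d ω' (σ 0)⌋ := e4.2
      have eX : F.X J ω = F.X J ω' := (Prod.ext_iff.mp ept).1
      have eW : F.W ω = F.W ω' := (Prod.ext_iff.mp ept).2
      obtain ⟨ek, eb⟩ := h.kb ω ω' (hpos ω hω) (hpos ω' hω') ept es et
      refine ⟨eX, eW, ⟨?_, es, ?_⟩, ⟨ea, es, et⟩, ?_, ?_, ?_⟩
      · simp only [ept]
      · simp only [ek, et]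
      · have e5 := Box.near_of_floor ed
        have e6 : w + q - w = q := by omega
        rw [e6]
        refine e5.trans (div_le_div_of_nonneg_right (by linarith) (by positivity))
      · have d1 := h.on1 ω (hpos ω hω)
        have d2 := h.on1 ω' (hpos ω' hω')
        rw [← ept] at d2
        have e7 : (F.d ω (σ 1) - al (Fam.pt F ω) * F.d ω (σ 0)) -
            (F.d ω' (σ 1) - al (Fam.pt F ω) * F.d ω' (σ 0)) =
            (F.d ω (σ 1) - al (Fam.pt F ω) * F.d ω (σ 0) - nu (Fam.pt F ω)) -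
            (F.d ω' (σ 1) - al (Fam.pt F ω) * F.d ω' (σ 0) - nu (Fam.pt F ω)) := by ring
        rw [e7]
        refine (abs_sub _ _).trans ?_
        have e6 : w + vp w + q - w = vp w + q := by omega
        rw [e6]
        have d3 : B / (2 : ℝ) ^ Hu ≤ B / 2 ^ (vp w + q) :=
          div_le_div_of_nonneg_left (by linarith) (by positivity)
            (pow_le_pow_right₀ (by norm_num) hu)
        have e8 : B / (2 : ℝ) ^ (vp w + q) + B / 2 ^ (vp w + q) = 2 * B / 2 ^ (vp w + q) := by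
          ring
        have e9 : 2 * B / (2 : ℝ) ^ (vp w + q) ≤ (2 * (B + 3) + (C + 3) + 1) / 2 ^ (vp w + q) :=
          div_le_div_of_nonneg_right (by linarith) (by positivity)
        linarith
      · have d1 := h.on2 ω (hpos ω hω)
        have d2 := h.on2 ω' (hpos ω' hω')
        rw [← eb, ← ek, ← es, ← et] at d2
        have e7 : (F.d ω (σ 2) - s ω * F.d ω (σ 1) - (t ω + k ω) * F.d ω (σ 0)) -
            (F.d ω' (σ 2) - s ω * F.d ω' (σ 1) - (t ω + k ω) * F.d ω' (σ 0)) =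
            (F.d ω (σ 2) - s ω * F.d ω (σ 1) - t ω * F.d ω (σ 0) - b ω - k ω * F.d ω (σ 0)) -
            (F.d ω' (σ 2) - s ω * F.d ω' (σ 1) - t ω * F.d ω' (σ 0) - b ω -
              k ω * F.d ω' (σ 0)) := by ring
        rw [e7]
        refine (abs_sub _ _).trans ?_
        have e6 : w + q + kap - w = kap + q := by omega
        rw [e6]
        have d3 : B / (2 : ℝ) ^ HN ≤ B / 2 ^ (kap + q) :=
          div_le_div_of_nonneg_left (by linarith) (by positivity)
            (pow_le_pow_right₀ (by norm_num) hN)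
        have e8 : B / (2 : ℝ) ^ (kap + q) + B / 2 ^ (kap + q) = 2 * B / 2 ^ (kap + q) := by ring
        have e9 : 2 * B / (2 : ℝ) ^ (kap + q) ≤ (2 * (B + 3) + (C + 3) + 1) / 2 ^ (kap + q) :=
          div_le_div_of_nonneg_right (by linarith) (by positivity)
        linarith)
  have ec : vpr w (w + q) (w + vp w + q) (w + q + kap) = cv (vp w) kap q := by
    funext i
    fin_cases i
    · change w + q - w = q
      omega
    · change w + vp w + q - w = vp w + q
      omega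
    · change w + q + kap - w = kap + q
      omega
  have e2 : F.ctx σ w (w + q) (w + vp w + q) (w + q + kap) (a w) s t =
      F.blb w (cv (vp w) kap q) (frm σ (a w) s t) := by
    unfold Fam.ctx
    rw [ec]
    rfl
  rw [e2] at key
  have c4 := CH_le_add h0 (F.blb w (cv (vp w) kap q) (frm σ (a w) s t)) (a w) W
  rw [← hW]
  have e10 : visC (B + 3) (C + 3) = 2 * ((3 : ℕ) * Real.log (2 * ((3 : ℕ) * ((C + 3) + 1) *
      (2 * ((3 : ℕ) * (3 * (2 * (B + 3) + (C + 3) + 1)) +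
        (3 * (2 * (B + 3) + (C + 3) + 1))))) + 3)) := by
    unfold visC
    rw [abs_of_nonneg (by linarith : (0 : ℝ) ≤ B + 3), abs_of_nonneg (by linarith : (0 : ℝ) ≤ C + 3)]
  rw [e10]
  linarith

end UFrP

end Pool.UST
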