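import Pool.Agent.H36.S6.RowN
import Pool.Agent.H95.S6.Rte
import Pool.Agent.H23.S6E.Ld1
import Pool.Agent.H97.S6.H1R

/-!
# Falling: the rows are not full (`RowFStmt`)
-/

set_option autoImplicit false

namespace Pool.S6C

open Finset Real
open Pool.Agent.H49.Ent Pool.Agent.H32.Dense Pool.STK Pool.KA Pool.KSAT Pool.K2S Pool.PB Pool.KS6
  Pool.Sel51 Pool.FALL

section fam

variable {J : ℕ} {F : Fam 3 J} {p : F.Ω → ℝ} {sg : Fin 3 → Fin 3} {a s t a' t' : F.Ω → ℝ}

/-- One block of rows, on an event. -/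
theorem row_block (hp : IsLaw p) (hσ : Function.Bijective sg) {r U P k : ℕ} (h1 : r ≤ P)
    (h2 : U ≤ P) (hb : ∀ ω, 0 < p ω → |a ω| ≤ 8 ∧ |s ω| ≤ 8 ∧ |t ω| ≤ 8) {E : F.Ω → Prop}
    {ϖ : ℝ} (hϖ : 0 < ϖ) (hE : ϖ ≤ Pe p E) {c εR εL ls : ℝ}
    (hR : CH (Pool.Agent.H49.Ent.cond p E True) (F.X (P + k)) (fun ω => (F.X P ω, F.W ω)) ≤
      (3 - c) * k * Real.log 2 + εR)
    (hL : F.vdf p sg r U (P + k) a s t F.W ≤ εL + ls) :
    CH (Pool.Agent.H49.Ent.cond p E True) (F.sbx sg r U (P + k) a s t)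
      (fun ω => (F.sbx sg r U P a s t ω, F.W ω)) ≤
      (1 - c) * k * Real.log 2 + εR + (εL + ls) / ϖ +
        ((Vd.K2 8 + Real.log 2) / ϖ + (Vd.K1 8 + Vd.K2 8)) := by
  have k1 := Vd.h5_gen (σ := sg) (a := a) (s := s) (t := t) (r := r) (U := U) (P := P) (r' := r)
    (U' := U) (P' := P + k) hp hσ (by norm_num : (1 : ℝ) ≤ 8) le_rfl le_rfl (Nat.le_add_right P k)
    h1 h2 (by omega) (by omega) hb F.W E hϖ hE
  have e1 : (((r : ℝ) - r) + ((U : ℝ) - U) - 2 * (((P + k : ℕ) : ℝ) - P)) * Real.log 2 =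
      -(2 * k * Real.log 2) := by
    push_cast
    ring
  rw [e1] at k1
  have k2 : (F.vdf p sg r U (P + k) a s t F.W + (Vd.K2 8 + Real.log 2)) / ϖ ≤
      (εL + ls) / ϖ + (Vd.K2 8 + Real.log 2) / ϖ := by
    rw [← add_div]
    exact div_le_div_of_nonneg_right (by linarith only [hL]) hϖ.le
  have e2 : (1 - c) * k * Real.log 2 = (3 - c) * k * Real.log 2 - 2 * k * Real.log 2 := by ring
  rw [e2]
  linarith only [hR, k1, k2]

/-- The digits of the frame given the left label. -/
theorem frame_cnt (hp : IsLaw p) {zl : F.Ω → Pln} {Va Rt n₀ n₁ : ℕ} {E : ℝ} (hE : 1 ≤ E)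
    (hga : ∀ ω, ∃ z : ℤ, a' ω = z / 2 ^ Va) (hgt : ∀ ω, ∃ z : ℤ, t' ω = z / 2 ^ Rt)
    (hs : ∀ ω, 0 < p ω → s ω = frs zl ω) (ha : ∀ ω, 0 < p ω → |a' ω - fra zl ω| ≤ E / 2 ^ n₀)
    (ht : ∀ ω, 0 < p ω → |t' ω - frt zl ω| ≤ E / 2 ^ n₁) :
    CH p (fun ω => (a' ω, s ω, t' ω)) (fun ω => (zl ω, F.W ω)) ≤
      (((Va - n₀ : ℕ) : ℝ) + ((Rt - n₁ : ℕ) : ℝ)) * Real.log 2 + 2 * Real.log (2 * E + 1) := by
  have h0 := hp.nonneg
  have hE0 : 0 ≤ E := by linarith
  obtain ⟨C, hC⟩ : ∃ C, C = fun ω => (zl ω, F.W ω) := ⟨_, rfl⟩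
  have hz : ∀ ω ω', C ω = C ω' → zl ω = zl ω' := by
    intro ω ω' h
    rw [hC] at h
    exact (Prod.ext_iff.mp h).1
  rw [← hC]
  have key : ∀ {x y : ℕ}, x ≤ y → E / (2 : ℝ) ^ y ≤ E / 2 ^ x := fun h =>
    div_le_div_of_nonneg_left hE0 (by positivity) (pow_le_pow_right₀ (by norm_num) h)
  have c1 := Pool.S6N.CH_grid1 hp a' C (fra zl)
    (fun ω ω' _ _ h => by unfold fra; rw [hz ω ω' h]) (min_le_right n₀ Va) hE0 hga
    (fun ω hω => (ha ω hω).trans (key (min_le_left _ _)))
  have c2 := Pool.S6N.CH_grid1 hp t' (fun ω => (a' ω, C ω)) (frt zl)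
    (fun ω ω' _ _ h => by unfold frt; rw [hz ω ω' (Prod.ext_iff.mp h).2])
    (min_le_right n₁ Rt) hE0 hgt (fun ω hω => (ht ω hω).trans (key (min_le_left _ _)))
  have c3 := CH_chain h0 t' a' C
  have c4 : CH p (fun ω => (a' ω, s ω, t' ω)) C ≤ CH p (fun ω => (t' ω, a' ω)) C := by
    refine CH_mono_left h0 ?_
    intro ω ω' hω hω' h
    have h1 := Prod.ext_iff.mp h
    have h2 := Prod.ext_iff.mp h1.1
    have h3 : t' ω = t' ω' := h2.1
    have h4 : a' ω = a' ω' := h2.2
    have h5 : s ω = s ω' := by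
      rw [hs ω hω, hs ω' hω']
      unfold frs
      rw [hz ω ω' h1.2]
    show (a' ω, s ω, t' ω) = (a' ω', s ω', t' ω')
    rw [h3, h4, h5]
  have e1 : Va - min n₀ Va = Va - n₀ := by omega
  have e2 : Rt - min n₁ Rt = Rt - n₁ := by omega
  rw [e1] at c1
  rw [e2] at c2
  linarith only [c1, c2, c3, c4]

theorem rowf_cond {Ω : Type} [Fintype Ω] (p : Ω → ℝ) {A B : Ω → Prop} (hA : Pe p A ≠ 0) :
    Pool.Agent.H49.Ent.cond (Pool.Agent.H49.Ent.cond p A True) B True =
      Pool.Agent.H49.Ent.cond p (fun ω => A ω ∧ B ω) True := by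
  classical
  have hev : ∀ (q : Ω → ℝ) (C : Ω → Prop) (ω : Ω),
      Pool.Agent.H49.Ent.cond q C True ω = if C ω then q ω / Pe q C else 0 := by
    intro q C ω
    unfold Pool.Agent.H49.Ent.cond
    by_cases h : C ω
    · rw [if_pos (eq_true h), if_pos h]
    · rw [if_neg (fun h' => h (of_eq_true h')), if_neg h]
  funext ω
  rw [hev, hev, hev, Pe_cond B]
  by_cases h1 : A ω
  · by_cases h2 : B ω
    · rw [if_pos h2, if_pos h1, if_pos (⟨h1, h2⟩ : A ω ∧ B ω), div_div_div_cancel_right₀ hA]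
    · rw [if_neg h2, if_neg (fun h : A ω ∧ B ω => h2 h.2)]
  · rw [if_neg h1, if_neg (fun h : A ω ∧ B ω => h1 h.1), zero_div]
    split_ifs <;> rfl

end fam

/-- The entropy of the frame given the left label. -/
theorem rowf_fr {J : ℕ} {F : Fam 3 J} {A : F.Ω → Prop} {p : F.Ω → ℝ} {s a' t' : F.Ω → ℝ}
    {zl : F.Ω → Pln} {Va Rt X : ℕ} {ul us : ℚ} {x Cw L G e η g wr v₀ v ρ rul tul E : ℝ}
    (hp : IsLaw p) (hpA : ∀ ω, 0 < p ω → A ω) (hJ0 : (0 : ℝ) < J) (hx : 0 < x) (he : 0 ≤ e)
    (hex1 : e ≤ x) (hρ0 : 0 ≤ ρ) (hρv : ρ ≤ v) (hv : 0 < v) (hCw0 : 0 ≤ Cw) (hL0 : 0 < L)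
    (hLG : (10 + 4 * v) * L ≤ G) (heL : 100 * e ≤ L) (g9 : G < wr) (g10 : G < v₀)
    (g11 : G < g - wr - v₀) (hu : wr - L / 2 ≤ ul) (hle' : (ul : ℝ) ≤ us)
    (hul' : -(Cw * x) ≤ (ul : ℝ) - wr ∧ (ul : ℝ) - wr ≤ Cw * x)
    (hus' : -(Cw * x) ≤ (us : ℝ) - wr ∧ (us : ℝ) - wr ≤ Cw * x) (hηx : η ≤ x)
    (hXge : x * J ≤ 2 * X) (hX1 : (1 : ℝ) ≤ X) (hE1 : 1 ≤ E)
    (hElog' : Real.log E ≤ (η + 10 * e) * J) (f1 : |rul - v₀ - v * (ul - wr)| ≤ e)
    (f2 : |tul - g - (1 + ρ) * (ul - wr)| ≤ e) (hvb : (Va : ℝ) ≤ (v₀ + v * (us - wr) + 2 * e) * J)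
    (hrb : (Rt : ℝ) ≤ (g - wr + ρ * (us - wr) + 2 * e) * J)
    (hga : ∀ ω, ∃ z : ℤ, a' ω = z / 2 ^ Va) (hgt : ∀ ω, ∃ z : ℤ, t' ω = z / 2 ^ Rt)
    (hsl : ∀ ω, A ω → s ω = frs zl ω) (hcl1 : Fcl F A ul ((ul : ℝ) + rul) tul E zl a' s t') :
    CH p (fun ω => (a' ω, s ω, t' ω)) (fun ω => (zl ω, F.W ω)) ≤
      (2 * (2 * (v + ρ) * Cw + 28) + 6) * X := by
  have hl2 : 0 < Real.log 2 := Real.log_pos (by norm_num)
  have hl2' : Real.log 2 < 1 := by
    have := Real.log_two_lt_d9
    linarith only [hl2, this]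
  have hvL : 0 < v * L := by positivity
  have hrot : 0 ≤ rul ∧ 0 ≤ tul - ul := by
    rw [abs_le] at f1 f2
    have h1 : v * (-(L / 2)) ≤ v * (ul - wr) := mul_le_mul_of_nonneg_left (by linarith only [hu]) hv.le
    have h2 : ρ * (-(L / 2)) ≤ ρ * (ul - wr) := mul_le_mul_of_nonneg_left (by linarith only [hu]) hρ0
    have h3 : ρ * L ≤ v * L := mul_le_mul_of_nonneg_right hρv hL0.le
    constructor
    · linarith only [h1, f1.1, g10, hLG, hvL, hL0, heL]
    · linarith only [h2, h3, f2.1, g10, g11, hLG, hvL, hL0, heL]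
  obtain ⟨nu₀, hnu₀⟩ : ∃ n : ℕ, n = ⌊((ul : ℝ) + rul) * J⌋₊ := ⟨_, rfl⟩
  obtain ⟨nu₁, hnu₁⟩ : ∃ n : ℕ, n = ⌊tul * J⌋₊ := ⟨_, rfl⟩
  obtain ⟨nr, hnr⟩ : ∃ n : ℕ, n = ⌊(ul : ℝ) * J⌋₊ := ⟨_, rfl⟩
  have hul0 : 0 ≤ (ul : ℝ) := by linarith only [hu, g9, hLG, hvL, hL0]
  have hnr0 : nr ≤ nu₀ := by
    rw [hnr, hnu₀]
    exact Nat.floor_mono (mul_le_mul_of_nonneg_right (by linarith only [hrot.1]) hJ0.le)
  have hnr1 : nr ≤ nu₁ := by
    rw [hnr, hnu₁]
    exact Nat.floor_mono (mul_le_mul_of_nonneg_right (by linarith only [hrot.2]) hJ0.le)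
  have hsub : ∀ {x y : ℕ}, x ≤ y → E * (2 : ℝ) ^ x / 2 ^ y = E / 2 ^ (y - x) := by
    intro x y hxy
    obtain ⟨z, rfl⟩ := Nat.exists_eq_add_of_le hxy
    rw [Nat.add_sub_cancel_left, pow_add]
    field_simp
  have c1 := frame_cnt (F := F) (p := p) (zl := zl)
    (Va := Va) (Rt := Rt) (n₀ := nu₀ - nr) (n₁ := nu₁ - nr) (E := E) (s := s) hp hE1 hga
    hgt (fun ω hω => hsl ω (hpA ω hω)) (fun ω hω => by
      have h1 := (hcl1 ω (hpA ω hω)).1
      rw [← hnr, ← hnu₀, hsub hnr0] at h1
      exact h1) (fun ω hω => by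
      have h1 := (hcl1 ω (hpA ω hω)).2.2
      rw [← hnr, ← hnu₁, hsub hnr1, hsl ω (hpA ω hω), sub_self, zero_mul, add_zero] at h1
      exact h1)
  exact by
   rw [abs_le] at f1 f2
   have f1J := mul_le_mul_of_nonneg_right f1.1 hJ0.le
   have f2J := mul_le_mul_of_nonneg_right f2.1 hJ0.le
   have hexJ : e * (J : ℝ) ≤ x * J := mul_le_mul_of_nonneg_right hex1 hJ0.le
   have hfl0 : ((ul : ℝ) + rul) * J < nu₀ + 1 := by
     rw [hnu₀]; exact Nat.lt_floor_add_one _
   have hfl1 : tul * J < nu₁ + 1 := by rw [hnu₁]; exact Nat.lt_floor_add_one _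
   have hflr : (nr : ℝ) ≤ ul * J := by rw [hnr]; exact Nat.floor_le (by positivity)
   have husul : ((us : ℝ) - ul) * J ≤ 2 * (Cw * x * J) := by
     have h1 : (us : ℝ) - ul ≤ 2 * (Cw * x) := by linarith only [hul'.1, hus'.2]
     have := mul_le_mul_of_nonneg_right h1 hJ0.le
     linarith only [this]
   have hxJ0 : 0 < x * (J : ℝ) := by positivity
   have d1 : ((Va - (nu₀ - nr) : ℕ) : ℝ) ≤ v * (2 * (Cw * x * J)) + 3 * (x * J) + 1 := by
     rcases le_total (nu₀ - nr) Va with h1 | h1
     · rw [Nat.cast_sub h1, Nat.cast_sub hnr0]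
       have h3 : v * (((us : ℝ) - ul) * J) ≤ v * (2 * (Cw * x * J)) :=
         mul_le_mul_of_nonneg_left husul hv.le
       linarith only [hvb, h3, f1J, hfl0, hflr, hexJ]
     · rw [Nat.sub_eq_zero_of_le h1]
       push_cast
       positivity
   have d2 : ((Rt - (nu₁ - nr) : ℕ) : ℝ) ≤ ρ * (2 * (Cw * x * J)) + 3 * (x * J) + 1 := by
     rcases le_total (nu₁ - nr) Rt with h1 | h1
     · rw [Nat.cast_sub h1, Nat.cast_sub hnr1]
       have h3 : ρ * (((us : ℝ) - ul) * J) ≤ ρ * (2 * (Cw * x * J)) :=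
         mul_le_mul_of_nonneg_left husul hρ0
       linarith only [hrb, h3, f2J, hfl1, hflr, hexJ]
     · rw [Nat.sub_eq_zero_of_le h1]
       push_cast
       positivity
   exact by
    have d3 : Real.log (2 * E + 1) ≤ 2 + (η + 10 * e) * J := by
      have h1 : Real.log (2 * E + 1) ≤ Real.log (3 * E) :=
        Real.log_le_log (by linarith only [hE1, hl2, hl2']) (by linarith only [hE1])
      have h2 : Real.log (3 * E) = Real.log 3 + Real.log E :=
        Real.log_mul (by norm_num) (by linarith only [hE1, hl2, hl2'])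
      have h3 : Real.log 3 ≤ 2 := by
        have := Real.log_le_sub_one_of_pos (show (0 : ℝ) < 3 by norm_num)
        linarith only [this]
      linarith only [h1, h2, h3, hElog']
    have d4 : (η + 10 * e) * (J : ℝ) ≤ 11 * (x * J) := by
      have h1 : η * (J : ℝ) ≤ x * J := mul_le_mul_of_nonneg_right hηx hJ0.le
      linarith only [h1, hexJ]
    have d5 : (((Va - (nu₀ - nr) : ℕ) : ℝ) + ((Rt - (nu₁ - nr) : ℕ) : ℝ)) * Real.log 2 ≤
        ((Va - (nu₀ - nr) : ℕ) : ℝ) + ((Rt - (nu₁ - nr) : ℕ) : ℝ) := by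
      have h1 : (0 : ℝ) ≤ ((Va - (nu₀ - nr) : ℕ) : ℝ) + ((Rt - (nu₁ - nr) : ℕ) : ℝ) := by
        positivity
      have := mul_le_mul_of_nonneg_left hl2'.le h1
      linarith only [this]
    have d6 : (2 * (v + ρ) * Cw + 28) * (x * J) ≤ (2 * (v + ρ) * Cw + 28) * (2 * X) :=
      mul_le_mul_of_nonneg_left hXge (by positivity)
    linarith only [c1, d1, d2, d3, d4, d5, d6, hX1]

/-- **(ROW)** -/
theorem rowf_of (hLD : LDTwoStmt) : RowFStmt := by
  intro S a₁ R h₁ i₀ c s₂ r₁ D σ hC act K W v₁ t₁ e₁ Q₀ P g v₀ v ρ a₀ α hLoc hρv hρ0 N Cw κ ϖ δ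
    hCw hκ hκ1 hϖ hδ
  have hl2 : 0 < Real.log 2 := Real.log_pos (by norm_num)
  have hl2' : Real.log 2 < 1 := by
    have := Real.log_two_lt_d9
    linarith only [hl2, this]
  have hv : 0 < v := hρ0.trans hρv
  have hLD' := hLD S a₁ R h₁ i₀ c s₂ r₁ D σ hC act K W v₁ t₁ e₁ Q₀ P g v₀ v ρ a₀ α hLoc
  have hrate := hLoc.rate
  generalize W g = wr at hLD' ⊢
  obtain ⟨jm, hjm⟩ : ∃ jm : ℕ, jm = ⌈2 / κ⌉₊ := ⟨_, rfl⟩
  obtain ⟨B₁, hB₁⟩ : ∃ B₁ : ℝ, B₁ = 2 * (2 * (v + ρ) * Cw + 28) + 6 := ⟨_, rfl⟩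
  have hB₁0 : 0 < B₁ := by rw [hB₁]; positivity
  obtain ⟨C₁, hC₁⟩ : ∃ C₁ : ℝ, C₁ = (N + 1) * (jm * (B₁ / ϖ)) + (4 * (1 + v) * Cw + 7) := ⟨_, rfl⟩
  have hC₁0 : 0 < C₁ := by rw [hC₁]; positivity
  refine ⟨C₁, hC₁0, fun Cz hCz => ?_⟩
  by_cases hP : 0 < P ∧ P < 1 ∧ 0 < g - wr - v₀
  swap
  · refine ⟨1, 1, one_pos, one_pos, fun x L e G hx _ _ he _ hZ => ?_⟩
    exfalso
    refine hP ?_
    have z0 : 0 < L := by linarith only [he, hZ, hZ.eL, hZ.e0]
    have z1 : 0 < G := lt_of_lt_of_le (by positivity) hZ.LG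
    have z2 := hZ.g7
    have z3 := hZ.g8
    have z4 := hZ.g9
    have z5 := hZ.g10
    have z6 := hZ.g11
    exact ⟨by linarith only [z1, z3, z4, z5, z6], by linarith only [z1, z2], by linarith only [z1, z6]⟩
  obtain ⟨hP0, hP1, hg0⟩ := hP
  exact by
   obtain ⟨Cy, hCy⟩ : ∃ Cy : ℝ, Cy = Cz + 2 * (1 + v) * Cw := ⟨_, rfl⟩
   obtain ⟨Cr, hCr⟩ : ∃ Cr : ℝ, Cr = Cz + (1 + ρ) * Cw + 31 := ⟨_, rfl⟩
   obtain ⟨Cg, hCg⟩ : ∃ Cg : ℝ, Cg = v * Cw + 10 + 2 * (1 + v) * Cw + 2 + Cy := ⟨_, rfl⟩
   have hCw0 : 0 < Cw := by linarith only [hCw, hl2, hl2']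
   have hCy0 : 0 < Cy := by rw [hCy]; positivity
   have hCr0 : 0 < Cr := by rw [hCr]; positivity
   have hCg0 : 0 < Cg := by rw [hCg]; positivity
   have hCyw : Cw ≤ Cy := by
     rw [hCy]
     have : 0 ≤ v * Cw := by positivity
     linarith only [hCw, hl2, hl2', hCz, this]
   obtain ⟨εL, hεL⟩ : ∃ εL : ℝ, εL = δ * ϖ / (8 * Cy) := ⟨_, rfl⟩
   obtain ⟨εR, hεR⟩ : ∃ εR : ℝ, εR = δ / (8 * Cr) := ⟨_, rfl⟩
   have hεL0 : 0 < εL := by rw [hεL]; positivity
   have hεR0 : 0 < εR := by rw [hεR]; positivity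
   obtain ⟨ε₁, X₁, hε₁, hX₁, hLD1⟩ := hLD' εL hεL0
   obtain ⟨X₂, hX₂, hR1⟩ := rte hC hP0 hP1 hrate hϖ hεR0
   refine ⟨min 1 (ε₁ * Cy / 20), min (X₁ / Cy) (min (X₂ / Cr) ((g - wr - v₀) / Cg)),
     lt_min one_pos (by positivity), lt_min (by positivity) (lt_min (by positivity)
       (by positivity)), ?_⟩
   intro x L e G hx hxx hL he hex hZ ul us hul hus
   have hx1 : Cy * x ≤ X₁ := by
     have : x ≤ X₁ / Cy := hxx.trans (min_le_left _ _)
     rw [le_div_iff₀ hCy0] at this
     linarith only [this]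
   have hx2 : Cr * x ≤ X₂ := by
     have : x ≤ X₂ / Cr := (hxx.trans (min_le_right _ _)).trans (min_le_left _ _)
     rw [le_div_iff₀ hCr0] at this
     linarith only [this]
   have hx3 : Cg * x ≤ g - wr - v₀ := by
     have : x ≤ (g - wr - v₀) / Cg := (hxx.trans (min_le_right _ _)).trans (min_le_right _ _)
     rw [le_div_iff₀ hCg0] at this
     linarith only [this]
   exact by
    have hex1 : e ≤ x := by
      have : min 1 (ε₁ * Cy / 20) * x ≤ 1 * x := mul_le_mul_of_nonneg_right (min_le_left _ _) hx.le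
      linarith only [hex, this]
    have hex2 : 10 * e ≤ ε₁ * (Cy * x) / 2 := by
      have : min 1 (ε₁ * Cy / 20) * x ≤ ε₁ * Cy / 20 * x :=
        mul_le_mul_of_nonneg_right (min_le_right _ _) hx.le
      linarith only [hex, this]
    by_cases hle : ul ≤ us
    swap
    · refine ⟨1, one_pos, Clp.of one_pos 1 fun J hJ F A _ => ?_⟩
      intro w₀ Δ r V₀ H X Va Rt sg a t s a' t' al nu kk bb zl zs _ hV
      exfalso
      have hJ0 : (0 : ℝ) < J := by exact_mod_cast hJ
      have h1 := hV.ul1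
      have h2 := hV.us0
      have h3 : (w₀ : ℝ) ≤ ((w₀ + N * Δ : ℕ) : ℝ) := by exact_mod_cast Nat.le_add_right _ _
      have h4 : 0 < e * (J : ℝ) := mul_pos he hJ0
      have h5 : (ul : ℝ) * J < us * J := by linarith only [h1, h2, h3, h4]
      have h6 : (ul : ℝ) < us := lt_of_mul_lt_mul_right h5 hJ0.le
      exact hle (by exact_mod_cast h6.le)
    have hle' : (ul : ℝ) ≤ us := by exact_mod_cast hle
    have hul' := hul
    have hus' := hus
    rw [abs_le] at hul' hus'
    obtain ⟨η, hη⟩ : ∃ η : ℝ, η = min (ε₁ * (Cy * x) / 2) x := ⟨_, rfl⟩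
    have hη0 : 0 < η := by rw [hη]; exact lt_min (by positivity) hx
    have hηx : η ≤ x := by rw [hη]; exact min_le_right _ _
    have hηε : η ≤ ε₁ * (Cy * x) / 2 := by rw [hη]; exact min_le_left _ _
    have hCwx : Cw * x ≤ Cy * x := mul_le_mul_of_nonneg_right hCyw hx.le
    have hLD2 := hLD1 (Cy * x) (by positivity) hx1 us ul (hus.trans hCwx) (hul.trans hCwx) hle
    exact by
     have hR2 := hR1 (Cr * x) (by positivity) hx2
     obtain ⟨KK, hKK⟩ : ∃ KK : ℝ, KK = (Vd.K2 8 + Real.log 2) / ϖ + (Vd.K1 8 + Vd.K2 8) := ⟨_, rfl⟩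
     have hKK0 : 0 ≤ KK := by
       rw [hKK]
       have k1 := Vd.K1_nonneg (B := 8) (by norm_num)
       have k2 := Vd.K2_nonneg (B := 8) (by norm_num)
       positivity
     obtain ⟨J₁, hJ₁⟩ := exists_nat_gt (4 / (κ * x) + 8 * KK / (δ * x) + 1)
     refine ⟨η, hη0, Clp.mono (J₂ := J₁) (hC.pos.and (hLD2.and hR2)) ?_⟩
     rintro J hJ F A ⟨hPA, gL, gR⟩ w₀ Δ r V₀ H X Va Rt sg a t s a' t' al nu kk bb zl zs hsg hV hX hΔ
       hr hF hN
     have hJJ : (J₁ : ℝ) ≤ J := by exact_mod_cast hJ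
     have q1 : 0 < 4 / (κ * x) := by positivity
     have q2 : 0 ≤ 8 * KK / (δ * x) := by positivity
     have hJ0 : (0 : ℝ) < J := by linarith only [hl2, hl2', hJ₁, hJJ, q1, q2]
     have hxJ4 : 4 ≤ κ * (x * J) := by
       have h1 : 4 / (κ * x) ≤ J := by linarith only [hl2, hl2', hJ₁, hJJ, q2]
       rw [div_le_iff₀ (by positivity)] at h1
       linarith only [h1]
     have hxJ0 : 0 < x * (J : ℝ) := by positivity
     have hxJ4' : 4 ≤ x * J := by
       have : κ * (x * J) ≤ 1 * (x * J) := mul_le_mul_of_nonneg_right hκ1 hxJ0.le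
       linarith only [hxJ4, this]
     have hKX : 8 * KK ≤ δ * (x * J) := by
       have h1 : 8 * KK / (δ * x) ≤ J := by linarith only [hl2, hl2', hJ₁, hJJ, q1]
       rw [div_le_iff₀ (by positivity)] at h1
       linarith only [h1]
     have hXle : (X : ℝ) ≤ x * J := by rw [hX]; exact Nat.floor_le hxJ0.le
     have hXge : x * J ≤ 2 * X := by
       have : x * J < X + 1 := by rw [hX]; exact Nat.lt_floor_add_one _
       linarith only [hl2, hl2', hxJ4', this]
     exact by
      have hX1 : (1 : ℝ) ≤ X := by linarith only [hl2, hl2', hxJ4', hXge]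
      obtain ⟨k, hk⟩ : ∃ k : ℕ, k = ⌊κ * X⌋₊ := ⟨_, rfl⟩
      have hkge : κ * X ≤ 2 * k := by
        have h1 : κ * X < k + 1 := by rw [hk]; exact Nat.lt_floor_add_one _
        have h2 : 2 ≤ κ * X := by
          have := mul_le_mul_of_nonneg_left hXge hκ.le
          linarith only [hxJ4, this]
        linarith only [h1, h2]
      rw [← hk]
      -- levels
      have hpA : ∀ ω, 0 < Pool.Agent.H49.Ent.cond F.p A True ω → A ω := fun ω hω =>
        of_eq_true ((cond_pos_iff F.isLaw.nonneg A True ω).1 hω).2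
      have hp := isLaw_cond F.isLaw hPA
      have hL0 : 0 < L := by linarith only [he, hZ, hZ.eL, hZ.e0]
      have hwN : ∀ i ≤ N, (w₀ : ℝ) ≤ ((w₀ + i * Δ : ℕ) : ℝ) ∧
          ((w₀ + i * Δ : ℕ) : ℝ) ≤ ((w₀ + N * Δ : ℕ) : ℝ) := by
        intro i hi
        have := Nat.mul_le_mul_right Δ hi
        exact ⟨by exact_mod_cast Nat.le_add_right _ _, by exact_mod_cast (by omega)⟩
      have hVN : ∀ i ≤ N, (V₀ : ℝ) ≤ ((V₀ + i * r : ℕ) : ℝ) ∧
          ((V₀ + i * r : ℕ) : ℝ) ≤ ((V₀ + N * r : ℕ) : ℝ) := by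
        intro i hi
        have := Nat.mul_le_mul_right r hi
        exact ⟨by exact_mod_cast Nat.le_add_right _ _, by exact_mod_cast (by omega)⟩
      have hzl := hV.zl
      have hzu := hV.zu
      have hul1 := hV.ul1
      have hus0 := hV.us0
      have heJ : 0 < e * (J : ℝ) := mul_pos he hJ0
      have hw0N := (hwN N le_rfl).1
      exact by
       have hulw : |(ul : ℝ) - wr| ≤ L := by
         have h1 := hV.ul0
         have h2 : (ul : ℝ) * J ≤ (wr + L / 2) * J := by linarith only [hzu, hul1, heJ, hw0N]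
         have h3 : (ul : ℝ) ≤ wr + L / 2 := le_of_mul_le_mul_right h2 hJ0
         rw [abs_le]
         constructor <;> linarith
       have husw : |(us : ℝ) - wr| ≤ L := by
         have h1 := hV.us1
         have h2 : (wr - L / 2) * J ≤ (us : ℝ) * J := by linarith only [hzl, hus0, heJ, hw0N]
         have h3 : wr - L / 2 ≤ (us : ℝ) := le_of_mul_le_mul_right h2 hJ0
         rw [abs_le]
         constructor <;> linarith
       obtain ⟨f1, f2⟩ := hZ.aff ul hulw
       obtain ⟨f4, f3⟩ := hZ.aff us husw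
       obtain ⟨dd, hdd⟩ : ∃ dd : ℝ, dd = (1 + v) * ((us : ℝ) - ul) + 2 * e := ⟨_, rfl⟩
       have num : ∀ i ≤ N, ∀ q : ℕ, |(q : ℝ) - (P - g) * J| ≤ L / 2 * J → ∀ kk : ℕ, kk ≤ X →
           (|((q : ℝ) + ((w₀ + i * Δ : ℕ) : ℝ)) / J - us - (P - g)| ≤ Cy * x ∧
             ((us : ℝ) + (((q : ℝ) + ((w₀ + i * Δ : ℕ) : ℝ)) / J - us)) * J ≤
               q + ((w₀ + i * Δ : ℕ) : ℝ) ∧
             (q : ℝ) + (((V₀ + i * r : ℕ) : ℝ) + H) + ((w₀ + i * Δ : ℕ) : ℝ) + kk ≤
               ((σ 1).th us + (((q : ℝ) + ((w₀ + i * Δ : ℕ) : ℝ)) / J - us)) * J) ∧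
           (|((q : ℝ) + ((V₀ + i * r : ℕ) : ℝ) + ((w₀ + i * Δ : ℕ) : ℝ)) / J - ul - (σ 1).rot ul -
               (P - g)| ≤ Cy * x ∧
             (q : ℝ) + ((w₀ + i * Δ : ℕ) : ℝ) ≤ (ul + (((q : ℝ) + ((V₀ + i * r : ℕ) : ℝ) +
               ((w₀ + i * Δ : ℕ) : ℝ)) / J - ul - (σ 1).rot ul)) * J ∧
             ((ul : ℝ) + (σ 1).rot ul + (((q : ℝ) + ((V₀ + i * r : ℕ) : ℝ) +
               ((w₀ + i * Δ : ℕ) : ℝ)) / J - ul - (σ 1).rot ul)) * J ≤
               q + ((V₀ + i * r : ℕ) : ℝ) + ((w₀ + i * Δ : ℕ) : ℝ) ∧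
             (q : ℝ) + (((V₀ + i * r : ℕ) : ℝ) + H) + ((w₀ + i * Δ : ℕ) : ℝ) + kk ≤
               ((σ 1).th ul + (((q : ℝ) + ((V₀ + i * r : ℕ) : ℝ) + ((w₀ + i * Δ : ℕ) : ℝ)) / J - ul -
                 (σ 1).rot ul)) * J ∧
             (q : ℝ) + ((V₀ + i * r : ℕ) : ℝ) + ((w₀ + i * Δ : ℕ) : ℝ) + (dd + Cy * x) * J ≤
               (q : ℝ) + (((V₀ + i * r : ℕ) : ℝ) + H) + ((w₀ + i * Δ : ℕ) : ℝ) + kk) ∧
           |(q : ℝ) + (((V₀ + i * r : ℕ) : ℝ) + H) + ((w₀ + i * Δ : ℕ) : ℝ) + kk - P * J| ≤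
             (Cz + (1 + ρ) * Cw + 31) * x * J := by
         intro i hi q hq kk hkk
         have m0 := hV.rt 0 (Nat.zero_le N)
         have m0' := hV.rt' 0 (Nat.zero_le N)
         have mi := hV.rt i hi
         have mi' := hV.rt' i hi
         have mva := hV.va
         have mhs := hV.hs
         have mrs := hV.rs
         have cN : ((V₀ + N * r + H + X : ℕ) : ℝ) = ((V₀ + N * r : ℕ) : ℝ) + H + X := by push_cast; ring
         have ci : ((V₀ + i * r + H : ℕ) : ℝ) = ((V₀ + i * r : ℕ) : ℝ) + H := by push_cast; ring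
         have ch : ((H + X : ℕ) : ℝ) = (H : ℝ) + X := by push_cast; ring
         have c0 : ((V₀ + 0 * r + H : ℕ) : ℝ) = (V₀ : ℝ) + H := by push_cast; ring
         have c0' : ((w₀ + 0 * Δ : ℕ) : ℝ) = (w₀ : ℝ) := by push_cast; ring
         rw [cN] at mrs
         rw [ci] at mi mi'
         rw [ch] at mhs
         rw [c0, c0'] at m0'
         exact rowf_num (J := J) (x := x) (Cw := Cw) (C := Cz) (L := L) (e := e) (g := g) (wr := wr)
           (v₀ := v₀) (v := v) (ρ := ρ) (P := P) (ul := ul) (us := us) (rul := (σ 1).rot ul)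
           (tul := (σ 1).th ul) (tus := (σ 1).th us) (w₀ := w₀) (wi := ((w₀ + i * Δ : ℕ) : ℝ))
           (V₀ := V₀) (Vi := ((V₀ + i * r : ℕ) : ℝ)) (VN := ((V₀ + N * r : ℕ) : ℝ)) (H := H) (X := X)
           (kk := kk) (q := q) (dd := dd) (Y := Cy * x) hJ0 hx he.le hex1 hρ0.le hρv.le hCw0.le hCz.le
           hL hul hus hul1 (hwN i hi).1 (by linarith only [hus0, hwN, hi, (hwN i hi).2]) f1 f2 f3 (hVN i hi).1 (hVN i hi).2
           mva m0' mi mi' mhs mrs (Nat.cast_nonneg _) (by exact_mod_cast hkk) hXle hq hdd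
           (by rw [hCy]) (by rw [← hCy, ← hCg]; exact hx3)
       -- the entropy of the frame
       exact by
        obtain ⟨E, hE1, hElog, hcl1, hcl2⟩ := hN.cl
        have hElog' : Real.log E ≤ (η + 10 * e) * J := by
          have h1 : 0 ≤ 10 * (e * J) := by positivity
          have h2 : (η + 10 * e) * (J : ℝ) = η * J + 10 * (e * J) := by ring
          linarith only [hElog]
        obtain ⟨Fc, hFc⟩ : ∃ Fc, Fc = CH (Pool.Agent.H49.Ent.cond F.p A True)
            (fun ω => (a' ω, s ω, t' ω)) (fun ω => (zl ω, F.W ω)) := ⟨_, rfl⟩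
        have hfr : Fc ≤ B₁ * X := by
          rw [hFc, hB₁]
          exact rowf_fr hp hpA hJ0 hx he.le hex1 hρ0.le hρv.le hv hCw0.le hL0 hZ.LG hZ.eL hZ.g9 hZ.g10
            hZ.g11 hV.ul0 hle' hul' hus' hηx hXge hX1 hE1 hElog' f1 f2 hN.vb hN.rb hF.ga' hF.gt' hN.sl
            hcl1
        have h48 : (4 : ℝ) + 1 / 2 ^ (H + X) ≤ 8 := by
          have h1 : (1 : ℝ) / 2 ^ (H + X) ≤ 1 := div_le_self zero_le_one (one_le_pow₀ (by norm_num))
          linarith only [h1]
        -- the objects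
        obtain ⟨err, herr⟩ : ∃ err : ℝ, err = εL * (Cy * x) * J := ⟨_, rfl⟩
        obtain ⟨ps, hps⟩ : ∃ ps : ℕ → ℕ → ℕ → ℝ, ps = fun i j q => max 0
            (F.vdf (Pool.Agent.H49.Ent.cond F.p A True) sg (q + fw w₀ Δ i) (q + fv V₀ r i + fw w₀ Δ i)
              (q + (fv V₀ r i + H) + fw w₀ Δ i + (j + 1) * k) a' s t' F.W - err) := ⟨_, rfl⟩
        have hps0 : ∀ i j q, 0 ≤ ps i j q := by
          intro i j q
          rw [hps]
          exact le_max_left _ _
        obtain ⟨fl, hfl⟩ : ∃ fl : ℕ → ℕ → ℕ → ℝ, fl = fun i j q =>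
            if (j + 1) * k ≤ X then ps i j q / ϖ else 0 := ⟨_, rfl⟩
        have hfl0 : ∀ i j q, 0 ≤ fl i j q := by
          intro i j q
          rw [hfl]
          show 0 ≤ if (j + 1) * k ≤ X then ps i j q / ϖ else 0
          split_ifs
          · exact div_nonneg (hps0 i j q) hϖ.le
          · exact le_rfl
        exact by
         obtain ⟨X', hX'⟩ : ∃ X' : ℕ, X' = ⌈dd * J⌉₊ + 2 := ⟨_, rfl⟩
         have hdd0 : 0 ≤ dd := by
           rw [hdd]
           have : 0 ≤ (1 + v) * ((us : ℝ) - ul) := mul_nonneg (by linarith only [hρv, hρ0, hl2, hl2']) (by linarith only [hle'])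
           linarith only [he, this]
         have hX'1 : dd * J + 2 ≤ X' := by
           rw [hX']
           push_cast
           linarith only [Nat.le_ceil (dd * (J : ℝ))]
         have hX'2 : (X' : ℝ) ≤ C₁ * X := by
           have h1 : ((⌈dd * (J : ℝ)⌉₊ : ℕ) : ℝ) < dd * J + 1 :=
             Nat.ceil_lt_add_one (mul_nonneg hdd0 hJ0.le)
           have h2 : dd * J ≤ (1 + v) * (2 * (Cw * (x * J))) + 2 * (x * J) := by
             rw [hdd]
             have h3 : (1 + v) * (((us : ℝ) - ul) * J) ≤ (1 + v) * (2 * (Cw * (x * J))) := by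
               refine mul_le_mul_of_nonneg_left ?_ (by linarith only [hρv, hρ0, hl2, hl2'])
               have h4 : (us : ℝ) - ul ≤ 2 * (Cw * x) := by linarith only [hul', hus']
               have := mul_le_mul_of_nonneg_right h4 hJ0.le
               linarith only [this]
             have h5 : e * (J : ℝ) ≤ x * J := mul_le_mul_of_nonneg_right hex1 hJ0.le
             linarith only [h3, h5]
           have h6 : ((1 + v) * (2 * Cw) + 2) * (x * J) ≤ ((1 + v) * (2 * Cw) + 2) * (2 * X) :=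
             mul_le_mul_of_nonneg_left hXge (by positivity)
           have h7 : 0 ≤ ((N : ℝ) + 1) * (jm * (B₁ / ϖ)) * X := by positivity
           rw [hX', hC₁]
           push_cast
           linarith only [hl2, hl2', hxJ4', hXge, h1, h2, h6, h7]
         refine ⟨X', fun q => ∑ i ∈ range (N + 1), ∑ j ∈ range jm, fl i j q, by omega, hX'2,
           fun q => Finset.sum_nonneg fun i _ => Finset.sum_nonneg fun j _ => hfl0 i j q, ?_, ?_⟩
         · intro qb n hq1 hq2
           have hij : ∀ i ≤ N, ∀ j, (j + 1) * k ≤ X →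
               ∑ m ∈ range n, ps i j (qb + m * X') ≤ B₁ * X := by
             intro i hi j hj
             have hqm : ∀ m < n, |((qb + m * X' : ℕ) : ℝ) - (P - g) * J| ≤ L / 2 * J := by
               intro m hm
               rw [abs_le] at hq1 hq2 ⊢
               have h1 : (qb : ℝ) ≤ ((qb + m * X' : ℕ) : ℝ) := by exact_mod_cast Nat.le_add_right _ _
               have h2 : ((qb + m * X' : ℕ) : ℝ) ≤ ((qb + n * X' : ℕ) : ℝ) := by
                 have := Nat.mul_le_mul_right X' hm.le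
                 exact_mod_cast (by omega)
               constructor <;> linarith [hq1.1, hq2.2]
             obtain ⟨ls, hls0, hlsS, hlsv⟩ := gL sg hF.bij hsg zs zl
               (hN.ns.mono (Nat.floor_mono (mul_le_mul_of_nonneg_right (by linarith only [he, hex2, hηε]) hJ0.le))
                 (Nat.floor_mono (mul_le_mul_of_nonneg_right (by linarith only [he, hex2, hηε]) hJ0.le)))
               (hN.nl.mono (Nat.floor_mono (mul_le_mul_of_nonneg_right (by linarith only [he, hex2, hηε]) hJ0.le))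
                 (Nat.floor_mono (mul_le_mul_of_nonneg_right (by linarith only [he, hex2, hηε]) hJ0.le)))
               a' s t' E hN.fz (fun ω hω => by
                 obtain ⟨b1, b2, b3⟩ := hF.bd ω hω
                 exact ⟨b1.trans (by norm_num), b2.trans (by norm_num), b3.trans h48⟩) hE1
               (by
                 have h1 : (η + 10 * e) * (J : ℝ) ≤ ε₁ * (Cy * x) * J :=
                   mul_le_mul_of_nonneg_right (by linarith only [hex2, hηε]) hJ0.le
                 linarith only [hElog, h1]) hcl2 hcl1 n 1 dd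
               (fun m => qb + m * X' + fw w₀ Δ i) (fun m => qb + m * X' + fv V₀ r i + fw w₀ Δ i)
               (fun m => qb + m * X' + (fv V₀ r i + H) + fw w₀ Δ i + (j + 1) * k)
               (fun m => (((qb + m * X' : ℕ) : ℝ) + ((w₀ + i * Δ : ℕ) : ℝ)) / J - us)
               (fun m => (((qb + m * X' : ℕ) : ℝ) + ((V₀ + i * r : ℕ) : ℝ) +
                 ((w₀ + i * Δ : ℕ) : ℝ)) / J - ul - (σ 1).rot ul)
               (by
                 rw [hdd]
                 have : 0 ≤ v * ((us : ℝ) - ul) := mul_nonneg hv.le (by linarith only [hle'])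
                 linarith only [he, this])
               (by
                 rw [hdd]
                 rw [abs_le] at f1 f4
                 linarith only [f1, f4])
               (fun m hm => by
                 obtain ⟨⟨n1, n2, n3⟩, -, -⟩ := num i hi (qb + m * X') (hqm m hm) ((j + 1) * k) hj
                 refine ⟨n1, n2.trans (le_of_eq ?_), le_trans (le_of_eq ?_) n3⟩
                 · unfold fw
                   push_cast
                   ring
                 · unfold fw fv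
                   push_cast
                   ring)
               (fun m hm => by
                 obtain ⟨-, ⟨n1, n2, n3, n4, n5⟩, -⟩ :=
                   num i hi (qb + m * X') (hqm m hm) ((j + 1) * k) hj
                 refine ⟨n1, le_trans (le_of_eq ?_) n2, n3.trans (le_of_eq ?_),
                   le_trans (le_of_eq ?_) n4, le_trans (le_of_eq ?_) (n5.trans (le_of_eq ?_))⟩
                 · unfold fw
                   push_cast
                   ring
                 · unfold fw fv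
                   push_cast
                   ring
                 · unfold fw fv
                   push_cast
                   ring
                 · unfold fw fv
                   push_cast
                   ring
                 · unfold fw fv
                   push_cast
                   ring)
               (fun m hm => by
                 constructor
                 · have e1 : (((((qb + (m + 1) * X' : ℕ) : ℝ) + ((V₀ + i * r : ℕ) : ℝ) +
                       ((w₀ + i * Δ : ℕ) : ℝ)) / J - ul - (σ 1).rot ul)) * J =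
                       ((((qb + m * X' : ℕ) : ℝ) + ((V₀ + i * r : ℕ) : ℝ) +
                       ((w₀ + i * Δ : ℕ) : ℝ)) / J - ul - (σ 1).rot ul) * J + X' := by
                     push_cast
                     field_simp
                     ring
                   show (((((qb + m * X' : ℕ) : ℝ) + ((V₀ + i * r : ℕ) : ℝ) +
                       ((w₀ + i * Δ : ℕ) : ℝ)) / J - ul - (σ 1).rot ul) + dd) * J + 2 ≤
                       (((((qb + (m + 1) * X' : ℕ) : ℝ) + ((V₀ + i * r : ℕ) : ℝ) +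
                       ((w₀ + i * Δ : ℕ) : ℝ)) / J - ul - (σ 1).rot ul)) * J
                   rw [e1, add_mul]
                   linarith only [hX'1]
                 · show qb + m * X' + (fv V₀ r i + H) + fw w₀ Δ i + (j + 1) * k ≤
                     qb + (m + 1) * X' + (fv V₀ r i + H) + fw w₀ Δ i + (j + 1) * k
                   have := Nat.mul_le_mul_right X' (Nat.le_succ m)
                   have e2 : (m + 1) * X' = m.succ * X' := rfl
                   omega)
             rw [Nat.cast_one, one_mul, ← hFc] at hlsS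
             refine le_trans (Finset.sum_le_sum fun m hm => ?_) (hlsS.trans hfr)
             have h1 := hlsv m (Finset.mem_range.1 hm)
             rw [hps]
             refine max_le (hls0 m) ?_
             rw [herr]
             linarith only [h1]
           have e1 : ∑ m ∈ range n, ∑ i ∈ range (N + 1), ∑ j ∈ range jm, fl i j (qb + m * X') =
               ∑ i ∈ range (N + 1), ∑ j ∈ range jm, ∑ m ∈ range n, fl i j (qb + m * X') := by
             rw [Finset.sum_comm]
             exact Finset.sum_congr rfl fun i _ => Finset.sum_comm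
           rw [e1]
           have e2 : ∑ i ∈ range (N + 1), ∑ j ∈ range jm, ∑ m ∈ range n, fl i j (qb + m * X') ≤
               ∑ _i ∈ range (N + 1), ∑ _j ∈ range jm, B₁ * X / ϖ := by
             refine Finset.sum_le_sum fun i hi => Finset.sum_le_sum fun j _ => ?_
             by_cases hj : (j + 1) * k ≤ X
             · have h1 : ∀ m, fl i j (qb + m * X') = ps i j (qb + m * X') / ϖ := by
                 intro m
                 rw [hfl]
                 show (if (j + 1) * k ≤ X then ps i j (qb + m * X') / ϖ else 0) = _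
                 rw [if_pos hj]
               simp only [h1]
               rw [← Finset.sum_div]
               exact div_le_div_of_nonneg_right (hij i (by
                 have := Finset.mem_range.1 hi
                 omega) j hj) hϖ.le
             · have h1 : ∀ m, fl i j (qb + m * X') = 0 := by
                 intro m
                 rw [hfl]
                 show (if (j + 1) * k ≤ X then ps i j (qb + m * X') / ϖ else 0) = _
                 rw [if_neg hj]
               simp only [h1]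
               rw [Finset.sum_const_zero]
               positivity
           refine e2.trans ?_
           rw [Finset.sum_const, Finset.sum_const, Finset.card_range, Finset.card_range, nsmul_eq_mul,
             nsmul_eq_mul, hC₁]
           have e3 : ((N + 1 : ℕ) : ℝ) * ((jm : ℝ) * (B₁ * X / ϖ)) =
               ((N : ℝ) + 1) * (jm * (B₁ / ϖ)) * X := by
             push_cast
             ring
           rw [e3]
           have e4 : 0 ≤ (4 * (1 + v) * Cw + 7) * (X : ℝ) := by positivity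
           linarith only [e4]
         · intro i hi q hq j hj EE hEE
           have hkX : (j + 1) * k ≤ X := hj
           have hjm' : j < jm := by
             have h1 : ((j : ℝ) + 1) * k ≤ X := by exact_mod_cast hj
             have h2 : ((j : ℝ) + 1) * (κ * X / 2) ≤ ((j : ℝ) + 1) * k :=
               mul_le_mul_of_nonneg_left (by linarith only [hkge]) (by positivity)
             have h3 : (((j : ℝ) + 1) * (κ / 2)) * X ≤ 1 * X := by linarith only [h1, h2]
             have h4 : ((j : ℝ) + 1) * (κ / 2) ≤ 1 := le_of_mul_le_mul_right h3 (by linarith only [hl2, hl2', hxJ4', hXge])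
             have h5 : (j : ℝ) + 1 ≤ 2 / κ := by
               rw [le_div_iff₀ hκ]
               linarith only [h4]
             have h6 : (j : ℝ) + 1 ≤ jm := by
               rw [hjm]
               exact h5.trans (Nat.le_ceil _)
             have h7 : j + 1 ≤ jm := by exact_mod_cast h6
             omega
           obtain ⟨-, -, n1⟩ := num i hi q hq (j * k) (by
             have : j * k ≤ (j + 1) * k := Nat.mul_le_mul_right k (Nat.le_succ j)
             omega)
           obtain ⟨-, -, n2⟩ := num i hi q hq ((j + 1) * k) hj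
           have hEE' : ϖ * Pe F.p A ≤ Pe F.p (fun ω => A ω ∧ EE ω) := by
             rw [Pe_cond EE, le_div_iff₀ hPA] at hEE
             exact hEE
           have hR := gR (fun ω => A ω ∧ EE ω) (fun _ h => h.1) hEE'
             (q + (fv V₀ r i + H) + fw w₀ Δ i + j * k)
             (q + (fv V₀ r i + H) + fw w₀ Δ i + j * k + k) (Nat.le_add_right _ _)
             (le_trans (le_of_eq (by unfold fw fv; push_cast; rfl)) (n1.trans
               (le_of_eq (by rw [hCr]))))
             (le_trans (le_of_eq (by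
               have e9 : q + (fv V₀ r i + H) + fw w₀ Δ i + j * k + k =
                 q + (fv V₀ r i + H) + fw w₀ Δ i + (j + 1) * k := by ring
               rw [e9]; unfold fw fv; push_cast; rfl)) (n2.trans (le_of_eq (by rw [hCr]))))
           rw [← rowf_cond F.p hPA.ne'] at hR
           have hR' : CH (Pool.Agent.H49.Ent.cond (Pool.Agent.H49.Ent.cond F.p A True) EE True)
               (F.X (q + (fv V₀ r i + H) + fw w₀ Δ i + j * k + k))
               (fun ω => (F.X (q + (fv V₀ r i + H) + fw w₀ Δ i + j * k) ω, F.W ω)) ≤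
               (3 - c) * k * Real.log 2 + εR * (Cr * x) * J := by
             refine hR.trans (le_of_eq ?_)
             push_cast
             ring
           have hLv : F.vdf (Pool.Agent.H49.Ent.cond F.p A True) sg (q + fw w₀ Δ i)
               (q + fv V₀ r i + fw w₀ Δ i) (q + (fv V₀ r i + H) + fw w₀ Δ i + j * k + k) a' s t' F.W ≤
               err + ps i j q := by
             have e1 : q + (fv V₀ r i + H) + fw w₀ Δ i + j * k + k =
               q + (fv V₀ r i + H) + fw w₀ Δ i + (j + 1) * k := by ring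
             rw [e1, hps]
             have := le_max_right 0 (F.vdf (Pool.Agent.H49.Ent.cond F.p A True) sg (q + fw w₀ Δ i)
               (q + fv V₀ r i + fw w₀ Δ i) (q + (fv V₀ r i + H) + fw w₀ Δ i + (j + 1) * k) a' s t' F.W -
               err)
             linarith only [this]
           have key := row_block (F := F) hp hF.bij (r := q + fw w₀ Δ i)
             (U := q + fv V₀ r i + fw w₀ Δ i) (P := q + (fv V₀ r i + H) + fw w₀ Δ i + j * k) (k := k)
             (by omega) (by omega) (fun ω hω => by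
               obtain ⟨b1, b2, b3⟩ := hF.bd ω (hpA ω hω)
               exact ⟨b1.trans (by norm_num), b2.trans (by norm_num), b3.trans h48⟩) hϖ hEE hR' hLv
           have e1 : q + (fv V₀ r i + H) + fw w₀ Δ i + j * k + k =
               q + (fv V₀ r i + H) + fw w₀ Δ i + (j + 1) * k := by ring
           rw [e1] at key
           refine key.trans ?_
           rw [← hKK]
           have l1 : ps i j q / ϖ ≤ ∑ i ∈ range (N + 1), ∑ j ∈ range jm, fl i j q := by
             have h1 : fl i j q = ps i j q / ϖ := by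
               rw [hfl]
               show (if (j + 1) * k ≤ X then ps i j q / ϖ else 0) = _
               rw [if_pos hj]
             rw [← h1]
             have h2 : fl i j q ≤ ∑ j ∈ range jm, fl i j q :=
               Finset.single_le_sum (f := fun j => fl i j q) (fun j _ => hfl0 i j q)
                 (Finset.mem_range.2 hjm')
             have h3 : ∑ j ∈ range jm, fl i j q ≤ ∑ i ∈ range (N + 1), ∑ j ∈ range jm, fl i j q :=
               Finset.single_le_sum (f := fun i => ∑ j ∈ range jm, fl i j q)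
                 (fun i _ => Finset.sum_nonneg fun j _ => hfl0 i j q)
                 (Finset.mem_range.2 (by omega))
             exact h2.trans h3
           have l2 : εR * (Cr * x) * J ≤ δ / 4 * X := by
             have h1 : εR * (Cr * x) * J = δ / 8 * (x * J) := by
               rw [hεR]
               field_simp
             rw [h1]
             have := mul_le_mul_of_nonneg_left hXge (by positivity : 0 ≤ δ / 8)
             linarith only [this]
           have l3 : err / ϖ ≤ δ / 4 * X := by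
             have h1 : err / ϖ = δ / 8 * (x * J) := by
               rw [herr, hεL]
               field_simp
             rw [h1]
             have := mul_le_mul_of_nonneg_left hXge (by positivity : 0 ≤ δ / 8)
             linarith only [this]
           have l4 : KK ≤ δ / 4 * X := by
             have := mul_le_mul_of_nonneg_left hXge hδ.le
             linarith only [hKX, this]
           rw [add_div]
           linarith only [hKK0, l1, l2, l3, l4]

end Pool.S6C
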