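import Pool.Agent.H88.S6F.Pro

/-!
# Falling: the inequalities for the rows
-/

set_option autoImplicit false

namespace Pool.S6C

open Finset Real

theorem rowf_num {J x Cw C L e g wr v₀ v ρ P ul us rul tul tus w₀ wi V₀ Vi VN H X kk q dd Y : ℝ}
    (hJ : 0 < J) (hx : 0 < x) (he : 0 ≤ e) (hex : e ≤ x) (hρ : 0 ≤ ρ) (hρv : ρ ≤ v)
    (hCw : 0 ≤ Cw) (hC : 0 ≤ C) (hLC : L ≤ C * x) (b1 : |ul - wr| ≤ Cw * x)
    (b2 : |us - wr| ≤ Cw * x) (a1 : ul * J + e * J ≤ w₀) (a2 : w₀ ≤ wi)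
    (a3 : wi + e * J ≤ us * J) (f1 : |rul - v₀ - v * (ul - wr)| ≤ e)
    (f2 : |tul - g - (1 + ρ) * (ul - wr)| ≤ e) (f3 : |tus - g - (1 + ρ) * (us - wr)| ≤ e)
    (g0 : V₀ ≤ Vi) (g1 : Vi ≤ VN) (va : VN ≤ v₀ * J + v * (w₀ - wr * J) - 20 * e * J)
    (rt0 : (g - wr) * J + ρ * (w₀ - wr * J) - 30 * e * J ≤ V₀ + H)
    (rti : Vi + H ≤ (g - wr) * J + ρ * (wi - wr * J) - 20 * e * J)
    (rti' : (g - wr) * J + ρ * (wi - wr * J) - 30 * e * J ≤ Vi + H)
    (hs : H + X ≤ (g - wr - v₀) * J + (ρ - v) * (ul - wr) * J - 50 * e * J)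
    (rs : VN + H + X ≤ (g - wr) * J + ρ * (us - wr) * J - 20 * e * J)
    (k0 : 0 ≤ kk) (kX : kk ≤ X) (hXx : X ≤ x * J) (hq : |q - (P - g) * J| ≤ L / 2 * J)
    (hdd : dd = (1 + v) * (us - ul) + 2 * e) (hY : Y = (C + 2 * (1 + v) * Cw) * x)
    (hroom : (v * Cw + 10 + 2 * (1 + v) * Cw + 2 + (C + 2 * (1 + v) * Cw)) * x ≤ g - wr - v₀) :
    (|(q + wi) / J - us - (P - g)| ≤ Y ∧ (us + ((q + wi) / J - us)) * J ≤ q + wi ∧
      q + (Vi + H) + wi + kk ≤ (tus + ((q + wi) / J - us)) * J) ∧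
    (|(q + Vi + wi) / J - ul - rul - (P - g)| ≤ Y ∧
      q + wi ≤ (ul + ((q + Vi + wi) / J - ul - rul)) * J ∧
      (ul + rul + ((q + Vi + wi) / J - ul - rul)) * J ≤ q + Vi + wi ∧
      q + (Vi + H) + wi + kk ≤ (tul + ((q + Vi + wi) / J - ul - rul)) * J ∧
      q + Vi + wi + (dd + Y) * J ≤ q + (Vi + H) + wi + kk) ∧
    |q + (Vi + H) + wi + kk - P * J| ≤ (C + (1 + ρ) * Cw + 31) * x * J := by
  have hv : 0 ≤ v := hρ.trans hρv
  have heJ : 0 ≤ e * J := mul_nonneg he hJ.le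
  have hexJ : e * J ≤ x * J := mul_le_mul_of_nonneg_right hex hJ.le
  have hxJ : 0 < x * J := mul_pos hx hJ
  have hX0 : 0 ≤ X := k0.trans kX
  rw [abs_le] at b1 b2 f1 f2 f3 hq
  have e1 : (q + wi) / J * J = q + wi := div_mul_cancel₀ _ hJ.ne'
  have e2 : (q + Vi + wi) / J * J = q + Vi + wi := div_mul_cancel₀ _ hJ.ne'
  -- products
  have B1 := mul_le_mul_of_nonneg_right b1.1 hJ.le
  have B1' := mul_le_mul_of_nonneg_right b1.2 hJ.le
  have B2 := mul_le_mul_of_nonneg_right b2.1 hJ.le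
  have B2' := mul_le_mul_of_nonneg_right b2.2 hJ.le
  have F1 := mul_le_mul_of_nonneg_right f1.1 hJ.le
  have F1' := mul_le_mul_of_nonneg_right f1.2 hJ.le
  have F2 := mul_le_mul_of_nonneg_right f2.1 hJ.le
  have F3 := mul_le_mul_of_nonneg_right f3.1 hJ.le
  have hL : L / 2 * J ≤ C * x / 2 * J := by
    refine mul_le_mul_of_nonneg_right ?_ hJ.le
    linarith
  have hCx : 0 ≤ C * x * J := by positivity
  have hCw' : 0 ≤ Cw * x * J := by positivity
  have hvC : 0 ≤ v * Cw * x * J := by positivity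
  have r1 : 0 ≤ ρ * (w₀ - ul * J) := mul_nonneg hρ (by linarith)
  have r2 : v * (w₀ - ul * J) ≤ v * (2 * (Cw * x * J)) :=
    mul_le_mul_of_nonneg_left (by linarith) hv
  have r3 : ρ * (wi - wr * J) ≤ ρ * (Cw * x * J) :=
    mul_le_mul_of_nonneg_left (by linarith) hρ
  have r3' : ρ * (-(Cw * x * J)) ≤ ρ * (wi - wr * J) :=
    mul_le_mul_of_nonneg_left (by linarith) hρ
  have hρC : 0 ≤ ρ * (Cw * x * J) := by positivity
  have r4 : (ρ - v) * (w₀ - wr * J) ≥ (ρ - v) * (Cw * x * J) := by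
    have : (v - ρ) * (w₀ - wr * J) ≤ (v - ρ) * (Cw * x * J) :=
      mul_le_mul_of_nonneg_left (by linarith) (by linarith)
    linarith
  -- the direction
  have D1 : rul * J ≤ V₀ := by linarith
  have D2 : Vi ≤ rul * J + v * (2 * (Cw * x * J)) := by linarith
  have hroomJ := mul_le_mul_of_nonneg_right hroom hJ.le
  have hYJ : Y * J = (C + 2 * (1 + v) * Cw) * x * J := by rw [hY]
  have hddJ : dd * J ≤ (1 + v) * (2 * (Cw * x * J)) + 2 * (e * J) := by
    rw [hdd]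
    have : (1 + v) * (us * J - ul * J) ≤ (1 + v) * (2 * (Cw * x * J)) :=
      mul_le_mul_of_nonneg_left (by linarith) (by linarith)
    linarith
  have D3 : (dd + Y) * J ≤ H := by
    have h1 : (dd + Y) * J = dd * J + Y * J := by ring
    rw [h1, hYJ]
    have h2 : (g - wr - v₀) * J + (ρ - v) * (Cw * x * J) - 10 * (e * J) ≤ H := by linarith
    have h3 : (ρ - v) * (Cw * x * J) ≥ -(v * (Cw * x * J)) := by linarith
    linarith
  refine ⟨⟨?_, ?_, ?_⟩, ⟨?_, ?_, ?_, ?_, ?_⟩, ?_⟩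
  · have h1 : (q + wi) / J - us - (P - g) = ((q - (P - g) * J) + (wi - us * J)) / J := by
      field_simp
      ring
    rw [h1, abs_div, abs_of_pos hJ, div_le_iff₀ hJ, hYJ, abs_le]
    constructor <;> linarith
  · have h1 : (us + ((q + wi) / J - us)) * J = (q + wi) / J * J := by ring
    rw [h1, e1]
  · have h1 : (tus + ((q + wi) / J - us)) * J = tus * J + (q + wi) / J * J - us * J := by ring
    rw [h1, e1]
    linarith
  · have h1 : (q + Vi + wi) / J - ul - rul - (P - g) =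
        ((q - (P - g) * J) + (wi - ul * J) + (Vi - rul * J)) / J := by
      field_simp
      ring
    rw [h1, abs_div, abs_of_pos hJ, div_le_iff₀ hJ, hYJ, abs_le]
    constructor <;> linarith
  · have h1 : (ul + ((q + Vi + wi) / J - ul - rul)) * J = (q + Vi + wi) / J * J - rul * J := by
      ring
    rw [h1, e2]
    linarith
  · have h1 : (ul + rul + ((q + Vi + wi) / J - ul - rul)) * J = (q + Vi + wi) / J * J := by ring
    rw [h1, e2]
  · have h1 : (tul + ((q + Vi + wi) / J - ul - rul)) * J =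
        tul * J + (q + Vi + wi) / J * J - ul * J - rul * J := by ring
    rw [h1, e2]
    linarith
  · linarith
  · rw [abs_le]
    constructor <;> linarith

end Pool.S6C
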