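import Pool.Agent.H72.S6B.Stm
import Pool.Agent.H98.S6B.H62P
import Pool.Agent.H36.S6.ActP

/-!
# TIME and the slopes of the local U-step in a class, the plane of directions is not visible

`tmh_thm`: TIME and the collisions of slopes, for any label of the window which determines the
frame.
-/

set_option autoImplicit false

namespace Pool.S6B

open Finset Real
open Pool.Agent.H49.Ent Pool.Agent.H32.Dense Pool.STK Pool.KA Pool.KA.Win Pool.KA.TRC
  Pool.KSAT Pool.K2S Pool.K2S.Rows Pool.K2S.FF Pool.PB Pool.S6K.Wfe Pool.UST Pool.S6U Pool.S6C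

section fr

variable {J : ℕ} {F : Fam 3 J} {A : F.Ω → Prop} {σ : Fin 3 → Fin 3} {wl wa wb : ℕ}
    {vp : ℕ → ℕ} {kap Hu HN : ℕ} {al nu kN nN : (Fin 3 → ℤ) × (ℕ × F.ζ) → ℝ} {a : ℕ → F.Ω → ℝ}
    {s t : F.Ω → ℝ} {B C : ℝ}

/-- The frames `UFrP`. -/
theorem UFi.toP (h : UFi F A σ wl wa wb vp kap Hu HN al nu kN nN a s t B C) :
    UFrP F A σ wl wa wb vp kap Hu HN al nu
      (fun ω => kN (Fam.pt F ω) - s ω * al (Fam.pt F ω) - t ω)
      (fun ω => nN (Fam.pt F ω) - s ω * nu (Fam.pt F ω)) a s t B C :=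
  ⟨h.bij, h.B1, h.C1, h.lw, h.wJ, h.mono, h.on1, fun ω hω => by
    have h1 := h.on2 ω hω
    have e : F.d ω (σ 2) - s ω * F.d ω (σ 1) - t ω * F.d ω (σ 0) -
        (nN (Fam.pt F ω) - s ω * nu (Fam.pt F ω)) -
        (kN (Fam.pt F ω) - s ω * al (Fam.pt F ω) - t ω) * F.d ω (σ 0) =
        (F.d ω (σ 2) - kN (Fam.pt F ω) * F.d ω (σ 0) - nN (Fam.pt F ω)) -
          s ω * (F.d ω (σ 1) - al (Fam.pt F ω) * F.d ω (σ 0) - nu (Fam.pt F ω)) := by ring
    rw [e]
    exact h1,
    fun ω ω' _ _ e1 e2 e3 => by simp only [e1, e2, e3, and_self], h.bal, h.bd, h.near, h.int,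
    h.clo, h.slm, h.slp⟩

end fr

/-- **(TMH)** TIME, the shape and the slopes in a class, for any label of the window which
determines the frame. -/
def TmHStmt : Prop :=
  ∀ (x₁ ϖ δ ε₁ γ : ℝ) (n d₀ : ℕ), 0 < x₁ → 0 < ϖ → 0 < δ → 0 < ε₁ → 0 < γ → 1 ≤ n →
  ∀ v cw : ℝ, 0 ≤ v → 0 < cw → ∃ κ₀ : ℝ, 0 < κ₀ ∧ ∀ κ : ℝ, 0 < κ → κ ≤ κ₀ →
  ∃ e₂ : ℝ, 0 < e₂ ∧ ∀ M : ℝ, 0 < M →
  ∀ (S : PCl 3) (a₁ R : ℝ) (i₀ : Fin 3) (rt act : ℚ → ℝ) (w₀ v₀ q₀ a₀ α : ℝ),
    UCs S a₁ R i₀ rt act w₀ v₀ v q₀ a₀ α →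
  ∃ L₀ : ℝ, 0 < L₀ ∧ ∀ L B C : ℝ, 0 < L → L ≤ L₀ → Clp S (fun J F A =>
    ∀ (σ : Fin 3 → Fin 3) (wl wa wb : ℕ) (vp : ℕ → ℕ) (kap Hu HN : ℕ)
      (al nu kN nN : (Fin 3 → ℤ) × (ℕ × F.ζ) → ℝ) (a : ℕ → F.Ω → ℝ) (s t : F.Ω → ℝ),
      UFi F A σ wl wa wb vp kap Hu HN al nu kN nN a s t B C → σ 0 = i₀ →
    ∀ qa qb d D : ℕ, UeN J w₀ v₀ v q₀ L M cw κ e₂ γ x₁ n wa wb vp kap Hu HN qa qb d D →
    0 < Pe F.p A ∧ vp wb ≤ D ∧ d₀ ≤ d ∧
    (0 < v → ∃ tt, Ush wa wb vp D (n * d) tt qa qb J γ) ∧
    (∀ E : F.Ω → Prop, ϖ ≤ Pe (Pool.Agent.H49.Ent.cond F.p A True) E →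
      ((J : ℝ) - wa) * Real.log 2 - δ * (n * d : ℕ) ≤
      CH (Pool.Agent.H49.Ent.cond (Pool.Agent.H49.Ent.cond F.p A True) E True) F.T
        (slam F wa)) ∧
    (∀ (w : ℕ) (V : Type) (wn : F.Ω → V), wa ≤ w → w ≤ wb → Det F.p (slam F w) wn →
      (∀ ω ω', A ω → A ω' → 0 < F.p ω → 0 < F.p ω' → wn ω = wn ω' →
        a w ω = a w ω' ∧ s ω = s ω' ∧ t ω = t ω') →
      ∀ E : F.Ω → Prop, ϖ ≤ Pe (Pool.Agent.H49.Ent.cond F.p A True) E →
      Pool.KAF.Pr (dbl (Pool.Agent.H49.Ent.cond (Pool.Agent.H49.Ent.cond F.p A True) E True) wn)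
        {v | |sl (vp w) D (a w) (fun ω => al (Fam.pt F ω)) v.1 -
          sl (vp w) D (a w) (fun ω => al (Fam.pt F ω)) v.2| <
          (2 : ℝ) ^ (-(x₁ * (n * d : ℕ)))} ≤ ε₁))

/-- **(TMH)** -/
theorem tmh_thm : TmHStmt := by
  intro x₁ ϖ δ ε₁ γ n d₀ hx₁ hϖ hδ hε₁ hγ hn v cw hv hcw
  have hn0 : (1 : ℝ) ≤ n := by exact_mod_cast hn
  have hnp : (0 : ℝ) < n := by linarith only [hn0]
  obtain ⟨κ₀, hκ₀⟩ : ∃ κ₀, κ₀ = min (1 / (4 * n * (1 + x₁))) (γ * cw / (8 * n * (1 + 1 / v))) :=
    ⟨_, rfl⟩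
  have hκ₀0 : 0 < κ₀ := by rw [hκ₀]; exact lt_min (by positivity) (by positivity)
  refine ⟨κ₀, hκ₀0, fun κ hκ hκκ => ?_⟩
  have hκ1 : 4 * n * (1 + x₁) * κ ≤ 1 := by
    have h1 : κ ≤ 1 / (4 * n * (1 + x₁)) := hκκ.trans (by rw [hκ₀]; exact min_le_left _ _)
    rw [le_div_iff₀ (by positivity)] at h1
    linarith only [h1]
  have hκ2 : 8 * n * (1 + 1 / v) * κ ≤ γ * cw := by
    have h1 : κ ≤ γ * cw / (8 * n * (1 + 1 / v)) := hκκ.trans (by rw [hκ₀]; exact min_le_right _ _)
    rw [le_div_iff₀ (by positivity)] at h1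
    linarith only [h1]
  obtain ⟨v', hv'⟩ : ∃ v' : ℝ, v' = if 0 < v then v else 1 := ⟨_, rfl⟩
  have hv'0 : 0 < v' := by
    rw [hv']
    split_ifs with h
    · exact h
    · exact one_pos
  obtain ⟨e₂, he₂⟩ : ∃ e₂, e₂ = min (x₁ * n * κ / 16) (v' * γ * cw / 16) := ⟨_, rfl⟩
  have he₂0 : 0 < e₂ := by rw [he₂]; exact lt_min (by positivity) (by positivity)
  have he₂1 : e₂ ≤ x₁ * n * κ / 16 := by rw [he₂]; exact min_le_left _ _
  have he₂2 : 0 < v → e₂ ≤ v * γ * cw / 16 := by
    intro h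
    have h1 : v' = v := by rw [hv', if_pos h]
    rw [← h1, he₂]
    exact min_le_right _ _
  refine ⟨e₂, he₂0, fun M hM S a₁ R i₀ rt act w₀ v₀ q₀ a₀ α hcls => ?_⟩
  exact by
   obtain ⟨hSt, hrt, hrt0, hact, hactm, hw0, hw1, hv1, hq0, hq1, hslr, hsla⟩ := hcls
   -- the size of the zone
   obtain ⟨cη, hcη⟩ : ∃ cη, cη = min (δ * n * κ / 4) (1 / 4) := ⟨_, rfl⟩
   have hcη0 : 0 < cη := by
     rw [hcη]
     exact lt_min (by positivity) (by norm_num)
   have hcη1 : cη ≤ δ * n * κ / 4 := by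
     rw [hcη]
     exact min_le_left _ _
   have hcη3 : cη ≤ 1 / 4 := by rw [hcη]; exact min_le_right _ _
   obtain ⟨δ₁, hδ₁, hs1⟩ := hslr (e₂ / 2) (by positivity)
   obtain ⟨L₀, hL₀⟩ : ∃ L₀, L₀ = min (min (δ₁ / 4) (min (w₀ / 4)
     ((1 - w₀) / 4))) (min (min (q₀ / (2 * (M + 2))) ((1 - q₀) / (2 * (M + 2))))
       ((1 - v₀) / (4 * (v + 2) * (1 + e₂)))) := ⟨_, rfl⟩
   have hL₀0 : 0 < L₀ := by
     rw [hL₀]
     have h1 : 0 < 1 - w₀ := by linarith only [hw1]
     have h2 : 0 < 1 - q₀ := by linarith only [hq1]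
     have h3 : 0 < 1 - v₀ := by linarith only [hv1]
     exact lt_min (lt_min (by positivity) (lt_min (by positivity)
       (by positivity))) (lt_min (lt_min (by positivity) (by positivity)) (by positivity))
   refine ⟨L₀, hL₀0, fun L B C hL hLL => ?_⟩
   rw [hL₀] at hLL
   have hMp : 0 < 2 * (M + 2) := by positivity
   obtain ⟨l12, l34⟩ := le_min_iff.1 hLL
   obtain ⟨l1, l2⟩ := le_min_iff.1 l12
   obtain ⟨l3, l4⟩ := le_min_iff.1 l34
   have f1 : 4 * L ≤ δ₁ := by linarith only [l1]
   have f3 : 4 * L ≤ w₀ := by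
     have := (le_min_iff.1 l2).1
     linarith only [this]
   exact by
    have f4 : 4 * L ≤ 1 - w₀ := by
      have := (le_min_iff.1 l2).2
      linarith only [this]
    have f5 : 2 * (M + 2) * L ≤ q₀ := by
      have := (le_min_iff.1 l3).1
      rw [le_div_iff₀ hMp] at this
      linarith only [this]
    have f6 : 2 * (M + 2) * L ≤ 1 - q₀ := by
      have := (le_min_iff.1 l3).2
      rw [le_div_iff₀ hMp] at this
      linarith only [this]
    have f7 : 4 * (v + 2) * (1 + e₂) * L ≤ 1 - v₀ := by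
      rw [le_div_iff₀ (by positivity)] at l4
      linarith only [l4]
    have hML : 0 < M * L := by positivity
    -- the numbers
    obtain ⟨h, hh⟩ : ∃ h, h = x₁ * n * κ * L / (16 * (v + 2)) := ⟨_, rfl⟩
    have hh0 : 0 < h := by rw [hh]; positivity
    have hhv : 16 * ((v + 2) * h) = x₁ * n * κ * L := by
      rw [hh]
      field_simp
    have hnk : 4 * (n * κ) + 4 * (x₁ * n * κ) ≤ 1 := by
      have e : 4 * n * (1 + x₁) * κ = 4 * (n * κ) + 4 * (x₁ * n * κ) := by ring
      linarith only [hκ1]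
    have hnκ0 : 0 < n * κ := by positivity
    have hxnκ0 : 0 < x₁ * n * κ := by positivity
    have hhL : h ≤ L := by
      have h1 : (v + 2) * h ≤ L / 64 := by
        have h2 : x₁ * n * κ * L ≤ 1 / 4 * L := mul_le_mul_of_nonneg_right (by linarith only [hκ1, hnκ0]) hL.le
        linarith only [hhv, h2]
      have h3 : 2 * h ≤ (v + 2) * h := mul_le_mul_of_nonneg_right (by linarith only [hv]) hh0.le
      linarith only [hh0, h1, h3]
    exact by
     obtain ⟨η, hη⟩ : ∃ η, η = cη * L := ⟨_, rfl⟩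
     have hη0 : 0 < η := by rw [hη]; positivity
     have hηL : η ≤ L / 4 := by
       rw [hη]
       have := mul_le_mul_of_nonneg_right hcη3 hL.le
       linarith only [this]
     obtain ⟨w₁, hw₁, hw₁'⟩ := rat_btw (show w₀ - 2 * L < w₀ - L by linarith only [hL])
     obtain ⟨w₂, hw₂, hw₂'⟩ := rat_btw (show w₀ + 2 * L < w₀ + 3 * L by linarith only [hL])
     have hwg : ∀ wg : ℚ, w₁ ≤ wg → wg ≤ w₂ → |(wg : ℝ) - w₀| ≤ 3 * L := by
       intro wg g1 g2
       have g1' : (w₁ : ℝ) ≤ wg := by exact_mod_cast g1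
       have g2' : (wg : ℝ) ≤ w₂ := by exact_mod_cast g2
       rw [abs_le]
       constructor <;> linarith
     have hrtg : ∀ wg : ℚ, w₁ ≤ wg → wg ≤ w₂ → rt wg ≤ v₀ + v * (wg - w₀) + 3 / 2 * e₂ * L := by
       intro wg g1 g2
       have g3 := hwg wg g1 g2
       have g4 := abs_le.1 (hs1 wg (lt_of_le_of_lt g3 (by linarith only [hδ₁, l1])))
       have g5 : e₂ / 2 * |(wg : ℝ) - w₀| ≤ e₂ / 2 * (3 * L) :=
         mul_le_mul_of_nonneg_left g3 (by positivity)
       linarith only [g4, g5, g4.2]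
     have hw₁0 : (0 : ℚ) ≤ w₁ := by
       have : (0 : ℝ) ≤ w₁ := by linarith only [hw0, f3, hw₁]
       exact_mod_cast this
     have hw₁₂ : w₁ < w₂ := by
       have : (w₁ : ℝ) < w₂ := by linarith only [hη0, hηL, hw₁', hw₂]
       exact_mod_cast this
     have hw₂1 : w₂ ≤ 1 := by
       have : (w₂ : ℝ) ≤ 1 := by linarith only [f4, hη0, hηL, hw₂']
       exact_mod_cast this
     -- the claims
     exact by
      have cP : Clp S (fun J F A => 0 < Pe F.p A) := Clp.of one_pos 0 fun J _ F A hS =>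
        lt_of_lt_of_le (Real.exp_pos _) (hSt 1 J F A hS).2.2.2
      have cT := (time_cls hSt (η := δ * n * κ * L / 2) (by positivity)).ev hϖ
      have cH := (h62p S a₁ R i₀ rt hSt hrt w₁ w₂ h ε₁ hw₁0 hw₁₂ hw₂1 hh0 hε₁ (by
        intro wg g1 g2
        refine ⟨hrt0 wg (hw₁0.trans g1) (g2.trans hw₂1), ?_⟩
        have g3 := hrtg wg g1 g2
        have g4 := (abs_le.1 (hwg wg g1 g2)).2
        have g5 : v * ((wg : ℝ) - w₀) ≤ v * (3 * L) := mul_le_mul_of_nonneg_left g4 hv
        have g6 : 4 * (v + 2) * (1 + e₂) * L = 4 * v * L + 8 * L + 4 * v * e₂ * L + 8 * e₂ * L := by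
          ring
        have g7 : 0 ≤ v * e₂ * L := by positivity
        have g8 : 0 ≤ e₂ * L := by positivity
        have g9 : 0 ≤ v * L := by positivity
        linarith only [hv1, f7, hhL, hη0, hηL, g3, g5, g7, g8]) B C).ev hϖ
      -- large resolutions
      obtain ⟨J₀, hJ₀⟩ := exists_nat_ge ((d₀ : ℝ) * 2 / (κ * L) + 4 / (γ * cw * L) + 1)
      refine Clp.mono (J₂ := J₀) (cP.and (cT.and cH)) ?_
      rintro J hJ F A ⟨hA0, gT, gH⟩ σ wl wa wb vp kap Hu HN al nu kN nN a s t hU hσ qa qb d D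
        hN
      have hJ0 : (J₀ : ℝ) ≤ J := by exact_mod_cast hJ
      have hJ1 : (d₀ : ℝ) * 2 / (κ * L) + 4 / (γ * cw * L) + 1 ≤ J := hJ₀.trans hJ0
      have j1 : 0 ≤ (d₀ : ℝ) * 2 / (κ * L) := by positivity
      have j2 : 0 ≤ 4 / (γ * cw * L) := by positivity
      have hJp : (0 : ℝ) < J := by linarith only [hκ1, he₂0, he₂1, hnκ0, hJ₀, hJ0, j1, j2]
      have j3 : (d₀ : ℝ) * 2 ≤ κ * L * J := by
        have : (d₀ : ℝ) * 2 / (κ * L) ≤ J := by linarith only [hκ1, he₂0, he₂1, hnκ0, hJ₀, hJ0, j2]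
        rw [div_le_iff₀ (by positivity)] at this
        linarith only [this]
      have j4 : 4 ≤ γ * cw * L * J := by
        have : 4 / (γ * cw * L) ≤ J := by linarith only [hκ1, he₂0, he₂1, hnκ0, hJ₀, hJ0, j1]
        rw [div_le_iff₀ (by positivity)] at this
        linarith only [this]
      exact by
       have hLJ : 0 < L * J := by positivity
       have hd1 := hN.d1
       have hd2 := hN.d2
       have hdd : d₀ ≤ d := by
         have : (d₀ : ℝ) ≤ d := by linarith only [j3, hd1]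
         exact_mod_cast this
       -- the block
       have hXr : ((n * d : ℕ) : ℝ) = n * d := by push_cast; ring
       have hX1 : n * κ * (L * J) / 2 ≤ ((n * d : ℕ) : ℝ) := by
         rw [hXr]
         have := mul_le_mul_of_nonneg_left hd1 hnp.le
         linarith only [this]
       have hX2 : ((n * d : ℕ) : ℝ) ≤ n * κ * (L * J) := by
         rw [hXr]
         have := mul_le_mul_of_nonneg_left hd2 hnp.le
         linarith only [this]
       have hX3 : ((n * d : ℕ) : ℝ) ≤ L * J / 4 := by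
         refine hX2.trans ?_
         have := mul_le_mul_of_nonneg_right (show n * κ ≤ 1 / 4 by linarith only [hκ1, he₂0, he₂1]) hLJ.le
         linarith only [this]
       have hxX1 : x₁ * n * κ * (L * J) / 2 ≤ x₁ * (n * d : ℕ) := by
         have := mul_le_mul_of_nonneg_left hX1 hx₁.le
         linarith only [this]
       have hxX2 : x₁ * (n * d : ℕ) ≤ L * J / 4 := by
         have h1 := mul_le_mul_of_nonneg_left hX2 hx₁.le
         have h2 := mul_le_mul_of_nonneg_right (show x₁ * n * κ ≤ 1 / 4 by linarith only [hκ1, hnκ0]) hLJ.le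
         linarith only [h1, h2]
       have hX00 : (0 : ℝ) ≤ (n * d : ℕ) := Nat.cast_nonneg _
       -- windows
       have hwab : wa ≤ wb := by
         have : (wa : ℝ) ≤ wb := by
           have := hN.ww
           have h1 : 0 ≤ cw * L * J := by positivity
           linarith only [this, h1]
         exact_mod_cast this
       exact by
        have hvm : ∀ w, wa ≤ w → w ≤ wb → (vp w : ℝ) ≤ vp wb := fun w g1 g2 => by
          exact_mod_cast hU.mono w wb g1 g2 le_rfl
        have hDv : (vp wb : ℝ) + x₁ * (n * d : ℕ) ≤ D := hN.D1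
        have hDv' : vp wb ≤ D := by
          have h1 : 0 ≤ x₁ * (n * d : ℕ) := by positivity
          have : (vp wb : ℝ) ≤ D := by linarith only [hDv, h1]
          exact_mod_cast this
        have hwX : wb + n * d ≤ J := by
          have h1 : (wb : ℝ) + (n * d : ℕ) ≤ J := by
            have g1 := hN.wb1
            have g2 : (w₀ + L) * (J : ℝ) + L * J / 4 ≤ J := by
              have : (w₀ + L + L / 4) * (J : ℝ) ≤ 1 * J :=
                mul_le_mul_of_nonneg_right (by linarith only [hw1, f4]) hJp.le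
              linarith only [this]
            linarith only [hX3, g1, g2]
          exact_mod_cast h1
        -- events
        have hev : ∀ E : F.Ω → Prop, ϖ ≤ Pe (Pool.Agent.H49.Ent.cond F.p A True) E →
            Pool.Agent.H49.Ent.cond (Pool.Agent.H49.Ent.cond F.p A True) E True =
              Pool.Agent.H49.Ent.cond F.p (fun ω => A ω ∧ E ω) True ∧
            Sub (fun ω => A ω ∧ E ω) A ∧ ϖ * Pe F.p A ≤ Pe F.p (fun ω => A ω ∧ E ω) := by
          intro E hE
          refine ⟨cond_and' F.p hA0.ne', fun ω hω => hω.1, ?_⟩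
          rw [Pe_cond, le_div_iff₀ hA0] at hE
          exact hE
        have hroom := hN.room
        have hroom' : ∀ w q X' : ℕ, wa ≤ w → w ≤ wb → qa ≤ q → q + X' ≤ qb + n * d → X' ≤ n * d →
            2 * (η * (J : ℝ)) ≤ δ * (n * d : ℕ) ∧ (q₀ - M * L) * (J : ℝ) ≤ q ∧
            (q : ℝ) + X' ≤ (q₀ + (M + 1) * L) * J ∧ (vp wb : ℝ) + q + η * J ≤ Hu ∧
            (kap : ℝ) + q + η * J ≤ HN ∧ (wb : ℝ) + vp wb + q + η * J ≤ J ∧
            (wb : ℝ) + kap + q + η * J ≤ J ∧ w + q + X' ≤ J := by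
          intro w q X' g1 g2 g3 g4 g6
          have g3' : (qa : ℝ) ≤ q := by exact_mod_cast g3
          have g4' : (q : ℝ) + X' ≤ qb + (n * d : ℕ) := by exact_mod_cast g4
          have g2' : (w : ℝ) ≤ wb := by exact_mod_cast g2
          have hX'0 : (0 : ℝ) ≤ X' := Nat.cast_nonneg _
          have hv0' : (0 : ℝ) ≤ vp wb := Nat.cast_nonneg _
          have hηJ : η * (J : ℝ) ≤ L * J / 4 := by
            have := mul_le_mul_of_nonneg_right hηL hJp.le
            linarith only [this]
          have r1 := hroom.u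
          have r2 := hroom.n
          have r3 := hroom.uJ
          have r4 := hroom.nJ
          refine ⟨?_, hN.qa1.trans g3', ?_, by linarith only [hLJ, hX3, g4', hηJ, r1], by linarith only [hLJ, hX3, g4', hηJ, r2], by linarith only [hLJ, hX3, g4', hηJ, r3], by linarith only [hLJ, hX3, g4', hηJ, r4], ?_⟩
          · have h1 : η * (J : ℝ) = cη * (L * J) := by rw [hη]; ring
            have h2 := mul_le_mul_of_nonneg_right hcη1 hLJ.le
            have h3 := mul_le_mul_of_nonneg_left hX1 hδ.le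
            linarith only [h1, h2, h3]
          · have := hN.qb1
            have e4 : (q₀ + (M + 1) * L) * (J : ℝ) = (q₀ + M * L) * J + L * J := by ring
            linarith only [hLJ, hX3, g4', this]
          · have : (w : ℝ) + q + X' ≤ J := by linarith only [hLJ, hX3, g4', g2', r3]
            exact_mod_cast this
        exact by
         have hinj := hU.bij.1
         have hlw := hU.lw
         have hwbJ := hU.wJ
         refine ⟨hA0, hDv', hdd, fun hv0 => ?_, ?_⟩
         · -- the shape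
           obtain ⟨tt, htt⟩ : ∃ tt : ℕ, tt = ⌈(((n * d : ℕ) : ℝ) + 2 * e₂ * (L * J)) / v⌉₊ + n * d :=
             ⟨_, rfl⟩
           have htt1 : (((n * d : ℕ) : ℝ) + 2 * e₂ * (L * J)) / v ≤ tt := by
             rw [htt]
             push_cast
             have := Nat.le_ceil ((((n * d : ℕ) : ℝ) + 2 * e₂ * (L * J)) / v)
             push_cast at this
             have h1 : (0 : ℝ) ≤ (n : ℝ) * d := by positivity
             linarith only [hXr, this]
           have htt2 : (tt : ℝ) ≤ (((n * d : ℕ) : ℝ) + 2 * e₂ * (L * J)) / v + 1 + (n * d : ℕ) := by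
             rw [htt]
             have := (Nat.ceil_lt_add_one (show 0 ≤ (((n * d : ℕ) : ℝ) + 2 * e₂ * (L * J)) / v by
               positivity)).le
             push_cast at this ⊢
             linarith only [this]
           have httγ : (tt : ℝ) ≤ γ * (wb + 1 - wa : ℕ) := by
             have h1 : (((n * d : ℕ) : ℝ) + 2 * e₂ * (L * J)) / v =
                 (1 / v) * (n * d : ℕ) + 2 * (e₂ / v) * (L * J) := by
               field_simp
             have h2 : e₂ / v ≤ γ * cw / 16 := by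
               rw [div_le_iff₀ hv0]
               linarith only [he₂2, hv0, he₂2 hv0]
             have h3 : (1 / v) * ((n * d : ℕ) : ℝ) + (n * d : ℕ) ≤ γ * cw / 8 * (L * J) := by
               have g1 : (1 / v) * ((n * d : ℕ) : ℝ) + (n * d : ℕ) = (1 + 1 / v) * ((n * d : ℕ) : ℝ) := by
                 ring
               have g2 : (1 + 1 / v) * ((n * d : ℕ) : ℝ) ≤ (1 + 1 / v) * (n * κ * (L * J)) :=
                 mul_le_mul_of_nonneg_left hX2 (by positivity)
               have g3 : 8 * n * (1 + 1 / v) * κ * (L * J) ≤ γ * cw * (L * J) :=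
                 mul_le_mul_of_nonneg_right hκ2 hLJ.le
               rw [g1]
               linarith only [g2, g3]
             have h4 : 2 * (e₂ / v) * (L * J) ≤ 2 * (γ * cw / 16) * (L * J) :=
               mul_le_mul_of_nonneg_right (by linarith only [h2]) hLJ.le
             have h5 : cw * L * J ≤ (wb + 1 - wa : ℕ) := by
               have g1 := hN.ww
               have g2 : ((wb + 1 - wa : ℕ) : ℝ) = (wb : ℝ) + 1 - wa := by
                 rw [Nat.cast_sub (by omega)]
                 push_cast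
                 ring
               rw [g2]
               linarith only [hκ1, he₂0, he₂1, hnκ0, g1]
             have h6 : γ * (cw * L * J) ≤ γ * (wb + 1 - wa : ℕ) := mul_le_mul_of_nonneg_left h5 hγ.le
             linarith only [hκ1, he₂0, he₂1, hnκ0, j4, htt2, h1, h3, h4, h6]
           have hvtt : ∀ w w', wa ≤ w → w + tt ≤ w' → w' ≤ wb → vp w + n * d ≤ vp w' := by
             intro w w' g1 g2 g3
             have m1 := abs_le.1 (hN.lin w g1 (by omega))
             have m2 := abs_le.1 (hN.lin w' (by omega) g3)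
             have m3 : (w : ℝ) + tt ≤ w' := by exact_mod_cast g2
             have m4 : ((n * d : ℕ) : ℝ) + 2 * e₂ * (L * J) ≤ v * tt := by
               rw [div_le_iff₀ hv0] at htt1
               linarith only [htt1]
             have m5 : v * ((w : ℝ) + tt) ≤ v * w' := mul_le_mul_of_nonneg_left m3 hv
             have : ((vp w + n * d : ℕ) : ℝ) ≤ vp w' := by
               rw [Nat.cast_add]
               linarith only [m1, m2, m4, m5, m1.1, m1.2, m2.1, m2.2]
             exact_mod_cast this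
           exact ⟨tt, hwab, hN.qq, by rw [htt]; omega, hwX, hvtt, httγ, hN.nd, hN.D2, hN.rise⟩
         exact by
          have hp0 : IsLaw (Pool.Agent.H49.Ent.cond F.p A True) := isLaw_cond F.isLaw hA0
          have hUP := hU.toP
          have fT : ∀ E : F.Ω → Prop, ϖ ≤ Pe (Pool.Agent.H49.Ent.cond F.p A True) E →
              ((J : ℝ) - wa) * Real.log 2 - δ * (n * d : ℕ) ≤
              CH (Pool.Agent.H49.Ent.cond (Pool.Agent.H49.Ent.cond F.p A True) E True) F.T
                (slam F wa) := by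
            intro E hE
            obtain ⟨e1, e2, e3⟩ := hev E hE
            have hA'0 : 0 < Pe F.p (fun ω => A ω ∧ E ω) := lt_of_lt_of_le (by positivity) e3
            have hl := isLaw_cond F.isLaw hA'0
            rw [e1]
            have h1 := tmw_of_tm hl (show wa ≤ J by omega) (by
              have := gT _ e2 e3
              exact this)
            refine le_trans ?_ h1
            have h3 := mul_le_mul_of_nonneg_left hX1 hδ.le
            linarith only [h3]
          have fH : ∀ (w : ℕ) (V : Type) (wn : F.Ω → V), wa ≤ w → w ≤ wb → Det F.p (slam F w) wn →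
              (∀ ω ω', A ω → A ω' → 0 < F.p ω → 0 < F.p ω' → wn ω = wn ω' →
                a w ω = a w ω' ∧ s ω = s ω' ∧ t ω = t ω') →
              ∀ E : F.Ω → Prop, ϖ ≤ Pe (Pool.Agent.H49.Ent.cond F.p A True) E →
              Pool.KAF.Pr (dbl (Pool.Agent.H49.Ent.cond (Pool.Agent.H49.Ent.cond F.p A True) E True) wn)
                {v | |sl (vp w) D (a w) (fun ω => al (Fam.pt F ω)) v.1 -
                  sl (vp w) D (a w) (fun ω => al (Fam.pt F ω)) v.2| <
                  (2 : ℝ) ^ (-(x₁ * (n * d : ℕ)))} ≤ ε₁ := by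
            intro w V wn g1 g2 hwn hwa E hE
            obtain ⟨e1, e2, e3⟩ := hev E hE
            rw [e1]
            have hwJ1 := hN.wa1
            have hwJ2 := hN.wb1
            have g1' : (wa : ℝ) ≤ w := by exact_mod_cast g1
            have g2' : (w : ℝ) ≤ wb := by exact_mod_cast g2
            have hq0' : (0 : ℝ) ≤ qb := Nat.cast_nonneg _
            refine gH _ e2 e3 σ wl wa wb vp kap Hu HN al nu kN nN a s t (hU.sub e2) hσ w D _
              wn (x₁ * (n * d : ℕ)) g1 g2 hwn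
              (fun ω ω' k1 k2 k3 k4 k5 => hwa ω ω' k1.1 k2.1 k3 k4 k5) ?_ ?_ ?_
            · have : (w₁ : ℝ) * J ≤ (w₀ - L) * J := mul_le_mul_of_nonneg_right (by linarith only [hw₁']) hJp.le
              linarith only [hwJ1, g1', this]
            · have h1 : ((w₀ + L) + h) * (J : ℝ) ≤ w₂ * J :=
                mul_le_mul_of_nonneg_right (by linarith only [hhL, hw₂]) hJp.le
              linarith only [hwJ2, g2', h1]
            · intro wg k1 k2 k3 k4
              have m1 := abs_le.1 (hN.lin w g1 g2)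
              have m2 := mul_le_mul_of_nonneg_right (hrtg wg k3 k4) hJp.le
              have m3 : v * (wg * (J : ℝ)) ≤ v * (w + h * J) := mul_le_mul_of_nonneg_left k2 hv
              have m4 : e₂ * L * J ≤ x₁ * n * κ * (L * J) / 16 := by
                have := mul_le_mul_of_nonneg_right he₂1 hLJ.le
                linarith only [this]
              have m5 : 16 * ((v + 2) * (h * J)) = x₁ * n * κ * (L * J) := by
                have : 16 * ((v + 2) * (h * J)) = 16 * ((v + 2) * h) * J := by ring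
                rw [this, hhv]
                ring
              have m6 : rt wg * J + 2 * h * J ≤ vp w + x₁ * (n * d : ℕ) := by
                have e4 : (v₀ + v * ((wg : ℝ) - w₀) + 3 / 2 * e₂ * L) * J =
                  v₀ * J + v * (wg * J) - v * (w₀ * J) + 3 / 2 * (e₂ * L * J) := by ring
                rw [e4] at m2
                have hh1 : 0 ≤ x₁ * n * κ * (L * J) := by positivity
                linarith only [hxX1, m1, m2, m3, m4, m5, m1.1]
              have m7 := hvm w g1 g2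
              have m8 := hN.hh
              have m9 := hroom.u
              have m10 := hroom.n
              refine ⟨m6, by linarith only [hxX1, hDv, m1, m2, m3, m4, m5, m7], by linarith only [hLJ, hxX1, hxX2, m1, m2, m3, m4, m5, m7, m8], by linarith only [hLJ, hxX1, hxX2, m1, m2, m3, m4, m5, m7, m9], by linarith only [hLJ, hxX1, hxX2, m1, m2, m3, m4, m5, m7, m8, m10]⟩
          exact ⟨fT, fH⟩

end Pool.S6B
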