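import Pool.Agent.H36.S6.TmH

/-!
# The hypotheses of the local U-step in a class, the plane of directions is not visible

`uhp_thm`: `UhPStmt` (helper72) from TIME, the collisions of slopes `h62p` (helper98) and the
activity `actp_thm` in contexts whose plane of directions is not visible.
-/

set_option autoImplicit false

namespace Pool.S6B

open Finset Real
open Pool.Agent.H49.Ent Pool.Agent.H32.Dense Pool.STK Pool.KA Pool.KA.Win Pool.KA.TRC
  Pool.KSAT Pool.K2S Pool.K2S.Rows Pool.K2S.FF Pool.PB Pool.S6K.Wfe Pool.UST Pool.S6U Pool.S6C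

/-- **(UHP)** -/
theorem uhp_thm : UhPStmt := by
  intro x₁ ϖ δ ε₁ γ η₁ α n d₀ hx₁ hϖ hδ hε₁ hγ hη₁ hα hn v cw hv hcw
  have hn0 : (1 : ℝ) ≤ n := by exact_mod_cast hn
  have hnp : (0 : ℝ) < n := by linarith only [hn0]
  obtain ⟨κ₀, hκ₀⟩ : ∃ κ₀, κ₀ = min (1 / (4 * n * (1 + x₁))) (γ * cw / (8 * n * (1 + 1 / v))) :=
    ⟨_, rfl⟩
  have hκ₀0 : 0 < κ₀ := by rw [hκ₀]; exact lt_min (by positivity) (by positivity)
  refine ⟨κ₀, hκ₀0, fun κ hκ hκκ => ?_⟩
  have hκ1 : 4 * n * (1 + x₁) * κ ≤ 1 := by
    have h1 : κ ≤ 1 / (4 * n * (1 + x₁)) := hκκ.trans (by rw [hκ₀]; exact min_le_left _ _)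
    rw [le_div_iff₀ (by positivity)] at h1
    linarith only [h1]
  have hκ2 : 8 * n * (1 + 1 / v) * κ ≤ γ * cw := by
    have h1 : κ ≤ γ * cw / (8 * n * (1 + 1 / v)) := hκκ.trans (by rw [hκ₀]; exact min_le_right _ _)
    rw [le_div_iff₀ (by positivity)] at h1
    linarith only [h1]
  obtain ⟨v', hv'⟩ : ∃ v' : ℝ, v' = if 0 < v then v else 1 := ⟨_, rfl⟩
  have hv'0 : 0 < v' := by
    rw [hv']
    split_ifs with h
    · exact h
    · exact one_pos
  obtain ⟨e₂, he₂⟩ : ∃ e₂, e₂ = min (x₁ * n * κ / 16) (v' * γ * cw / 16) := ⟨_, rfl⟩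
  have he₂0 : 0 < e₂ := by rw [he₂]; exact lt_min (by positivity) (by positivity)
  have he₂1 : e₂ ≤ x₁ * n * κ / 16 := by rw [he₂]; exact min_le_left _ _
  have he₂2 : 0 < v → e₂ ≤ v * γ * cw / 16 := by
    intro h
    have h1 : v' = v := by rw [hv', if_pos h]
    rw [← h1, he₂]
    exact min_le_right _ _
  obtain ⟨e₃, he₃⟩ : ∃ e₃, e₃ = ϖ * (α * η₁ * κ / 64) := ⟨_, rfl⟩
  exact by
   have he₃0 : 0 < e₃ := by rw [he₃]; positivity
   refine ⟨e₂, e₃, he₂0, he₃0, fun M hM S a₁ R i₀ rt act w₀ v₀ q₀ a₀ hcls => ?_⟩
   obtain ⟨hSt, hrt, hrt0, hact, hactm, hw0, hw1, hv1, hq0, hq1, hslr, hsla⟩ := hcls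
   -- the size of the zone
   obtain ⟨cη, hcη⟩ : ∃ cη, cη = min (min (δ * n * κ / 4) (α * η₁ * κ / 16)) (1 / 4) := ⟨_, rfl⟩
   have hcη0 : 0 < cη := by
     rw [hcη]
     exact lt_min (lt_min (by positivity) (by positivity)) (by norm_num)
   have hcη1 : cη ≤ δ * n * κ / 4 := by
     rw [hcη]
     exact (min_le_left _ _).trans (min_le_left _ _)
   have hcη2 : cη ≤ α * η₁ * κ / 16 := by
     rw [hcη]
     exact (min_le_left _ _).trans (min_le_right _ _)
   have hcη3 : cη ≤ 1 / 4 := by rw [hcη]; exact min_le_right _ _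
   obtain ⟨ca, hca⟩ : ∃ ca, ca = 3 * α / 4 := ⟨_, rfl⟩
   have hca0 : 0 < ca := by rw [hca]; positivity
   obtain ⟨e₄, he₄⟩ : ∃ e₄, e₄ = (cη / 16) / (2 * (M + 2)) := ⟨_, rfl⟩
   have he₄0 : 0 < e₄ := by
     rw [he₄]
     positivity
   have he₄2 : 2 * (M + 2) * e₄ ≤ cη / 16 := by
     rw [he₄]
     field_simp
     rfl
   obtain ⟨δ₁, hδ₁, hs1⟩ := hslr (e₂ / 2) (by positivity)
   obtain ⟨δ₂, hδ₂, hs2⟩ := hsla e₄ he₄0
   obtain ⟨L₀, hL₀⟩ : ∃ L₀, L₀ = min (min (min (δ₁ / 4) (δ₂ / (2 * (M + 2)))) (min (w₀ / 4)
     ((1 - w₀) / 4))) (min (min (q₀ / (2 * (M + 2))) ((1 - q₀) / (2 * (M + 2))))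
       ((1 - v₀) / (4 * (v + 2) * (1 + e₂)))) := ⟨_, rfl⟩
   exact by
    have hL₀0 : 0 < L₀ := by
      rw [hL₀]
      have h1 : 0 < 1 - w₀ := by linarith only [hw1]
      have h2 : 0 < 1 - q₀ := by linarith only [hq1]
      have h3 : 0 < 1 - v₀ := by linarith only [hv1]
      exact lt_min (lt_min (lt_min (by positivity) (by positivity)) (lt_min (by positivity)
        (by positivity))) (lt_min (lt_min (by positivity) (by positivity)) (by positivity))
    refine ⟨L₀, hL₀0, fun L B C hL hLL => ?_⟩
    rw [hL₀] at hLL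
    have hMp : 0 < 2 * (M + 2) := by positivity
    obtain ⟨l12, l34⟩ := le_min_iff.1 hLL
    obtain ⟨l1, l2⟩ := le_min_iff.1 l12
    obtain ⟨l3, l4⟩ := le_min_iff.1 l34
    have f1 : 4 * L ≤ δ₁ := by
      have := (le_min_iff.1 l1).1
      linarith only [this]
    have f2 : 2 * (M + 2) * L ≤ δ₂ := by
      have := (le_min_iff.1 l1).2
      rw [le_div_iff₀ hMp] at this
      linarith only [this]
    have f3 : 4 * L ≤ w₀ := by
      have := (le_min_iff.1 l2).1
      linarith only [this]
    have f4 : 4 * L ≤ 1 - w₀ := by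
      have := (le_min_iff.1 l2).2
      linarith only [this]
    have f5 : 2 * (M + 2) * L ≤ q₀ := by
      have := (le_min_iff.1 l3).1
      rw [le_div_iff₀ hMp] at this
      linarith only [this]
    exact by
     have f6 : 2 * (M + 2) * L ≤ 1 - q₀ := by
       have := (le_min_iff.1 l3).2
       rw [le_div_iff₀ hMp] at this
       linarith only [this]
     have f7 : 4 * (v + 2) * (1 + e₂) * L ≤ 1 - v₀ := by
       rw [le_div_iff₀ (by positivity)] at l4
       linarith only [l4]
     have hML : 0 < M * L := by positivity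
     -- the numbers
     obtain ⟨h, hh⟩ : ∃ h, h = x₁ * n * κ * L / (16 * (v + 2)) := ⟨_, rfl⟩
     have hh0 : 0 < h := by rw [hh]; positivity
     have hhv : 16 * ((v + 2) * h) = x₁ * n * κ * L := by
       rw [hh]
       field_simp
     have hnk : 4 * (n * κ) + 4 * (x₁ * n * κ) ≤ 1 := by
       have e : 4 * n * (1 + x₁) * κ = 4 * (n * κ) + 4 * (x₁ * n * κ) := by ring
       linarith only [hκ1]
     have hnκ0 : 0 < n * κ := by positivity
     have hxnκ0 : 0 < x₁ * n * κ := by positivity
     have hhL : h ≤ L := by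
       have h1 : (v + 2) * h ≤ L / 64 := by
         have h2 : x₁ * n * κ * L ≤ 1 / 4 * L := mul_le_mul_of_nonneg_right (by linarith only [hκ1, hnκ0]) hL.le
         linarith only [hhv, h2]
       have h3 : 2 * h ≤ (v + 2) * h := mul_le_mul_of_nonneg_right (by linarith only [hv]) hh0.le
       linarith only [hh0, h1, h3]
     obtain ⟨η, hη⟩ : ∃ η, η = cη * L := ⟨_, rfl⟩
     have hη0 : 0 < η := by rw [hη]; positivity
     have hηL : η ≤ L / 4 := by
       rw [hη]
       have := mul_le_mul_of_nonneg_right hcη3 hL.le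
       linarith only [this]
     exact by
      obtain ⟨w₁, hw₁, hw₁'⟩ := rat_btw (show w₀ - 2 * L < w₀ - L by linarith only [hL])
      obtain ⟨w₂, hw₂, hw₂'⟩ := rat_btw (show w₀ + 2 * L < w₀ + 3 * L by linarith only [hL])
      have hwg : ∀ wg : ℚ, w₁ ≤ wg → wg ≤ w₂ → |(wg : ℝ) - w₀| ≤ 3 * L := by
        intro wg g1 g2
        have g1' : (w₁ : ℝ) ≤ wg := by exact_mod_cast g1
        have g2' : (wg : ℝ) ≤ w₂ := by exact_mod_cast g2
        rw [abs_le]
        constructor <;> linarith
      have hrtg : ∀ wg : ℚ, w₁ ≤ wg → wg ≤ w₂ → rt wg ≤ v₀ + v * (wg - w₀) + 3 / 2 * e₂ * L := by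
        intro wg g1 g2
        have g3 := hwg wg g1 g2
        have g4 := abs_le.1 (hs1 wg (lt_of_le_of_lt g3 (by linarith only [hδ₁, f1])))
        have g5 : e₂ / 2 * |(wg : ℝ) - w₀| ≤ e₂ / 2 * (3 * L) :=
          mul_le_mul_of_nonneg_left g3 (by positivity)
        linarith only [g4, g5, g4.2]
      have hw₁0 : (0 : ℚ) ≤ w₁ := by
        have : (0 : ℝ) ≤ w₁ := by linarith only [hw0, f3, hw₁]
        exact_mod_cast this
      have hw₁₂ : w₁ < w₂ := by
        have : (w₁ : ℝ) < w₂ := by linarith only [hη0, hηL, hw₁', hw₂]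
        exact_mod_cast this
      have hw₂1 : w₂ ≤ 1 := by
        have : (w₂ : ℝ) ≤ 1 := by linarith only [f4, hη0, hηL, hw₂']
        exact_mod_cast this
      -- the claims
      have cP : Clp S (fun J F A => 0 < Pe F.p A) := Clp.of one_pos 0 fun J _ F A hS =>
        lt_of_lt_of_le (Real.exp_pos _) (hSt 1 J F A hS).2.2.2
      have cT := (time_cls hSt (η := δ * n * κ * L / 2) (by positivity)).ev hϖ
      have cH := (h62p S a₁ R i₀ rt hSt hrt w₁ w₂ h ε₁ hw₁0 hw₁₂ hw₂1 hh0 hε₁ (by
        intro wg g1 g2
        refine ⟨hrt0 wg (hw₁0.trans g1) (g2.trans hw₂1), ?_⟩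
        have g3 := hrtg wg g1 g2
        have g4 := (abs_le.1 (hwg wg g1 g2)).2
        have g5 : v * ((wg : ℝ) - w₀) ≤ v * (3 * L) := mul_le_mul_of_nonneg_left g4 hv
        have g6 : 4 * (v + 2) * (1 + e₂) * L = 4 * v * L + 8 * L + 4 * v * e₂ * L + 8 * e₂ * L := by
          ring
        have g7 : 0 ≤ v * e₂ * L := by positivity
        have g8 : 0 ≤ e₂ * L := by positivity
        have g9 : 0 ≤ v * L := by positivity
        linarith only [hv1, f7, hhL, hη0, hηL, g3, g5, g7, g8]) B C).ev hϖ
      exact by
       have hActG : ∀ x y e : ℝ, q₀ - M * L ≤ x → y ≤ q₀ + (M + 2) * L → 2 * (M + 2) * e₄ * L ≤ e →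
           ActG act x y ca e := by
         intro x y e hx hy he q q' h1 h2 h3
         have h1' : x ≤ q := h1
         have h2' : (q : ℝ) ≤ q' := by exact_mod_cast h2
         have b1 : |(q : ℝ) - q₀| ≤ (M + 2) * L := by
           rw [abs_le]
           constructor <;> linarith
         have b2 : |(q' : ℝ) - q₀| ≤ (M + 2) * L := by
           rw [abs_le]
           constructor <;> linarith
         have hML2 : (M + 2) * L < δ₂ := by
           have : 0 < (M + 2) * L := by positivity
           linarith only [hδ₂, f2]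
         have c1 := abs_le.1 (hs2 q (lt_of_le_of_lt b1 hML2))
         have c2 := abs_le.1 (hs2 q' (lt_of_le_of_lt b2 hML2))
         have d1 := mul_le_mul_of_nonneg_left b1 he₄0.le
         have d2 := mul_le_mul_of_nonneg_left b2 he₄0.le
         have d3 : 0 ≤ α * ((q' : ℝ) - q) := mul_nonneg hα.le (by linarith only [h2'])
         rw [hca]
         linarith only [he, c1, c2, d1, d2, d3, c1.1, c1.2, c2.1, c2.2]
       have cA := (actp_thm S a₁ R i₀ act hSt hact hactm (q₀ - M * L) (q₀ + (M + 1) * L) ca η (by linarith only [hq0, hL, f5])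
         (by linarith only [hL, hML]) (by linarith only [hq1, hL, f6]) hca0 hη0 (hActG _ _ _ le_rfl (by linarith only [hL]) (by
           rw [hη]
           have := mul_le_mul_of_nonneg_right he₄2 hL.le
           linarith only [this])) B C).ev hϖ
       -- large resolutions
       obtain ⟨u, hu⟩ : ∃ u, u = Real.log 2 := ⟨_, rfl⟩
       have hu0 : 0 < u := by rw [hu]; exact Real.log_pos (by norm_num)
       have hu2 : 1 / 2 ≤ u := by
         rw [hu]
         have := Real.log_two_gt_d9
         linarith only [hκ1, he₂0, he₂1, hnκ0, this]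
       exact by
        have hu1 : u ≤ 1 := by
          rw [hu]
          have := Real.log_le_sub_one_of_pos (show (0 : ℝ) < 2 by norm_num)
          linarith only [this]
        obtain ⟨J₀, hJ₀⟩ := exists_nat_ge ((d₀ : ℝ) * 2 / (κ * L) + 4 / (γ * cw * L) + 1 / (e₃ * L) + 1)
        refine Clp.mono (J₂ := J₀) (cP.and ((cT.and cH).and cA)) ?_
        rintro J hJ F A ⟨hA0, ⟨gT, gH⟩, gA⟩ σ wl wa wb vp kap Hu HN al nu kN nN a s t hU hσ qa qb d D
          hN hfri
        have hJ0 : (J₀ : ℝ) ≤ J := by exact_mod_cast hJ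
        have hJ1 : (d₀ : ℝ) * 2 / (κ * L) + 4 / (γ * cw * L) + 1 / (e₃ * L) + 1 ≤ J := hJ₀.trans hJ0
        have j1 : 0 ≤ (d₀ : ℝ) * 2 / (κ * L) := by positivity
        have j2 : 0 ≤ 4 / (γ * cw * L) := by positivity
        have j0 : 0 ≤ 1 / (e₃ * L) := by positivity
        have hJp : (0 : ℝ) < J := by linarith only [hκ1, he₂0, he₂1, hnκ0, hJ₀, hJ0, j1, j2, j0]
        have j3 : (d₀ : ℝ) * 2 ≤ κ * L * J := by
          have : (d₀ : ℝ) * 2 / (κ * L) ≤ J := by linarith only [hκ1, he₂0, he₂1, hnκ0, hJ₀, hJ0, j2, j0]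
          rw [div_le_iff₀ (by positivity)] at this
          linarith only [this]
        have j4 : 4 ≤ γ * cw * L * J := by
          have : 4 / (γ * cw * L) ≤ J := by linarith only [hκ1, he₂0, he₂1, hnκ0, hJ₀, hJ0, j1, j0]
          rw [div_le_iff₀ (by positivity)] at this
          linarith only [this]
        have j5 : 1 ≤ e₃ * L * J := by
          have : 1 / (e₃ * L) ≤ J := by linarith only [hκ1, he₂0, he₂1, hnκ0, hJ₀, hJ0, j1, j2]
          rw [div_le_iff₀ (by positivity)] at this
          linarith only [this]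
        have hLJ : 0 < L * J := by positivity
        have hd1 := hN.d1
        have hd2 := hN.d2
        have hdd : d₀ ≤ d := by
          have : (d₀ : ℝ) ≤ d := by linarith only [j3, hd1]
          exact_mod_cast this
        -- the block
        exact by
         have hXr : ((n * d : ℕ) : ℝ) = n * d := by push_cast; ring
         have hX1 : n * κ * (L * J) / 2 ≤ ((n * d : ℕ) : ℝ) := by
           rw [hXr]
           have := mul_le_mul_of_nonneg_left hd1 hnp.le
           linarith only [this]
         have hX2 : ((n * d : ℕ) : ℝ) ≤ n * κ * (L * J) := by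
           rw [hXr]
           have := mul_le_mul_of_nonneg_left hd2 hnp.le
           linarith only [this]
         have hX3 : ((n * d : ℕ) : ℝ) ≤ L * J / 4 := by
           refine hX2.trans ?_
           have := mul_le_mul_of_nonneg_right (show n * κ ≤ 1 / 4 by linarith only [hκ1, he₂0, he₂1]) hLJ.le
           linarith only [this]
         have hxX1 : x₁ * n * κ * (L * J) / 2 ≤ x₁ * (n * d : ℕ) := by
           have := mul_le_mul_of_nonneg_left hX1 hx₁.le
           linarith only [this]
         have hxX2 : x₁ * (n * d : ℕ) ≤ L * J / 4 := by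
           have h1 := mul_le_mul_of_nonneg_left hX2 hx₁.le
           have h2 := mul_le_mul_of_nonneg_right (show x₁ * n * κ ≤ 1 / 4 by linarith only [hκ1, hnκ0]) hLJ.le
           linarith only [h1, h2]
         have hX00 : (0 : ℝ) ≤ (n * d : ℕ) := Nat.cast_nonneg _
         -- windows
         have hwab : wa ≤ wb := by
           have : (wa : ℝ) ≤ wb := by
             have := hN.ww
             have h1 : 0 ≤ cw * L * J := by positivity
             linarith only [this, h1]
           exact_mod_cast this
         have hvm : ∀ w, wa ≤ w → w ≤ wb → (vp w : ℝ) ≤ vp wb := fun w g1 g2 => by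
           exact_mod_cast hU.mono w wb g1 g2 le_rfl
         exact by
          have hDv : (vp wb : ℝ) + x₁ * (n * d : ℕ) ≤ D := hN.D1
          have hDv' : vp wb ≤ D := by
            have h1 : 0 ≤ x₁ * (n * d : ℕ) := by positivity
            have : (vp wb : ℝ) ≤ D := by linarith only [hDv, h1]
            exact_mod_cast this
          have hwX : wb + n * d ≤ J := by
            have h1 : (wb : ℝ) + (n * d : ℕ) ≤ J := by
              have g1 := hN.wb1
              have g2 : (w₀ + L) * (J : ℝ) + L * J / 4 ≤ J := by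
                have : (w₀ + L + L / 4) * (J : ℝ) ≤ 1 * J :=
                  mul_le_mul_of_nonneg_right (by linarith only [hw1, f4]) hJp.le
                linarith only [this]
              linarith only [hX3, g1, g2]
            exact_mod_cast h1
          -- events
          have hev : ∀ E : F.Ω → Prop, ϖ ≤ Pe (Pool.Agent.H49.Ent.cond F.p A True) E →
              Pool.Agent.H49.Ent.cond (Pool.Agent.H49.Ent.cond F.p A True) E True =
                Pool.Agent.H49.Ent.cond F.p (fun ω => A ω ∧ E ω) True ∧
              Sub (fun ω => A ω ∧ E ω) A ∧ ϖ * Pe F.p A ≤ Pe F.p (fun ω => A ω ∧ E ω) := by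
            intro E hE
            refine ⟨cond_and' F.p hA0.ne', fun ω hω => hω.1, ?_⟩
            rw [Pe_cond, le_div_iff₀ hA0] at hE
            exact hE
          have hroom := hN.room
          have hroom' : ∀ w q X' : ℕ, wa ≤ w → w ≤ wb → qa ≤ q → q + X' ≤ qb + n * d → X' ≤ n * d →
              2 * (η * (J : ℝ)) ≤ δ * (n * d : ℕ) ∧ (q₀ - M * L) * (J : ℝ) ≤ q ∧
              (q : ℝ) + X' ≤ (q₀ + (M + 1) * L) * J ∧ (vp wb : ℝ) + q + η * J ≤ Hu ∧
              (kap : ℝ) + q + η * J ≤ HN ∧ (wb : ℝ) + vp wb + q + η * J ≤ J ∧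
              (wb : ℝ) + kap + q + η * J ≤ J ∧ w + q + X' ≤ J := by
            intro w q X' g1 g2 g3 g4 g6
            have g3' : (qa : ℝ) ≤ q := by exact_mod_cast g3
            have g4' : (q : ℝ) + X' ≤ qb + (n * d : ℕ) := by exact_mod_cast g4
            have g2' : (w : ℝ) ≤ wb := by exact_mod_cast g2
            have hX'0 : (0 : ℝ) ≤ X' := Nat.cast_nonneg _
            have hv0' : (0 : ℝ) ≤ vp wb := Nat.cast_nonneg _
            have hηJ : η * (J : ℝ) ≤ L * J / 4 := by
              have := mul_le_mul_of_nonneg_right hηL hJp.le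
              linarith only [this]
            have r1 := hroom.u
            have r2 := hroom.n
            have r3 := hroom.uJ
            have r4 := hroom.nJ
            refine ⟨?_, hN.qa1.trans g3', ?_, by linarith only [hLJ, hX3, g4', hηJ, r1], by linarith only [hLJ, hX3, g4', hηJ, r2], by linarith only [hLJ, hX3, g4', hηJ, r3], by linarith only [hLJ, hX3, g4', hηJ, r4], ?_⟩
            · have h1 : η * (J : ℝ) = cη * (L * J) := by rw [hη]; ring
              have h2 := mul_le_mul_of_nonneg_right hcη1 hLJ.le
              have h3 := mul_le_mul_of_nonneg_left hX1 hδ.le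
              linarith only [h1, h2, h3]
            · have := hN.qb1
              have e4 : (q₀ + (M + 1) * L) * (J : ℝ) = (q₀ + M * L) * J + L * J := by ring
              linarith only [hLJ, hX3, g4', this]
            · have : (w : ℝ) + q + X' ≤ J := by linarith only [hLJ, hX3, g4', g2', r3]
              exact_mod_cast this
          exact by
           have hinj := hU.bij.1
           have hlw := hU.lw
           have hwbJ := hU.wJ
           refine ⟨hA0, hDv', hdd, fun hv0 => ?_, ?_⟩
           · -- the shape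
             obtain ⟨tt, htt⟩ : ∃ tt : ℕ, tt = ⌈(((n * d : ℕ) : ℝ) + 2 * e₂ * (L * J)) / v⌉₊ + n * d :=
               ⟨_, rfl⟩
             have htt1 : (((n * d : ℕ) : ℝ) + 2 * e₂ * (L * J)) / v ≤ tt := by
               rw [htt]
               push_cast
               have := Nat.le_ceil ((((n * d : ℕ) : ℝ) + 2 * e₂ * (L * J)) / v)
               push_cast at this
               have h1 : (0 : ℝ) ≤ (n : ℝ) * d := by positivity
               linarith only [hXr, this]
             have htt2 : (tt : ℝ) ≤ (((n * d : ℕ) : ℝ) + 2 * e₂ * (L * J)) / v + 1 + (n * d : ℕ) := by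
               rw [htt]
               have := (Nat.ceil_lt_add_one (show 0 ≤ (((n * d : ℕ) : ℝ) + 2 * e₂ * (L * J)) / v by
                 positivity)).le
               push_cast at this ⊢
               linarith only [this]
             have httγ : (tt : ℝ) ≤ γ * (wb + 1 - wa : ℕ) := by
               have h1 : (((n * d : ℕ) : ℝ) + 2 * e₂ * (L * J)) / v =
                   (1 / v) * (n * d : ℕ) + 2 * (e₂ / v) * (L * J) := by
                 field_simp
               have h2 : e₂ / v ≤ γ * cw / 16 := by
                 rw [div_le_iff₀ hv0]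
                 linarith only [he₂2, hv0, he₂2 hv0]
               have h3 : (1 / v) * ((n * d : ℕ) : ℝ) + (n * d : ℕ) ≤ γ * cw / 8 * (L * J) := by
                 have g1 : (1 / v) * ((n * d : ℕ) : ℝ) + (n * d : ℕ) = (1 + 1 / v) * ((n * d : ℕ) : ℝ) := by
                   ring
                 have g2 : (1 + 1 / v) * ((n * d : ℕ) : ℝ) ≤ (1 + 1 / v) * (n * κ * (L * J)) :=
                   mul_le_mul_of_nonneg_left hX2 (by positivity)
                 have g3 : 8 * n * (1 + 1 / v) * κ * (L * J) ≤ γ * cw * (L * J) :=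
                   mul_le_mul_of_nonneg_right hκ2 hLJ.le
                 rw [g1]
                 linarith only [g2, g3]
               have h4 : 2 * (e₂ / v) * (L * J) ≤ 2 * (γ * cw / 16) * (L * J) :=
                 mul_le_mul_of_nonneg_right (by linarith only [h2]) hLJ.le
               have h5 : cw * L * J ≤ (wb + 1 - wa : ℕ) := by
                 have g1 := hN.ww
                 have g2 : ((wb + 1 - wa : ℕ) : ℝ) = (wb : ℝ) + 1 - wa := by
                   rw [Nat.cast_sub (by omega)]
                   push_cast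
                   ring
                 rw [g2]
                 linarith only [hκ1, he₂0, he₂1, hnκ0, g1]
               have h6 : γ * (cw * L * J) ≤ γ * (wb + 1 - wa : ℕ) := mul_le_mul_of_nonneg_left h5 hγ.le
               linarith only [hκ1, he₂0, he₂1, hnκ0, j4, htt2, h1, h3, h4, h6]
             have hvtt : ∀ w w', wa ≤ w → w + tt ≤ w' → w' ≤ wb → vp w + n * d ≤ vp w' := by
               intro w w' g1 g2 g3
               have m1 := abs_le.1 (hN.lin w g1 (by omega))
               have m2 := abs_le.1 (hN.lin w' (by omega) g3)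
               have m3 : (w : ℝ) + tt ≤ w' := by exact_mod_cast g2
               have m4 : ((n * d : ℕ) : ℝ) + 2 * e₂ * (L * J) ≤ v * tt := by
                 rw [div_le_iff₀ hv0] at htt1
                 linarith only [htt1]
               have m5 : v * ((w : ℝ) + tt) ≤ v * w' := mul_le_mul_of_nonneg_left m3 hv
               have : ((vp w + n * d : ℕ) : ℝ) ≤ vp w' := by
                 rw [Nat.cast_add]
                 linarith only [m1, m2, m4, m5, m1.1, m1.2, m2.1, m2.2]
               exact_mod_cast this
             exact ⟨tt, hwab, hN.qq, by rw [htt]; omega, hwX, hvtt, httγ, hN.nd, hN.D2, hN.rise⟩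
           exact by
            have hp0 : IsLaw (Pool.Agent.H49.Ent.cond F.p A True) := isLaw_cond F.isLaw hA0
            have hUP := hU.toP
            have fT : ∀ E : F.Ω → Prop, ϖ ≤ Pe (Pool.Agent.H49.Ent.cond F.p A True) E →
                ((J : ℝ) - wa) * Real.log 2 - δ * (n * d : ℕ) ≤
                CH (Pool.Agent.H49.Ent.cond (Pool.Agent.H49.Ent.cond F.p A True) E True) F.T
                  (slam F wa) := by
              intro E hE
              obtain ⟨e1, e2, e3⟩ := hev E hE
              have hA'0 : 0 < Pe F.p (fun ω => A ω ∧ E ω) := lt_of_lt_of_le (by positivity) e3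
              have hl := isLaw_cond F.isLaw hA'0
              rw [e1]
              have h1 := tmw_of_tm hl (show wa ≤ J by omega) (by
                have := gT _ e2 e3
                exact this)
              refine le_trans ?_ h1
              have h3 := mul_le_mul_of_nonneg_left hX1 hδ.le
              linarith only [h3]
            have hdet : ∀ w, wa ≤ w → w ≤ wb → Det F.p (slam F w) (frm σ (a w) s t) := by
              intro w g1 g2 ω ω' hω hω' e
              have e1 := hUP.det g1 g2 ω ω' hω hω' e
              have e2 := Prod.ext_iff.mp e1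
              have e3 := Prod.ext_iff.mp e2.2
              unfold frm
              have f1 : a w ω = a w ω' := e2.1
              have f2 : s ω = s ω' := e3.1
              have f3 : t ω = t ω' := e3.2
              rw [f1, f2, f3]
            have fH : ∀ w q, wa ≤ w → w ≤ wb → qa ≤ q → q < qb → ∀ E : F.Ω → Prop,
                ϖ ≤ Pe (Pool.Agent.H49.Ent.cond F.p A True) E →
                Pool.KAF.Pr (dbl (Pool.Agent.H49.Ent.cond (Pool.Agent.H49.Ent.cond F.p A True) E True)
                  (F.blb w (cv (vp w) kap (q + n * d)) (frm σ (a w) s t)))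
                  {v | |sl (vp w) D (a w) (fun ω => al (Fam.pt F ω)) v.1 -
                    sl (vp w) D (a w) (fun ω => al (Fam.pt F ω)) v.2| <
                    (2 : ℝ) ^ (-(x₁ * (n * d : ℕ)))} ≤ ε₁ := by
              intro w q g1 g2 g3 g4 E hE
              obtain ⟨e1, e2, e3⟩ := hev E hE
              rw [e1]
              have hwJ1 := hN.wa1
              have hwJ2 := hN.wb1
              have g1' : (wa : ℝ) ≤ w := by exact_mod_cast g1
              have g2' : (w : ℝ) ≤ wb := by exact_mod_cast g2
              have hq0' : (0 : ℝ) ≤ qb := Nat.cast_nonneg _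
              refine gH _ e2 e3 σ wl wa wb vp kap Hu HN al nu kN nN a s t (hU.sub e2) hσ w D _
                (F.blb w (cv (vp w) kap (q + n * d)) (frm σ (a w) s t)) (x₁ * (n * d : ℕ))
                g1 g2 ?_ ?_ ?_ ?_ ?_
              · intro ω ω' hω hω' e
                exact lbr_slam (c := cv (vp w) kap (q + n * d)) (hdet w g1 g2) 0 ω ω' hω hω' e
              · intro ω ω' _ _ _ _ e
                have e5 : frm σ (a w) s t ω = frm σ (a w) s t ω' := (Box.mlb_ext e).2.1
                exact Box.tfr_eq hinj e5
              · have : (w₁ : ℝ) * J ≤ (w₀ - L) * J := mul_le_mul_of_nonneg_right (by linarith only [hw₁']) hJp.le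
                linarith only [hwJ1, g1', this]
              · have h1 : ((w₀ + L) + h) * (J : ℝ) ≤ w₂ * J :=
                  mul_le_mul_of_nonneg_right (by linarith only [hhL, hw₂]) hJp.le
                linarith only [hwJ2, g2', h1]
              · intro wg k1 k2 k3 k4
                have m1 := abs_le.1 (hN.lin w g1 g2)
                have m2 := mul_le_mul_of_nonneg_right (hrtg wg k3 k4) hJp.le
                have m3 : v * (wg * (J : ℝ)) ≤ v * (w + h * J) := mul_le_mul_of_nonneg_left k2 hv
                have m4 : e₂ * L * J ≤ x₁ * n * κ * (L * J) / 16 := by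
                  have := mul_le_mul_of_nonneg_right he₂1 hLJ.le
                  linarith only [this]
                have m5 : 16 * ((v + 2) * (h * J)) = x₁ * n * κ * (L * J) := by
                  have : 16 * ((v + 2) * (h * J)) = 16 * ((v + 2) * h) * J := by ring
                  rw [this, hhv]
                  ring
                have m6 : rt wg * J + 2 * h * J ≤ vp w + x₁ * (n * d : ℕ) := by
                  have e4 : (v₀ + v * ((wg : ℝ) - w₀) + 3 / 2 * e₂ * L) * J =
                    v₀ * J + v * (wg * J) - v * (w₀ * J) + 3 / 2 * (e₂ * L * J) := by ring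
                  rw [e4] at m2
                  have hh1 : 0 ≤ x₁ * n * κ * (L * J) := by positivity
                  linarith only [hxX1, m1, m2, m3, m4, m5, m1.1]
                have m7 := hvm w g1 g2
                have m8 := hN.hh
                have m9 := hroom.u
                have m10 := hroom.n
                refine ⟨m6, by linarith only [hxX1, hDv, m1, m2, m3, m4, m5, m7], by linarith only [hLJ, hxX1, hxX2, m1, m2, m3, m4, m5, m7, m8], by linarith only [hLJ, hxX1, hxX2, m1, m2, m3, m4, m5, m7, m9], by linarith only [hLJ, hxX1, hxX2, m1, m2, m3, m4, m5, m7, m8, m10]⟩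
            exact by
             have fA : ∀ w q Y, wa ≤ w → w ≤ wb → qa ≤ q → q + Y ≤ qb + n * d → η₁ * d ≤ Y → Y ≤ n * d →
                 ∀ E : F.Ω → Prop, ϖ ≤ Pe (Pool.Agent.H49.Ent.cond F.p A True) E →
                 α / 2 * Y * Real.log 2 ≤
                 CH (Pool.Agent.H49.Ent.cond (Pool.Agent.H49.Ent.cond F.p A True) E True)
                   (Uni.dg Y (fun ω => F.md (cv (vp w) kap q) (frm σ (a w) s t) ω 0))
                   (F.blb w (cv (vp w) kap q) (frm σ (a w) s t)) := by
               intro w q Y g1 g2 g3 g4 g5 g6 E hE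
               have hmi := mi_ev hp0 (σ 0) (fun ω => (s ω, t ω)) E qa (qb + n * d)
               obtain ⟨e1, e2, e3⟩ := hev E hE
               rw [e1] at hmi ⊢
               obtain ⟨hη1, hr1, hr2, r1, r2, r3, r4, hwq⟩ := hroom' w q Y g1 g2 g3 g4 g6
               have hηJ0 : 0 ≤ η * (J : ℝ) := by positivity
               have hfri' : Pool.KVA.MI (Pool.Agent.H49.Ent.cond F.p A True)
                   (fun ω => F.D (qb + n * d) ω (σ 0)) (fun ω => (s ω, t ω))
                   (Pool.K2S.ptq F (σ 0) qa) ≤ e₃ * L * J := hfri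
               have hm : Pool.KVA.MI (Pool.Agent.H49.Ent.cond F.p (fun ω => A ω ∧ E ω) True)
                   (fun ω => F.D (qb + n * d) ω (σ 0)) (fun ω => (s ω, t ω))
                   (Pool.K2S.ptq F (σ 0) qa) ≤ 2 * (e₃ * L * J) / ϖ := by
                 have hPe : 0 < Pe (Pool.Agent.H49.Ent.cond F.p A True) E := lt_of_lt_of_le hϖ hE
                 rw [le_div_iff₀ hϖ]
                 rcases le_total 0 (Pool.KVA.MI (Pool.Agent.H49.Ent.cond F.p (fun ω => A ω ∧ E ω) True)
                   (fun ω => F.D (qb + n * d) ω (σ 0)) (fun ω => (s ω, t ω))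
                   (Pool.K2S.ptq F (σ 0) qa)) with h0 | h0
                 · have h1 := mul_le_mul_of_nonneg_right hE h0
                   rw [← hu] at hmi
                   linarith only [hu1, j5, hmi, hfri', h1]
                 · have h1 : Pool.KVA.MI (Pool.Agent.H49.Ent.cond F.p (fun ω => A ω ∧ E ω) True)
                     (fun ω => F.D (qb + n * d) ω (σ 0)) (fun ω => (s ω, t ω))
                     (Pool.K2S.ptq F (σ 0) qa) * ϖ ≤ 0 := mul_nonpos_of_nonpos_of_nonneg h0 hϖ.le
                   linarith only [hκ1, he₂0, he₂1, hnκ0, j5, h1]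
               have k1 := gA _ e2 e3 σ wl wa wb vp kap Hu HN al nu _ _ a s t (hUP.sub e2) hσ w q Y
                 g1 g2 hr1 hr2 ⟨by linarith only [r1, hηJ0], by linarith only [r2, hηJ0], by linarith only [r3, hηJ0], by linarith only [r4, hηJ0]⟩ qa (qb + n * d) _ g3 g4 hm
               refine le_trans ?_ k1
               rw [← hu]
               have h1 : η * (J : ℝ) = cη * (L * J) := by rw [hη]; ring
               have h2 := mul_le_mul_of_nonneg_right hcη2 hLJ.le
               have h3 : η₁ * (κ * L * J / 2) ≤ Y := (mul_le_mul_of_nonneg_left hd1 hη₁.le).trans g5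
               have h3' : α * (η₁ * (κ * L * J / 2)) ≤ α * Y := mul_le_mul_of_nonneg_left h3 hα.le
               have h4 : η * J ≤ α / 8 * Y := by rw [h1]; linarith only [h2, h3']
               have h5 : η * J * u ≤ α / 8 * Y * u := mul_le_mul_of_nonneg_right h4 hu0.le
               have h6 : 2 * (e₃ * L * J) / ϖ = α * η₁ * κ / 32 * (L * J) := by
                 rw [he₃]
                 field_simp
                 ring
               have h7 : α * η₁ * κ / 32 * (L * J) ≤ α / 16 * Y := by linarith only [h3']
               have h8 : α / 16 * (Y : ℝ) ≤ α / 8 * Y * u := by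
                 have : α / 8 * (Y : ℝ) * (1 / 2) ≤ α / 8 * Y * u :=
                   mul_le_mul_of_nonneg_left hu2 (by positivity)
                 linarith only [this]
               have h9 : (ca * Y - η * J) * u = α / 2 * Y * u + α / 8 * Y * u + α / 8 * Y * u -
                   η * J * u := by
                 rw [hca]; ring
               rw [h9, h6]
               linarith only [h3', h5, h8]
             exact ⟨fT, fH, fA⟩

end Pool.S6B
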